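import Pool.Agent.W5h27.ES.Comp
import Pool.Agent.Y119.HY.GalL
import Pool.Agent.Y141.GF.Wr

/-!
# The fundamental matrix at an ordinary rational point is a G-function
-/

set_option autoImplicit false

open PowerSeries Finset

namespace Pool.Agent.W5h27.ES

open Pool.Agent.Y113 Pool.Agent.Y113.HGG Pool.Agent.Y119.HY

/-- Taylor expansion at `x₀` -/
noncomputable def tay (x₀ : ℚ) : Polynomial ℚ →+* ℚ⟦X⟧ :=
  (Polynomial.coeToPowerSeries.ringHom).comp (Polynomial.compRingHom (Polynomial.X + Polynomial.C x₀))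

lemma tay_apply (x₀ : ℚ) (p : Polynomial ℚ) :
    tay x₀ p = ((p.comp (Polynomial.X + Polynomial.C x₀) : Polynomial ℚ) : ℚ⟦X⟧) := rfl

lemma tay_der (x₀ : ℚ) (p : Polynomial ℚ) : d⁄dX ℚ (tay x₀ p) = tay x₀ (Polynomial.derivative p) := by
  rw [tay_apply, tay_apply, PowerSeries.derivative_coe, Polynomial.derivative_comp]
  simp

lemma tay_zero (x₀ : ℚ) (p : Polynomial ℚ) : constantCoeff (tay x₀ p) = p.eval x₀ := by
  rw [tay_apply, Polynomial.constantCoeff_coe, Polynomial.coeff_zero_eq_eval_zero, Polynomial.eval_comp]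
  simp

lemma bq_eval {n : ℕ} {A : ℝ} {P : Polynomial ℚ} (h : Bq n A P) {x : ℚ} {M : ℝ} (hM : 1 ≤ M) (hx : |(x : ℝ)| ≤ M) :
    |((P.eval x : ℚ) : ℝ)| ≤ ((n : ℝ) + 1) * (A * M ^ n) := by
  rw [Polynomial.eval_eq_sum_range' (Nat.lt_succ_of_le h.1)]
  push_cast
  refine (Finset.abs_sum_le_sum_abs _ _).trans ?_
  refine (Finset.sum_le_card_nsmul _ _ (A * M ^ n) fun l hl => ?_).trans ?_
  · rw [Finset.mem_range] at hl
    rw [abs_mul, abs_pow]
    refine mul_le_mul (h.2 l) ?_ (by positivity) h.nonneg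
    exact (pow_le_pow_left₀ (abs_nonneg _) hx l).trans (pow_le_pow_right₀ hM (by omega))
  · rw [nsmul_eq_mul, Finset.card_range]
    push_cast
    exact le_rfl

lemma ip_eval {g n : ℕ} {P : Polynomial ℚ} (h : IP g P) (hg : 0 < g) (hd : P.natDegree ≤ n) (x : ℚ) :
    ∃ a : ℤ, ((g * x.den ^ n : ℕ) : ℚ) * P.eval x = a := by
  obtain ⟨Q, hQ⟩ := h
  have hg0 : (g : ℚ) ≠ 0 := by exact_mod_cast hg.ne'
  have hQd : Q.natDegree ≤ n := by
    have h1 : (Q.map (Int.castRingHom ℚ)).natDegree = Q.natDegree :=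
      Polynomial.natDegree_map_eq_of_injective (RingHom.injective_int _) Q
    rw [← h1, hQ, Polynomial.natDegree_C_mul hg0]
    exact hd
  have h2 : (g : ℚ) * P.eval x = (Q.map (Int.castRingHom ℚ)).eval x := by
    rw [hQ, Polynomial.eval_mul, Polynomial.eval_C]
  refine ⟨∑ l ∈ Finset.range (n + 1), Q.coeff l * (x.num ^ l * (x.den : ℤ) ^ (n - l)), ?_⟩
  rw [Nat.cast_mul, mul_comm (g : ℚ), mul_assoc, h2, Polynomial.eval_map, Polynomial.eval₂_eq_sum_range' _ (Nat.lt_succ_of_le hQd),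
    Finset.mul_sum]
  push_cast
  refine Finset.sum_congr rfl fun l hl => ?_
  rw [Finset.mem_range] at hl
  have h3 : (x.den : ℚ) ^ n = (x.den : ℚ) ^ (n - l) * (x.den : ℚ) ^ l := by
    rw [← pow_add]
    congr 1
    omega
  have h4 : (x.den : ℚ) ^ l * x ^ l = (x.num : ℚ) ^ l := by
    rw [← mul_pow, mul_comm, Rat.mul_den_eq_num]
  rw [h3, eq_intCast]
  calc (x.den : ℚ) ^ (n - l) * (x.den : ℚ) ^ l * ((Q.coeff l : ℚ) * x ^ l)
      = (Q.coeff l : ℚ) * (((x.den : ℚ) ^ l * x ^ l) * (x.den : ℚ) ^ (n - l)) := by ring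
    _ = _ := by rw [h4]

section
variable {n : ℕ} {T : Polynomial ℤ} {A : Fin n → Fin n → Polynomial ℤ}

/-- the fundamental matrix at `x₀` -/
theorem fund (x₀ : ℚ) (hT : (tq T).eval x₀ ≠ 0) : ∃ Z : Fin n → Fin n → ℚ⟦X⟧,
    (∀ i j, constantCoeff (Z i j) = if i = j then 1 else 0) ∧
    ∀ i j, tay x₀ (tq T) * d⁄dX ℚ (Z i j) = ∑ k, tay x₀ (tq (A i k)) * Z k j := by
  have hT0 : constantCoeff (tay x₀ (tq T)) ≠ 0 := by rwa [tay_zero]
  choose w hw1 hw2 using fun j : Fin n => Pool.Agent.Y141.GF.ode_exists (K := ℚ)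
    (fun i k => (tay x₀ (tq T))⁻¹ * tay x₀ (tq (A i k))) (fun i : Fin n => if i = j then (1 : ℚ) else 0)
  refine ⟨fun i j => w j i, fun i j => hw1 j i, fun i j => ?_⟩
  rw [hw2 j i, Finset.mul_sum]
  refine Finset.sum_congr rfl fun k _ => ?_
  rw [← mul_assoc, ← mul_assoc, PowerSeries.mul_inv_cancel _ hT0, one_mul]

/-- the coefficients -/
lemma fund_coeff {x₀ : ℚ} {Z : Fin n → Fin n → ℚ⟦X⟧}
    (h0 : ∀ i j, constantCoeff (Z i j) = if i = j then 1 else 0)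
    (hode : ∀ i j, tay x₀ (tq T) * d⁄dX ℚ (Z i j) = ∑ k, tay x₀ (tq (A i k)) * Z k j) (s : ℕ) (i j : Fin n) :
    (tq T).eval x₀ ^ s * coeff s (Z i j) = (ah T (fun a b => A b a) s i j).eval x₀ := by
  have h1 := rec_iter (tay x₀) (tay_der x₀) (T := tq T) (B := aq (fun a b => A b a)) (Y := fun i => Z i j)
    (fun i => hode i j) s i
  have h2 := congrArg (constantCoeff (R := ℚ)) h1
  rw [map_mul, map_pow, tay_zero, map_sum, ← fac_hd] at h2
  simp only [map_mul, tay_zero, h0, map_natCast] at h2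
  rw [Finset.sum_eq_single j (fun k _ hk => by rw [if_neg hk, mul_zero]) (fun h => absurd (Finset.mem_univ _) h),
    if_pos rfl, mul_one] at h2
  have h3 : constantCoeff (hd s (Z i j)) = coeff s (Z i j) := by
    rw [← coeff_zero_eq_constantCoeff_apply, coeff_hd]
    simp
  rw [h3] at h2
  unfold ah
  rw [Polynomial.eval_mul, Polynomial.eval_C, ← h2]
  have h4 : (s.factorial : ℚ) ≠ 0 := by exact_mod_cast s.factorial_ne_zero
  field_simp

theorem fund_sdc {q : ℕ} {x₀ : ℚ} (hT : (tq T).eval x₀ ≠ 0)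
    (hGP : ∀ i j, GP q fun s => ah T (fun a b => A b a) s i j) {Z : Fin n → Fin n → ℚ⟦X⟧}
    (h0 : ∀ i j, constantCoeff (Z i j) = if i = j then 1 else 0)
    (hode : ∀ i j, tay x₀ (tq T) * d⁄dX ℚ (Z i j) = ∑ k, tay x₀ (tq (A i k)) * Z k j) (i j : Fin n) :
    SDc (Z i j) := by
  obtain ⟨τ, hτ⟩ : ∃ τ, τ = (tq T).eval x₀ := ⟨_, rfl⟩
  rw [← hτ] at hT
  have hc : ∀ s, coeff s (Z i j) = (ah T (fun a b => A b a) s i j).eval x₀ / τ ^ s := by
    intro s
    rw [← fund_coeff h0 hode s i j, ← hτ]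
    field_simp
  obtain ⟨C, hC, h1, h2⟩ := hGP i j
  obtain ⟨M, hM⟩ : ∃ M : ℝ, M = 1 + |(x₀ : ℝ)| := ⟨_, rfl⟩
  have hM1 : 1 ≤ M := by
    rw [hM]
    have := abs_nonneg (x₀ : ℝ)
    linarith
  have hxM : |(x₀ : ℝ)| ≤ M := by
    rw [hM]
    linarith
  have hτR : (0 : ℝ) < |(τ : ℝ)| := abs_pos.2 (by exact_mod_cast hT)
  obtain ⟨L, hL⟩ : ∃ L : ℝ, L = 1 + 1 / |(τ : ℝ)| := ⟨_, rfl⟩
  have hL1 : 1 ≤ L := by
    rw [hL]
    have : 0 ≤ 1 / |(τ : ℝ)| := by positivity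
    linarith
  have hLτ : 1 / |(τ : ℝ)| ≤ L := by
    rw [hL]
    linarith
  refine sdc_of ⟨2 * ((q : ℝ) + 1) * (C * M ^ q * L), fun s => ?_⟩
    ⟨C * (x₀.den : ℝ) ^ q * (τ.num.natAbs : ℝ), fun k => ?_⟩
  · rw [hc s, Rat.cast_div, Rat.cast_pow, abs_div, abs_pow]
    have e1 := bq_eval (h1 s) hM1 hxM
    have e2 : ((q * s : ℕ) : ℝ) + 1 ≤ (2 * ((q : ℝ) + 1)) ^ (s + 1) := lin_le_pow q s
    have e3 : 1 / |(τ : ℝ)| ^ s ≤ L ^ (s + 1) := by
      rw [← one_div_pow]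
      exact (pow_le_pow_left₀ (by positivity) hLτ s).trans (pow_le_pow_right₀ hL1 (Nat.le_succ s))
    have e4 : M ^ (q * s) ≤ (M ^ q) ^ (s + 1) := by
      rw [← pow_mul]
      exact pow_le_pow_right₀ hM1 (by nlinarith)
    have hC0 : (0 : ℝ) ≤ C := by linarith
    rw [div_eq_mul_one_div]
    calc |(((ah T (fun a b => A b a) s i j).eval x₀ : ℚ) : ℝ)| * (1 / |(τ : ℝ)| ^ s)
        ≤ ((2 * ((q : ℝ) + 1)) ^ (s + 1) * (C ^ (s + 1) * (M ^ q) ^ (s + 1))) * L ^ (s + 1) := by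
          refine mul_le_mul (e1.trans ?_) e3 (by positivity) (by positivity)
          exact mul_le_mul e2 (mul_le_mul_of_nonneg_left e4 (by positivity)) (by positivity) (by positivity)
      _ = _ := by
          rw [mul_pow (2 * ((q : ℝ) + 1)), mul_pow (C * M ^ q), mul_pow C]
          ring
  · obtain ⟨g, hg0, hg, hg'⟩ := h2 k
    have hn0 : 0 < τ.num.natAbs := Int.natAbs_pos.2 (by simpa using hT)
    refine ⟨g * x₀.den ^ (q * k) * τ.num.natAbs ^ k, by positivity, ?_, fun s hs => ?_⟩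
    · push_cast
      rw [mul_pow, mul_pow]
      have e1 : (1 : ℝ) ≤ x₀.den := by exact_mod_cast x₀.den_pos
      have e2 : (1 : ℝ) ≤ ((τ.num.natAbs : ℕ) : ℝ) := by exact_mod_cast hn0
      have e3 : ((x₀.den : ℝ)) ^ (q * k) ≤ ((x₀.den : ℝ) ^ q) ^ (k + 1) := by
        rw [← pow_mul]
        exact pow_le_pow_right₀ e1 (by nlinarith)
      have e4 : ((τ.num.natAbs : ℕ) : ℝ) ^ k ≤ ((τ.num.natAbs : ℕ) : ℝ) ^ (k + 1) := pow_le_pow_right₀ e2 (Nat.le_succ k)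
      have hC0 : (0 : ℝ) ≤ C := by linarith
      exact mul_le_mul (mul_le_mul hg e3 (by positivity) (by positivity)) e4 (by positivity) (by positivity)
    · have hdeg : (ah T (fun a b => A b a) s i j).natDegree ≤ q * k := (h1 s).1.trans (Nat.mul_le_mul_left _ hs)
      obtain ⟨a, ha⟩ := ip_eval (hg' s hs) hg0 hdeg x₀
      obtain ⟨c, hcc⟩ : ∃ c : ℤ, ((τ.num.natAbs ^ k : ℕ) : ℚ) = c * τ ^ s := by
        have e5 : ∃ ε : ℤ, ((τ.num.natAbs : ℕ) : ℤ) = ε * τ.num := by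
          rcases Int.natAbs_eq τ.num with h | h
          · exact ⟨1, by rw [one_mul, ← h]⟩
          · exact ⟨-1, by rw [neg_one_mul]; omega⟩
        obtain ⟨ε, hε⟩ := e5
        have e6 : (τ.num : ℚ) = τ * τ.den := (Rat.mul_den_eq_num τ).symm
        refine ⟨ε ^ k * τ.num ^ (k - s) * (τ.den : ℤ) ^ s, ?_⟩
        have e7 : ((τ.num.natAbs : ℕ) : ℚ) = (ε : ℚ) * (τ.num : ℚ) := by
          rw [Nat.cast_natAbs]
          exact_mod_cast hε
        push_cast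
        rw [e7, mul_pow]
        have e8 : (τ.num : ℚ) ^ k = (τ.num : ℚ) ^ (k - s) * (τ.num : ℚ) ^ s := by
          rw [← pow_add]
          congr 1
          omega
        rw [e8]
        nth_rewrite 2 [e6]
        rw [mul_pow]
        ring
      refine ⟨a * c, ?_⟩
      rw [hc s]
      push_cast at ha hcc ⊢
      rw [← ha]
      have hτs : τ ^ s ≠ 0 := pow_ne_zero _ hT
      rw [hcc]
      field_simp

end

end Pool.Agent.W5h27.ES
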