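import Pool.Agent.Y119.HY.Ari

/-!
# Composition of G-functions with rational functions
-/

set_option autoImplicit false

open PowerSeries Finset

namespace Pool.Agent.W5h27.ES

open Pool.Agent.Y113
open Pool.Agent.Y119.HY (sdc_of)

/-- geometric sizes and denominators -/
def Geo (K : ℕ) (f : ℚ⟦X⟧) : Prop :=
  ∀ m, (∃ a : ℤ, (K : ℚ) ^ m * coeff m f = a) ∧ |((coeff m f : ℚ) : ℝ)| ≤ (K : ℝ) ^ m

lemma sum_two (K : ℝ) (hK : 0 ≤ K) (m : ℕ) (u : ℕ → ℕ → ℝ) (h0 : ∀ i, u i 0 = 0)
    (h : ∀ i j, |u i j| ≤ (2 * K) ^ i * K ^ j) : |∑ p ∈ antidiagonal m, u p.1 p.2| ≤ (2 * K) ^ m := by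
  rw [Finset.Nat.sum_antidiagonal_eq_sum_range_succ_mk, Finset.sum_range_succ]
  simp only [Nat.sub_self, h0, add_zero]
  refine (Finset.abs_sum_le_sum_abs _ _).trans ?_
  have h1 : ∀ i ∈ Finset.range m, |u i (m - i)| ≤ 2 ^ i * K ^ m := by
    intro i hi
    rw [Finset.mem_range] at hi
    refine (h i (m - i)).trans (le_of_eq ?_)
    rw [mul_pow, mul_assoc, ← pow_add]
    congr 2
    omega
  refine (Finset.sum_le_sum h1).trans ?_
  rw [← Finset.sum_mul, mul_pow]
  refine mul_le_mul_of_nonneg_right ?_ (pow_nonneg hK m)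
  have h2 : ∀ m : ℕ, ∑ i ∈ Finset.range m, (2 : ℝ) ^ i = 2 ^ m - 1 := by
    intro m
    induction m with
    | zero => simp
    | succ m ih => rw [Finset.sum_range_succ, ih, pow_succ]; ring
  rw [h2]
  linarith

lemma Geo.pow {K : ℕ} {f : ℚ⟦X⟧} (h : Geo K f) (h0 : coeff 0 f = 0) (d : ℕ) :
    ∀ m, (∃ a : ℤ, (K : ℚ) ^ m * coeff m (f ^ d) = a) ∧ |((coeff m (f ^ d) : ℚ) : ℝ)| ≤ (2 * (K : ℝ)) ^ m := by
  induction d with
  | zero =>
    intro m
    rw [pow_zero, coeff_one]
    rcases Nat.eq_zero_or_pos m with hm | hm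
    · subst hm
      simp
      exact ⟨1, by simp⟩
    · rw [if_neg (by omega)]
      refine ⟨⟨0, by simp⟩, ?_⟩
      simp only [Rat.cast_zero, abs_zero]
      positivity
  | succ d ih =>
    intro m
    rw [pow_succ, coeff_mul]
    constructor
    · choose a ha using fun m => (ih m).1
      choose b hb using fun m => (h m).1
      refine ⟨∑ p ∈ antidiagonal m, a p.1 * b p.2, ?_⟩
      rw [Finset.mul_sum]
      push_cast
      refine Finset.sum_congr rfl fun p hp => ?_
      rw [HasAntidiagonal.mem_antidiagonal] at hp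
      rw [← ha, ← hb, ← hp, pow_add]
      ring
    · push_cast
      refine sum_two K (Nat.cast_nonneg K) m (fun i j => ((coeff i (f ^ d) : ℚ) : ℝ) * ((coeff j f : ℚ) : ℝ)) (fun i => ?_)
        fun i j => ?_
      · rw [h0]
        simp
      · rw [abs_mul]
        exact mul_le_mul (ih i).2 (h j).2 (abs_nonneg _) (by positivity)

lemma coeff_subst_geo {g : ℚ⟦X⟧} (h0 : coeff 0 g = 0) (m : ℕ) (f : ℚ⟦X⟧) :
    coeff m (f.subst g) = ∑ d ∈ Finset.range (m + 1), coeff d f * coeff m (g ^ d) := by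
  have hs : HasSubst g := HasSubst.of_constantCoeff_zero' (by rwa [← coeff_zero_eq_constantCoeff_apply])
  rw [coeff_subst' hs]
  rw [finsum_eq_sum_of_support_subset (s := Finset.range (m + 1))]
  · rfl
  · intro d hd
    rw [Function.mem_support] at hd
    rw [Finset.coe_range, Set.mem_Iio]
    by_contra h
    apply hd
    have h1 : (X : ℚ⟦X⟧) ∣ g := X_dvd_iff.2 (by rwa [← coeff_zero_eq_constantCoeff_apply])
    have h2 := X_pow_dvd_iff.1 (pow_dvd_pow_of_dvd h1 d) m (by omega)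
    rw [h2, smul_zero]

/-- composition -/
theorem sdc_comp {f g : ℚ⟦X⟧} (hf : SDc f) {K : ℕ} (hK : 1 ≤ K) (hg : Geo K g) (h0 : coeff 0 g = 0) :
    SDc (f.subst g) := by
  obtain ⟨n, hn⟩ := hf
  have hA := hn.one_le
  generalize (2 : ℝ) ^ n = A at hn hA
  have hA0 : 0 < A := by linarith
  have hK1 : (1 : ℝ) ≤ K := by exact_mod_cast hK
  refine sdc_of ⟨2 * A * (2 * K), fun m => ?_⟩ ⟨A * K, fun m => ?_⟩
  · rw [coeff_subst_geo h0]
    push_cast
    refine (Finset.abs_sum_le_sum_abs _ _).trans ?_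
    refine (Finset.sum_le_card_nsmul _ _ (A ^ (m + 1) * (2 * (K : ℝ)) ^ m) fun d hd => ?_).trans ?_
    · rw [Finset.mem_range] at hd
      rw [abs_mul]
      exact mul_le_mul ((hn.1 d).trans (pow_le_pow_right₀ hA (by omega))) (hg.pow h0 d m).2 (abs_nonneg _) (by positivity)
    · rw [nsmul_eq_mul, Finset.card_range]
      push_cast
      have h1 : ((m : ℝ) + 1) ≤ 2 ^ (m + 1) := by
        have h9 : m + 1 ≤ 2 ^ (m + 1) := (Nat.lt_two_pow_self).le
        exact_mod_cast h9
      have h2 : (2 * (K : ℝ)) ^ m ≤ (2 * (K : ℝ)) ^ (m + 1) := pow_le_pow_right₀ (by linarith) (Nat.le_succ m)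
      calc ((m : ℝ) + 1) * (A ^ (m + 1) * (2 * (K : ℝ)) ^ m) ≤ 2 ^ (m + 1) * (A ^ (m + 1) * (2 * (K : ℝ)) ^ (m + 1)) :=
            mul_le_mul h1 (mul_le_mul_of_nonneg_left h2 (by positivity)) (by positivity) (by positivity)
        _ = _ := by
            rw [mul_pow (2 * A), mul_pow 2 A]
            ring
  · obtain ⟨d, hd0, hd, hd'⟩ := hn.2 m
    refine ⟨d * K ^ m, Nat.mul_pos hd0 (pow_pos (by omega) m), ?_, fun j hj => ?_⟩
    · push_cast
      rw [mul_pow]
      exact mul_le_mul hd (pow_le_pow_right₀ hK1 (Nat.le_succ m)) (by positivity) (by positivity)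
    · choose! a ha using hd'
      choose b hb using fun e => (hg.pow h0 e j).1
      refine ⟨∑ e ∈ Finset.range (j + 1), a e * (b e * (K : ℤ) ^ (m - j)), ?_⟩
      rw [coeff_subst_geo h0, Finset.mul_sum]
      push_cast
      refine Finset.sum_congr rfl fun e he => ?_
      rw [Finset.mem_range] at he
      rw [← ha e (by omega), ← hb e]
      have h3 : (K : ℚ) ^ m = (K : ℚ) ^ (m - j) * (K : ℚ) ^ j := by rw [← pow_add]; congr 1; omega
      rw [h3]
      ring

lemma coeff_ps (P : Polynomial ℤ) (m : ℕ) : coeff m (ps P) = (P.coeff m : ℚ) := by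
  unfold ps
  rw [Polynomial.coeff_coe, Polynomial.coeff_map]
  rfl

/-- rational functions without constant term -/
theorem geo_rat (a b : Polynomial ℤ) (hb : b.coeff 0 ≠ 0) (Y : ℚ⟦X⟧) (h0 : coeff 0 Y = 0)
    (hY : ps b * (Y + C ((a.coeff 0 : ℚ) / b.coeff 0)) = ps a) : ∃ K : ℕ, 1 ≤ K ∧ Geo K Y := by
  have hb' : (b.coeff 0 : ℚ) ≠ 0 := by exact_mod_cast hb
  -- the recursion
  obtain ⟨e, he⟩ : ∃ e : ℕ → ℤ, ∀ m, e m = b.coeff 0 * a.coeff m - a.coeff 0 * b.coeff m := ⟨_, fun _ => rfl⟩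
  have hrec : ∀ n, coeff (n + 1) Y = (e (n + 1) : ℚ) / (b.coeff 0) ^ 2 -
      ∑ p ∈ antidiagonal n, ((b.coeff (p.1 + 1) : ℚ) / b.coeff 0) * coeff p.2 Y := by
    intro n
    have h1 := congrArg (coeff (n + 1)) hY
    rw [mul_add, map_add, coeff_mul_C, coeff_ps, coeff_ps, coeff_mul, Finset.Nat.sum_antidiagonal_succ] at h1
    simp only [coeff_ps] at h1
    have h2 : ∑ p ∈ antidiagonal n, ((b.coeff (p.1 + 1) : ℚ) / b.coeff 0) * coeff p.2 Y =
        (∑ p ∈ antidiagonal n, (b.coeff (p.1 + 1) : ℚ) * coeff p.2 Y) / b.coeff 0 := by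
      rw [Finset.sum_div]
      exact Finset.sum_congr rfl fun p _ => by ring
    rw [h2, he]
    push_cast
    field_simp
    field_simp at h1
    linear_combination h1
  obtain ⟨N, hN⟩ : ∃ N : ℕ, N = max a.natDegree b.natDegree := ⟨_, rfl⟩
  obtain ⟨M, hM⟩ : ∃ M : ℕ, M = 1 + ∑ i ∈ Finset.range (N + 1), ((b.coeff i).natAbs + (e i).natAbs) := ⟨_, rfl⟩
  have hM1 : 1 ≤ M := by omega
  have heN : ∀ i, N < i → e i = 0 := by
    intro i hi
    rw [he, Polynomial.coeff_eq_zero_of_natDegree_lt (lt_of_le_of_lt (hN ▸ le_max_left _ _) hi),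
      Polynomial.coeff_eq_zero_of_natDegree_lt (lt_of_le_of_lt (hN ▸ le_max_right _ _) hi)]
    ring
  have hbN : ∀ i, N < i → b.coeff i = 0 := fun i hi =>
    Polynomial.coeff_eq_zero_of_natDegree_lt (lt_of_le_of_lt (hN ▸ le_max_right _ _) hi)
  have heM : ∀ i, (e i).natAbs ≤ M := by
    intro i
    by_cases hi : N < i
    · rw [heN i hi]
      simp
    · have h1 := Finset.single_le_sum (f := fun i => (b.coeff i).natAbs + (e i).natAbs) (fun _ _ => Nat.zero_le _)
        (Finset.mem_range.2 (by omega : i < N + 1))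
      have h2 : (b.coeff i).natAbs + (e i).natAbs ≤ ∑ i ∈ Finset.range (N + 1), ((b.coeff i).natAbs + (e i).natAbs) := h1
      omega
  have hbM : ∀ n, ∑ p ∈ antidiagonal n, (b.coeff (p.1 + 1)).natAbs ≤ M := by
    intro n
    rw [Finset.Nat.sum_antidiagonal_eq_sum_range_succ_mk]
    have h1 : ∑ i ∈ Finset.range (n + 1), (b.coeff (i + 1)).natAbs ≤ ∑ i ∈ Finset.range (n + 1 + 1 + N), (b.coeff i).natAbs := by
      rw [show n + 1 + 1 + N = (n + 1 + N) + 1 by ring,
        Finset.sum_range_succ' (fun i => (b.coeff i).natAbs) (n + 1 + N)]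
      refine le_trans ?_ (Nat.le_add_right _ _)
      exact Finset.sum_le_sum_of_subset (Finset.range_subset_range.2 (by omega))
    have h2 : ∑ i ∈ Finset.range (n + 1 + 1 + N), (b.coeff i).natAbs = ∑ i ∈ Finset.range (N + 1), (b.coeff i).natAbs := by
      symm
      refine Finset.sum_subset (Finset.range_subset_range.2 (by omega)) fun i _ hi => ?_
      rw [Finset.mem_range, not_lt] at hi
      rw [hbN i (by omega)]
      rfl
    have h3 : ∑ i ∈ Finset.range (N + 1), (b.coeff i).natAbs ≤ ∑ i ∈ Finset.range (N + 1), ((b.coeff i).natAbs + (e i).natAbs) :=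
      Finset.sum_le_sum fun i _ => Nat.le_add_right _ _
    have h4 : ∑ i ∈ Finset.range (n + 1), (b.coeff (i + 1)).natAbs ≤ ∑ i ∈ Finset.range (N + 1), ((b.coeff i).natAbs + (e i).natAbs) :=
      h1.trans (h2.le.trans h3)
    have h5 : ∑ i ∈ Finset.range n.succ, (b.coeff (i + 1)).natAbs = ∑ i ∈ Finset.range (n + 1), (b.coeff (i + 1)).natAbs := rfl
    rw [h5]
    omega
  obtain ⟨B, hB⟩ : ∃ B : ℕ, B = (b.coeff 0).natAbs := ⟨_, rfl⟩
  have hB1 : 1 ≤ B := by
    rw [hB]
    exact Int.natAbs_pos.2 hb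
  obtain ⟨K, hK⟩ : ∃ K : ℕ, K = B ^ 2 * (2 * M) := ⟨_, rfl⟩
  have hKM : 2 * M ≤ K := by
    rw [hK]
    exact Nat.le_mul_of_pos_left _ (by positivity)
  have hK1 : 1 ≤ K := by omega
  have hKR : (1 : ℝ) ≤ K := by exact_mod_cast hK1
  have hKq : (K : ℚ) = (b.coeff 0 : ℚ) ^ 2 * (2 * M) := by
    rw [hK, hB]
    push_cast
    rw [Nat.cast_natAbs]
    push_cast
    rw [sq_abs]
  refine ⟨K, hK1, fun m => ?_⟩
  induction m using Nat.strong_induction_on with
  | _ m ih =>
    rcases m with _ | n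
    · rw [h0]
      exact ⟨⟨0, by simp⟩, by simp⟩
    · rw [hrec n]
      constructor
      · have hint : ∀ p : ℕ × ℕ, ∃ c : ℤ, p ∈ antidiagonal n →
            (K : ℚ) ^ (n + 1) * (((b.coeff (p.1 + 1) : ℚ) / b.coeff 0) * coeff p.2 Y) = c := by
          intro p
          by_cases hp : p ∈ antidiagonal n
          · rw [HasAntidiagonal.mem_antidiagonal] at hp
            obtain ⟨c, hc⟩ := (ih p.2 (by omega)).1
            refine ⟨(K : ℤ) ^ p.1 * (b.coeff 0 * (2 * M) * b.coeff (p.1 + 1)) * c, fun _ => ?_⟩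
            have h3 : (K : ℚ) ^ (n + 1) = (K : ℚ) ^ p.1 * K * (K : ℚ) ^ p.2 := by
              rw [← hp]
              ring
            rw [h3]
            push_cast
            rw [← hc]
            nth_rewrite 2 [hKq]
            field_simp
          · exact ⟨0, fun h => absurd h hp⟩
        choose c hc using hint
        refine ⟨(K : ℤ) ^ n * (2 * M) * e (n + 1) - ∑ p ∈ antidiagonal n, c p, ?_⟩
        rw [mul_sub, Finset.mul_sum]
        push_cast
        congr 1
        · rw [pow_succ]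
          nth_rewrite 2 [hKq]
          field_simp
        · exact Finset.sum_congr rfl fun p hp => hc p hp
      · push_cast
        have hbR : (1 : ℝ) ≤ |(b.coeff 0 : ℝ)| := by
          have h4 : (1 : ℤ) ≤ |b.coeff 0| := Int.one_le_abs hb
          exact_mod_cast h4
        have e1 : |(e (n + 1) : ℝ) / (b.coeff 0 : ℝ) ^ 2| ≤ M := by
          rw [abs_div, abs_pow]
          refine (div_le_self (abs_nonneg _) (one_le_pow₀ hbR)).trans ?_
          have h5 := heM (n + 1)
          have h6 : |(e (n + 1) : ℝ)| = (((e (n + 1)).natAbs : ℕ) : ℝ) := by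
            rw [Nat.cast_natAbs]
            push_cast
            rfl
          rw [h6]
          exact_mod_cast h5
        have e2 : |∑ p ∈ antidiagonal n, ((b.coeff (p.1 + 1) : ℝ) / (b.coeff 0 : ℝ)) * ((coeff p.2 Y : ℚ) : ℝ)| ≤
            M * (K : ℝ) ^ n := by
          refine (Finset.abs_sum_le_sum_abs _ _).trans ?_
          have h7 : ∀ p ∈ antidiagonal n, |((b.coeff (p.1 + 1) : ℝ) / (b.coeff 0 : ℝ)) * ((coeff p.2 Y : ℚ) : ℝ)| ≤
              (((b.coeff (p.1 + 1)).natAbs : ℕ) : ℝ) * (K : ℝ) ^ n := by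
            intro p hp
            rw [HasAntidiagonal.mem_antidiagonal] at hp
            rw [abs_mul, abs_div]
            refine mul_le_mul ?_ (((ih p.2 (by omega)).2).trans (pow_le_pow_right₀ hKR (by omega))) (abs_nonneg _)
              (Nat.cast_nonneg _)
            refine (div_le_self (abs_nonneg _) hbR).trans (le_of_eq ?_)
            rw [Nat.cast_natAbs]
            push_cast
            rfl
          refine (Finset.sum_le_sum h7).trans ?_
          rw [← Finset.sum_mul]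
          refine mul_le_mul_of_nonneg_right ?_ (by positivity)
          exact_mod_cast hbM n
        have e3 : (1 : ℝ) ≤ (K : ℝ) ^ n := one_le_pow₀ hKR
        have hM0 : (0 : ℝ) ≤ M := Nat.cast_nonneg _
        have e4 : (2 : ℝ) * M ≤ K := by exact_mod_cast hKM
        calc |(e (n + 1) : ℝ) / (b.coeff 0 : ℝ) ^ 2 -
              ∑ p ∈ antidiagonal n, ((b.coeff (p.1 + 1) : ℝ) / (b.coeff 0 : ℝ)) * ((coeff p.2 Y : ℚ) : ℝ)|
            ≤ M + M * (K : ℝ) ^ n := (abs_sub _ _).trans (add_le_add e1 e2)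
          _ ≤ M * (K : ℝ) ^ n + M * (K : ℝ) ^ n := by nlinarith
          _ = (2 * M) * (K : ℝ) ^ n := by ring
          _ ≤ K * (K : ℝ) ^ n := mul_le_mul_of_nonneg_right e4 (by positivity)
          _ = (K : ℝ) ^ (n + 1) := by ring

end Pool.Agent.W5h27.ES
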