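import Pool.Agent.W5h27.ES.Comp
import Pool.Agent.Y916.Al.Ev

/-!
# Values of compositions and of derivatives
-/

set_option autoImplicit false

open PowerSeries Finset

namespace Pool.Agent.W5h27.ES

open Pool.Agent.Y113
open Pool.Agent.Y916.Al (evc Cvc)

lemma norm_cast_coeff (f : ℚ⟦X⟧) (m : ℕ) : ‖((coeff m f : ℚ) : ℂ)‖ = |((coeff m f : ℚ) : ℝ)| := by
  rw [← Complex.ofReal_ratCast, Complex.norm_real, Real.norm_eq_abs]

lemma sdc_cvc {f : ℚ⟦X⟧} (h : SDc f) : ∃ r : ℝ, 0 < r ∧ ∀ x : ℂ, ‖x‖ < r → Cvc x f := by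
  obtain ⟨n, hn⟩ := h
  have hA := hn.one_le
  generalize (2 : ℝ) ^ n = A at hn hA
  have hA0 : 0 < A := by linarith
  refine ⟨1 / (2 * A), by positivity, fun x hx => ?_⟩
  refine Summable.of_nonneg_of_le (fun m => by positivity) (fun m => ?_) (summable_geometric_two.mul_left A)
  rw [norm_cast_coeff]
  calc |((coeff m f : ℚ) : ℝ)| * ‖x‖ ^ m ≤ A ^ (m + 1) * (1 / (2 * A)) ^ m :=
        mul_le_mul (hn.1 m) (pow_le_pow_left₀ (norm_nonneg _) hx.le _) (by positivity) (by positivity)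
    _ = A * (1 / 2) ^ m := by
        rw [pow_succ, mul_right_comm, ← mul_pow]
        have e : A * (1 / (2 * A)) = 1 / 2 := by field_simp
        rw [e, mul_comm]

lemma nat_le_two_pow (n : ℕ) : (n : ℝ) ≤ 2 ^ n := by
  exact_mod_cast (Nat.lt_two_pow_self (n := n)).le

/-- the derivative of the value -/
lemma evc_der {f : ℚ⟦X⟧} (h : SDc f) : ∃ r : ℝ, 0 < r ∧ ∀ x : ℂ, ‖x‖ < r →
    HasDerivAt (fun y => evc y f) (evc x (d⁄dX ℚ f)) x := by
  obtain ⟨n, hn⟩ := h
  have hA := hn.one_le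
  generalize (2 : ℝ) ^ n = A at hn hA
  have hA0 : 0 < A := by linarith
  have hr : (0 : ℝ) < 1 / (4 * A) := by positivity
  refine ⟨1 / (4 * A), hr, fun x hx => ?_⟩
  have hu : Summable fun m : ℕ => 4 * A ^ 2 * (1 / 2 : ℝ) ^ m := summable_geometric_two.mul_left _
  have hb : ∀ (m : ℕ) (y : ℂ), y ∈ Metric.ball (0 : ℂ) (1 / (4 * A)) →
      ‖((coeff m f : ℚ) : ℂ) * ((m : ℂ) * y ^ (m - 1))‖ ≤ 4 * A ^ 2 * (1 / 2) ^ m := by
    intro m y hy
    rw [Metric.mem_ball, dist_zero_right] at hy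
    rcases m with _ | m
    · simp
      positivity
    · rw [norm_mul, norm_mul, norm_pow, norm_cast_coeff, Complex.norm_natCast, Nat.add_sub_cancel]
      calc |((coeff (m + 1) f : ℚ) : ℝ)| * ((((m + 1 : ℕ)) : ℝ) * ‖y‖ ^ m)
          ≤ A ^ (m + 1 + 1) * (2 ^ (m + 1) * (1 / (4 * A)) ^ m) := by
            refine mul_le_mul (hn.1 (m + 1)) (mul_le_mul (nat_le_two_pow _) (pow_le_pow_left₀ (norm_nonneg _) hy.le _)
              (by positivity) (by positivity)) (by positivity) (by positivity)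
        _ = 4 * A ^ 2 * (1 / 2) ^ (m + 1) := by
            have e1 : (1 / (4 * A)) ^ m = (1 / 4) ^ m * (1 / A) ^ m := by rw [← mul_pow]; congr 1; field_simp
            have e2 : A ^ (m + 1 + 1) * (1 / A) ^ m = A ^ 2 := by
              rw [pow_succ, pow_succ, one_div, inv_pow]
              field_simp
            have e3 : (2 : ℝ) ^ (m + 1) * (1 / 4) ^ m = 4 * (1 / 2) ^ (m + 1) := by
              have e4 : (1 / 4 : ℝ) = (1 / 2) * (1 / 2) := by norm_num
              rw [e4, mul_pow, pow_succ, pow_succ]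
              have e5 : (2 : ℝ) ^ m * (1 / 2) ^ m = 1 := by rw [← mul_pow]; norm_num
              linear_combination (2 * (1 / 2) ^ m) * e5
            rw [e1]
            calc A ^ (m + 1 + 1) * (2 ^ (m + 1) * ((1 / 4) ^ m * (1 / A) ^ m))
                = (A ^ (m + 1 + 1) * (1 / A) ^ m) * (2 ^ (m + 1) * (1 / 4) ^ m) := by ring
              _ = _ := by rw [e2, e3]; ring
  have h0 : (0 : ℂ) ∈ Metric.ball (0 : ℂ) (1 / (4 * A)) := Metric.mem_ball_self hr
  have hx' : x ∈ Metric.ball (0 : ℂ) (1 / (4 * A)) := by rwa [Metric.mem_ball, dist_zero_right]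
  have key := hasDerivAt_tsum_of_isPreconnected (g := fun (m : ℕ) (y : ℂ) => ((coeff m f : ℚ) : ℂ) * y ^ m)
    (g' := fun (m : ℕ) (y : ℂ) => ((coeff m f : ℚ) : ℂ) * ((m : ℂ) * y ^ (m - 1))) hu Metric.isOpen_ball
    (convex_ball _ _).isPreconnected (fun m y _ => (hasDerivAt_pow m y).const_mul _) hb h0
    (summable_of_ne_finset_zero (s := {0}) fun m hm => by
      rw [Finset.mem_singleton] at hm
      simp [hm]) hx'
  refine key.congr_deriv ?_
  have hs : Summable fun m : ℕ => ((coeff m f : ℚ) : ℂ) * ((m : ℂ) * x ^ (m - 1)) :=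
    Summable.of_norm_bounded hu fun m => hb m x hx'
  rw [hs.tsum_eq_zero_add]
  unfold evc
  simp only [Nat.cast_zero, zero_mul, mul_zero, zero_add, Nat.add_sub_cancel]
  refine tsum_congr fun m => ?_
  rw [PowerSeries.coeff_derivative]
  push_cast
  ring

/-- the value of a composition -/
theorem evc_comp {f g : ℚ⟦X⟧} (hf : SDc f) {K : ℕ} (hK : 1 ≤ K) (hg : Geo K g) (h0 : coeff 0 g = 0) :
    ∃ r : ℝ, 0 < r ∧ ∀ x : ℂ, ‖x‖ < r → evc x (f.subst g) = evc (evc x g) f := by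
  obtain ⟨n, hn⟩ := hf
  have hA := hn.one_le
  generalize (2 : ℝ) ^ n = A at hn hA
  have hA0 : 0 < A := by linarith
  have hKR : (1 : ℝ) ≤ K := by exact_mod_cast hK
  refine ⟨1 / (2 * K * (2 * A) ^ 2), by positivity, fun x hx => ?_⟩
  -- the small parameter
  obtain ⟨s, hs⟩ : ∃ s : ℝ, s = 1 / (2 * A) := ⟨_, rfl⟩
  have hs0 : 0 < s := by rw [hs]; positivity
  have hs1 : s ≤ 1 / 2 := by
    rw [hs]
    exact one_div_le_one_div_of_le (by norm_num) (by linarith)
  have hAs : A * s = 1 / 2 := by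
    rw [hs]
    field_simp
  have hxs : 2 * (K : ℝ) * ‖x‖ ≤ s * s := by
    have h1 : 2 * (K : ℝ) * ‖x‖ ≤ 2 * K * (1 / (2 * K * (2 * A) ^ 2)) := mul_le_mul_of_nonneg_left hx.le (by positivity)
    refine h1.trans (le_of_eq ?_)
    rw [hs]
    field_simp
  obtain ⟨F, hF⟩ : ∃ F : ℕ → ℕ → ℂ, F = fun d m => ((coeff d f : ℚ) : ℂ) * (((coeff m (g ^ d) : ℚ) : ℂ) * x ^ m) := ⟨_, rfl⟩
  have hz : ∀ d m, m < d → coeff m (g ^ d) = 0 := by
    intro d m hdm
    have h1 : (X : ℚ⟦X⟧) ∣ g := X_dvd_iff.2 (by rwa [← coeff_zero_eq_constantCoeff_apply])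
    exact X_pow_dvd_iff.1 (pow_dvd_pow_of_dvd h1 d) m hdm
  have hFb : ∀ p : ℕ × ℕ, ‖F p.1 p.2‖ ≤ (A * (1 / 2) ^ p.1) * (1 / 2) ^ p.2 := by
    rintro ⟨d, m⟩
    show ‖F d m‖ ≤ (A * (1 / 2) ^ d) * (1 / 2) ^ m
    rw [hF]
    simp only
    rcases lt_or_ge m d with hdm | hdm
    · rw [hz d m hdm]
      simp
      positivity
    · rw [norm_mul, norm_mul, norm_pow, norm_cast_coeff, norm_cast_coeff]
      have h1 : |((coeff m (g ^ d) : ℚ) : ℝ)| * ‖x‖ ^ m ≤ (s * s) ^ m := by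
        calc |((coeff m (g ^ d) : ℚ) : ℝ)| * ‖x‖ ^ m ≤ (2 * (K : ℝ)) ^ m * ‖x‖ ^ m :=
              mul_le_mul_of_nonneg_right (hg.pow h0 d m).2 (by positivity)
          _ = (2 * (K : ℝ) * ‖x‖) ^ m := by rw [mul_pow (2 * (K : ℝ)) ‖x‖]
          _ ≤ _ := pow_le_pow_left₀ (by positivity) hxs m
      have h2 : (s * s) ^ m ≤ s ^ d * (1 / 2) ^ m := by
        rw [mul_pow]
        refine mul_le_mul (pow_le_pow_of_le_one hs0.le (by linarith) hdm) (pow_le_pow_left₀ hs0.le hs1 m) (by positivity)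
          (by positivity)
      calc |((coeff d f : ℚ) : ℝ)| * (|((coeff m (g ^ d) : ℚ) : ℝ)| * ‖x‖ ^ m) ≤ A ^ (d + 1) * (s ^ d * (1 / 2) ^ m) :=
            mul_le_mul (hn.1 d) (h1.trans h2) (by positivity) (by positivity)
        _ = A * (A * s) ^ d * (1 / 2) ^ m := by rw [mul_pow, pow_succ]; ring
        _ = _ := by rw [hAs]
  have hsum2 : Summable fun p : ℕ × ℕ => (A * (1 / 2 : ℝ) ^ p.1) * (1 / 2) ^ p.2 :=
    Summable.mul_of_nonneg (summable_geometric_two.mul_left A) summable_geometric_two (fun d => by positivity)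
      (fun m => by positivity)
  have hsumF : Summable (Function.uncurry F) := Summable.of_norm_bounded hsum2 hFb
  have hcomm := hsumF.tsum_comm
  -- left side
  have hL : evc x (f.subst g) = ∑' m, ∑' d, F d m := by
    unfold evc
    refine tsum_congr fun m => ?_
    rw [coeff_subst_geo h0, tsum_eq_sum (s := Finset.range (m + 1)) (fun d hd => by
      rw [Finset.mem_range, not_lt] at hd
      rw [hF]
      simp only
      rw [hz d m (by omega)]
      simp)]
    rw [hF]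
    push_cast
    rw [Finset.sum_mul]
    exact Finset.sum_congr rfl fun d _ => by ring
  -- right side
  have hgs : SDc g := by
    refine Pool.Agent.Y119.HY.sdc_of ⟨K, fun m => (hg m).2.trans (pow_le_pow_right₀ hKR (Nat.le_succ m))⟩
      ⟨K, fun m => ⟨K ^ m, pow_pos (by omega) m, ?_, fun j hj => ?_⟩⟩
    · push_cast
      exact pow_le_pow_right₀ hKR (Nat.le_succ m)
    · obtain ⟨a, ha⟩ := (hg j).1
      refine ⟨(K : ℤ) ^ (m - j) * a, ?_⟩
      push_cast
      rw [← ha, ← mul_assoc, ← pow_add]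
      congr 2
      omega
  have hgc : Cvc x g := by
    refine Summable.of_nonneg_of_le (fun m => by positivity) (fun m => ?_) summable_geometric_two
    rw [norm_cast_coeff]
    calc |((coeff m g : ℚ) : ℝ)| * ‖x‖ ^ m ≤ (K : ℝ) ^ m * ‖x‖ ^ m := mul_le_mul_of_nonneg_right (hg m).2 (by positivity)
      _ = ((K : ℝ) * ‖x‖) ^ m := by rw [mul_pow]
      _ ≤ (1 / 2) ^ m := by
          refine pow_le_pow_left₀ (by positivity) ?_ m
          nlinarith [norm_nonneg x]
  rw [hL, hcomm]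
  unfold evc
  refine tsum_congr fun d => ?_
  rw [hF]
  simp only
  rw [tsum_mul_left]
  congr 1
  exact hgc.ev_pow d

end Pool.Agent.W5h27.ES
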