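import Pool.Agent.W5h27.ES.Loc
import Pool.Agent.Y319.J.Anc

/-!
# All points with `j(z) = p(x) / q(x)`, `x` small
-/

set_option autoImplicit false

open PowerSeries Filter Topology

namespace Pool.Agent.W5h27.ES

open Pool.Agent.Y113
open Pool.Agent.Y916.Al (evc Cvc)
open Pool.Agent.TH21.MS (jj jj_an)

/-- the values of the fundamental matrix and of the constants give the numbers -/
def PerE (E c : Fin 2 → Fin 2 → ℂ) (z : ℂ) : Prop :=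
  PerM (E 0 0 * c 0 0 + E 0 1 * c 1 0) (E 0 0 * c 0 1 + E 0 1 * c 1 1)
    (E 1 0 * c 0 0 + E 1 1 * c 1 0) (E 1 0 * c 0 1 + E 1 1 * c 1 1) z

/-- the property for a set of points -/
def PS (x₀ : ℚ) (Z : Fin 2 → Fin 2 → ℚ⟦X⟧) (s : Set ℂ) : Prop :=
  ∃ W : Submodule ℚ ℂ, Module.Finite ℚ W ∧ ∃ ε : ℝ, 0 < ε ∧ ∀ z ∈ s, ‖1 - x₀ * jj z‖ < ε →
    ∃ c : Fin 2 → Fin 2 → ℂ, (∀ i j, c i j ∈ W) ∧ PerE (fun i j => evc (yy x₀ z) (Z i j)) c z

theorem ps_compact {x₀ : ℚ} {Z : Fin 2 → Fin 2 → ℚ⟦X⟧} (hZ : Ctr x₀ Z) (hx₀ : x₀ ≠ 0) (hx1 : 1 - 1728 * x₀ ≠ 0)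
    {K : Set ℂ} (hK : IsCompact K) (hKi : ∀ z ∈ K, 0 < z.im) : PS x₀ Z K := by
  refine hK.induction_on (p := PS x₀ Z) ?_ ?_ ?_ ?_
  · exact ⟨⊥, inferInstance, 1, one_pos, fun z hz => absurd hz (Set.notMem_empty z)⟩
  · rintro s t hst ⟨W, hW, ε, hε, h⟩
    exact ⟨W, hW, ε, hε, fun z hz => h z (hst hz)⟩
  · rintro s t ⟨W, hW, ε, hε, h⟩ ⟨W', hW', ε', hε', h'⟩
    refine ⟨W ⊔ W', inferInstance, min ε ε', lt_min hε hε', fun z hz hj => ?_⟩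
    rw [lt_min_iff] at hj
    rcases hz with hz | hz
    · obtain ⟨c, hc, hP⟩ := h z hz hj.1
      exact ⟨c, fun i j => (le_sup_left : W ≤ W ⊔ W') (hc i j), hP⟩
    · obtain ⟨c, hc, hP⟩ := h' z hz hj.2
      exact ⟨c, fun i j => (le_sup_right : W' ≤ W ⊔ W') (hc i j), hP⟩
  · intro p hp
    have hpi := hKi p hp
    have hx0' : (x₀ : ℂ) ≠ 0 := by exact_mod_cast hx₀
    by_cases h0 : 1 - x₀ * jj p = 0
    · have hjp : 1 / jj p = (x₀ : ℂ) := by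
        have h2 : (x₀ : ℂ) * jj p = 1 := by linear_combination -h0
        have h3 : jj p ≠ 0 := by
          intro h
          rw [h, mul_zero] at h2
          exact zero_ne_one h2
        rw [div_eq_iff h3, h2]
      obtain ⟨r, hr, c, hc⟩ := locZ hZ hx₀ hx1 hpi hjp
      refine ⟨Metric.ball p r, mem_nhdsWithin_of_mem_nhds (Metric.ball_mem_nhds p hr), ?_⟩
      refine ⟨Submodule.span ℚ (Set.range fun a : Fin 2 × Fin 2 => c a.1 a.2),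
        Module.Finite.span_of_finite ℚ (Set.finite_range _), 1, one_pos, fun z hz _ =>
          ⟨c, fun i j => Submodule.subset_span ⟨(i, j), rfl⟩, (hc z hz).2⟩⟩
    · have hcont : ContinuousAt (fun z => 1 - (x₀ : ℂ) * jj z) p :=
        continuousAt_const.sub (continuousAt_const.mul (jj_an p hpi).continuousAt)
      have hpos : 0 < ‖1 - (x₀ : ℂ) * jj p‖ := norm_pos_iff.2 h0
      have hev : ∀ᶠ z in 𝓝 p, ‖1 - (x₀ : ℂ) * jj p‖ / 2 < ‖1 - (x₀ : ℂ) * jj z‖ :=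
        hcont.norm.eventually_const_lt (by linarith)
      refine ⟨{z | ‖1 - (x₀ : ℂ) * jj p‖ / 2 < ‖1 - (x₀ : ℂ) * jj z‖}, mem_nhdsWithin_of_mem_nhds hev, ?_⟩
      refine ⟨⊥, inferInstance, ‖1 - (x₀ : ℂ) * jj p‖ / 2, by positivity, fun z hz hz2 => ?_⟩
      exact absurd hz2 (not_lt.2 (le_of_lt hz))

theorem glob {x₀ : ℚ} {Z : Fin 2 → Fin 2 → ℚ⟦X⟧} (hZ : Ctr x₀ Z) (hx₀ : x₀ ≠ 0) (hx1 : 1 - 1728 * x₀ ≠ 0) :
    ∃ W : Submodule ℚ ℂ, Module.Finite ℚ W ∧ ∃ ε : ℝ, 0 < ε ∧ ∀ z : UpperHalfPlane, ‖1 - x₀ * jj z‖ < ε →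
    ∃ c : Fin 2 → Fin 2 → ℂ, (∀ i j, c i j ∈ W) ∧ PerE (fun i j => evc (yy x₀ z) (Z i j)) c z := by
  have hx0' : (0 : ℝ) < ‖(x₀ : ℂ)‖ := norm_pos_iff.2 (by exact_mod_cast hx₀)
  obtain ⟨Y, hY1, hY⟩ := Pool.Agent.Y319.J.small (ε := ‖(x₀ : ℂ)‖ / 2) (by positivity)
  have hK : IsCompact (Set.Icc (-(1 / 2) : ℝ) (1 / 2) ×ℂ Set.Icc (1 / 2 : ℝ) Y) :=
    isCompact_Icc.reProdIm isCompact_Icc
  obtain ⟨W, hW, ε, hε, h⟩ := ps_compact hZ hx₀ hx1 hK fun z hz => by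
    have h1 : (1 / 2 : ℝ) ≤ z.im := hz.2.1
    linarith
  refine ⟨W, hW, min ε (1 / 2), lt_min hε (by norm_num), fun z hz => ?_⟩
  rw [lt_min_iff] at hz
  obtain ⟨g, hg⟩ := ModularGroup.exists_smul_mem_fd z
  obtain ⟨w, hw⟩ : ∃ w : UpperHalfPlane, w = g • z := ⟨_, rfl⟩
  rw [← hw] at hg
  have hjw : jj w = jj z := by
    rw [hw]
    exact Pool.Agent.Y988.J.jj_inv g z
  have hzw : z = g⁻¹ • w := by
    rw [hw, inv_smul_smul]
  have him : 1 / 2 ≤ w.im := by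
    have h1 := ModularGroup.three_le_four_mul_im_sq_of_mem_fd hg
    have h2 := w.im_pos
    nlinarith
  have hre : |w.re| ≤ 1 / 2 := hg.2
  have himY : w.im ≤ Y := by
    by_contra hcon
    push Not at hcon
    obtain ⟨h1, h2⟩ := hY (w : ℂ) hcon.le
    rw [hjw] at h1 h2
    have h3 : ‖(x₀ : ℂ) * jj z‖ ≤ 3 / 2 := by
      have h4 : (x₀ : ℂ) * jj z = 1 - (1 - x₀ * jj z) := by ring
      rw [h4]
      refine (norm_sub_le _ _).trans ?_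
      rw [norm_one]
      linarith [hz.2]
    rw [norm_mul] at h3
    rw [norm_div, norm_one, div_lt_iff₀ (norm_pos_iff.2 h1)] at h2
    nlinarith
  have hmem : (w : ℂ) ∈ Set.Icc (-(1 / 2) : ℝ) (1 / 2) ×ℂ Set.Icc (1 / 2 : ℝ) Y :=
    ⟨⟨(abs_le.1 hre).1, (abs_le.1 hre).2⟩, ⟨him, himY⟩⟩
  obtain ⟨c, hc, hP⟩ := h w hmem (by rw [hjw]; exact hz.1)
  have hyw : yy x₀ (w : ℂ) = yy x₀ (z : ℂ) := by
    unfold yy
    rw [hjw]
  rw [hyw] at hP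
  have hM := PerM.mob hP g⁻¹
  rw [← hzw] at hM
  obtain ⟨a, ha⟩ : ∃ a : ℤ, a = g⁻¹ 0 0 := ⟨_, rfl⟩
  obtain ⟨b, hb⟩ : ∃ b : ℤ, b = g⁻¹ 0 1 := ⟨_, rfl⟩
  obtain ⟨c', hc'⟩ : ∃ c : ℤ, c = g⁻¹ 1 0 := ⟨_, rfl⟩
  obtain ⟨d, hd⟩ : ∃ d : ℤ, d = g⁻¹ 1 1 := ⟨_, rfl⟩
  rw [← ha, ← hb, ← hc', ← hd] at hM
  have hWm : ∀ (u v : ℂ) (m n : ℤ), u ∈ W → v ∈ W → u * m + v * n ∈ W := by
    intro u v m n hu hv
    refine W.add_mem ?_ ?_
    · rw [mul_comm, ← zsmul_eq_mul]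
      exact W.toAddSubgroup.zsmul_mem hu m
    · rw [mul_comm, ← zsmul_eq_mul]
      exact W.toAddSubgroup.zsmul_mem hv n
  refine ⟨fun i => ![c i 0 * d + c i 1 * c', c i 0 * b + c i 1 * a], fun i j => ?_, ?_⟩
  · fin_cases j
    · exact hWm _ _ _ _ (hc i 0) (hc i 1)
    · exact hWm _ _ _ _ (hc i 0) (hc i 1)
  · unfold PerE
    simp only [Matrix.cons_val_zero, Matrix.cons_val_one]
    convert hM using 1 <;> ring

/-- the values of the composition -/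
theorem inner {p q : Polynomial ℤ} (hp : p.coeff 0 ≠ 0) (hq : q.coeff 0 ≠ 0) {x₀ : ℚ}
    (hx₀ : x₀ = (q.coeff 0 : ℚ) / p.coeff 0) {Z : Fin 2 → Fin 2 → ℚ⟦X⟧} (hZ : Ctr x₀ Z) {Y : ℚ⟦X⟧}
    (hY : Inn p q x₀ Y) {ε : ℝ} (hε : 0 < ε) : ∃ r : ℝ, 0 < r ∧
      ∀ x : ℂ, ‖x‖ < r → Polynomial.aeval x q ≠ 0 ∧ Polynomial.aeval x p ≠ 0 ∧
        ‖1 - (x₀ : ℂ) * (Polynomial.aeval x p / Polynomial.aeval x q)‖ < ε ∧
        ∀ z : ℂ, jj z = Polynomial.aeval x p / Polynomial.aeval x q →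
          (fun i j => evc (yy x₀ z) (Z i j)) = fun i j => evc x ((Z i j).subst Y) := by
  obtain ⟨K, hK1, hK⟩ := hY.geo
  have hY0 : coeff 0 Y = 0 := by rw [coeff_zero_eq_constantCoeff_apply]; exact hY.c0
  have hYs : SDc Y := by
    have hKR : (1 : ℝ) ≤ K := by exact_mod_cast hK1
    refine Pool.Agent.Y119.HY.sdc_of ⟨K, fun m => (hK m).2.trans (pow_le_pow_right₀ hKR (Nat.le_succ m))⟩
      ⟨K, fun m => ⟨K ^ m, pow_pos (by omega) m, ?_, fun j hj => ?_⟩⟩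
    · push_cast
      exact pow_le_pow_right₀ hKR (Nat.le_succ m)
    · obtain ⟨a, ha⟩ := (hK j).1
      refine ⟨(K : ℤ) ^ (m - j) * a, ?_⟩
      push_cast
      rw [← ha, ← mul_assoc, ← pow_add]
      congr 2
      omega
  choose rc hrc hcomp using fun i j => evc_comp (hZ.sdc i j) hK1 hK hY0
  obtain ⟨r2, hr2, hcv⟩ := sdc_cvc hYs
  have hpc : ContinuousAt (fun x : ℂ => Polynomial.aeval x p) 0 := (Polynomial.continuous_aeval p).continuousAt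
  have hqc : ContinuousAt (fun x : ℂ => Polynomial.aeval x q) 0 := (Polynomial.continuous_aeval q).continuousAt
  have hp0 : Polynomial.aeval (0 : ℂ) p = ((p.coeff 0 : ℤ) : ℂ) := by
    exact (Polynomial.coeff_zero_eq_aeval_zero' (A := ℂ) p).symm
  have hq0 : Polynomial.aeval (0 : ℂ) q = ((q.coeff 0 : ℤ) : ℂ) := by
    exact (Polynomial.coeff_zero_eq_aeval_zero' (A := ℂ) q).symm
  have hpn : Polynomial.aeval (0 : ℂ) p ≠ 0 := by
    rw [hp0]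
    exact_mod_cast hp
  have hqn : Polynomial.aeval (0 : ℂ) q ≠ 0 := by
    rw [hq0]
    exact_mod_cast hq
  have hev : ∀ᶠ x : ℂ in 𝓝 0, Polynomial.aeval x q ≠ 0 ∧ Polynomial.aeval x p ≠ 0 ∧
      ‖1 - (x₀ : ℂ) * (Polynomial.aeval x p / Polynomial.aeval x q)‖ < ε ∧ ‖x‖ < r2 ∧ ∀ i j, ‖x‖ < rc i j := by
    have e1 := hqc.eventually_ne hqn
    have e2 := hpc.eventually_ne hpn
    have e3 : ContinuousAt (fun x : ℂ => ‖1 - (x₀ : ℂ) * (Polynomial.aeval x p / Polynomial.aeval x q)‖) 0 :=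
      (continuousAt_const.sub (continuousAt_const.mul (hpc.div hqc hqn))).norm
    have e4 : ∀ᶠ x : ℂ in 𝓝 0, ‖1 - (x₀ : ℂ) * (Polynomial.aeval x p / Polynomial.aeval x q)‖ < ε := by
      refine e3.eventually_lt_const ?_
      have h3 : (1 : ℂ) - x₀ * (Polynomial.aeval (0 : ℂ) p / Polynomial.aeval (0 : ℂ) q) = 0 := by
        rw [hp0, hq0, hx₀]
        push_cast
        have hp2 : ((p.coeff 0 : ℤ) : ℂ) ≠ 0 := by exact_mod_cast hp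
        have hq2 : ((q.coeff 0 : ℤ) : ℂ) ≠ 0 := by exact_mod_cast hq
        field_simp
        ring
      show ‖(1 : ℂ) - x₀ * (Polynomial.aeval (0 : ℂ) p / Polynomial.aeval (0 : ℂ) q)‖ < ε
      rw [h3, norm_zero]
      exact hε
    have e5 : ∀ ρ : ℝ, 0 < ρ → ∀ᶠ x : ℂ in 𝓝 0, ‖x‖ < ρ := fun ρ hρ => by
      have h4 : Tendsto (fun x : ℂ => ‖x‖) (𝓝 0) (𝓝 0) := by
        have := (continuous_norm (E := ℂ)).tendsto 0
        rwa [norm_zero] at this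
      exact h4.eventually_lt_const hρ
    have e6 : ∀ᶠ x : ℂ in 𝓝 0, ∀ i j, ‖x‖ < rc i j :=
      eventually_all.2 fun i => eventually_all.2 fun j => e5 _ (hrc i j)
    filter_upwards [e1, e2, e4, e5 r2 hr2, e6] with x a b c d e using ⟨a, b, c, d, e⟩
  obtain ⟨r, hr, hr'⟩ := Metric.eventually_nhds_iff.1 hev
  refine ⟨r, hr, fun x hx => ?_⟩
  obtain ⟨a1, a2, a3, a4, a5⟩ := hr' (by rwa [dist_zero_right])
  refine ⟨a1, a2, a3, fun z hz => ?_⟩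
  have hyx : yy x₀ z = evc x Y := by
    have h2 := congrArg (evc x) hY.eq
    have h3 : ∀ f : Polynomial ℤ, evc x (ps f) = Polynomial.aeval x f := fun f => by
      unfold ps
      rw [Pool.Agent.Y916.Al.ev_coe, Polynomial.aeval_def, Polynomial.eval₂_map, Polynomial.aeval_def]
      congr 1
    have hC : Cvc x (C x₀ : ℚ⟦X⟧) := by
      have := Pool.Agent.Y916.Al.Cvc.coe (x := x) (Polynomial.C x₀)
      rwa [Polynomial.coe_C] at this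
    have hcp : Cvc x (ps p) := by
      unfold ps
      exact Pool.Agent.Y916.Al.Cvc.coe _
    rw [hcp.ev_mul ((hcv x a4).add hC), (hcv x a4).ev_add hC, h3, h3, Pool.Agent.Y916.Al.ev_C] at h2
    unfold yy
    rw [hz]
    field_simp
    linear_combination -h2
  funext i j
  rw [hyx, hcomp i j x (a5 i j)]

end Pool.Agent.W5h27.ES
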