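import Pool.Agent.W5h27.ES.Rel

/-!
# Summary: the family of G-functions along `j = p / q` and the periods of all points
-/

set_option autoImplicit false

open PowerSeries Filter Topology

namespace Pool.Agent.W5h27.ES

open Pool.Agent.Y113
open Pool.Agent.Y916.Al (evc Cvc)
open Pool.Agent.TH21.MS (jj jj_an)
open Pool.Agent.Y120.A (Q4)
open Pool.Agent.Y916.Af (Vc GFs)

/-- **all points with `j(z) = p(x) / q(x)`** -/
theorem heart {p q : Polynomial ℤ} (hp : p.coeff 0 ≠ 0) (hpq : p.coeff 0 ≠ 1728 * q.coeff 0) (hq : q.coeff 0 ≠ 0)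
    (hR : Polynomial.C (q.coeff 0) * p ≠ Polynomial.C (p.coeff 0) * q) :
    ∃ ψ : Fin 2 → Fin 2 → ℚ⟦X⟧, (∃ (T : Polynomial ℤ) (A : Fin 4 → Fin 4 → Polynomial ℤ), GFs T A (hψ ψ)) ∧
      (∀ (x : ℂ) (y : Fin 4 → ℂ), y ∈ Q4 → y ∈ Vc (hψ ψ) x) ∧
      ∃ W : Submodule ℚ ℂ, Module.Finite ℚ W ∧ ∃ r : ℝ, 0 < r ∧
      ∀ x : ℂ, ‖x‖ < r → Polynomial.aeval x q ≠ 0 ∧ Polynomial.aeval x p ≠ 0 ∧
        (fun j => evc x (hψ ψ j)) ∈ Q4 ∧
        ∀ z : UpperHalfPlane, jj z = Polynomial.aeval x p / Polynomial.aeval x q →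
        ∃ c : Fin 2 → Fin 2 → ℂ, (∀ i j, c i j ∈ W) ∧ c 0 0 * c 1 1 - c 0 1 * c 1 0 = 1 ∧
          PerE (fun i j => evc x (ψ i j)) c z := by
  obtain ⟨x₀, hx₀⟩ : ∃ x₀ : ℚ, x₀ = (q.coeff 0 : ℚ) / p.coeff 0 := ⟨_, rfl⟩
  have hp' : (p.coeff 0 : ℚ) ≠ 0 := by exact_mod_cast hp
  have hq' : (q.coeff 0 : ℚ) ≠ 0 := by exact_mod_cast hq
  have h0 : x₀ ≠ 0 := by
    rw [hx₀]
    exact div_ne_zero hq' hp'
  have h1 : 1 - 1728 * x₀ ≠ 0 := by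
    intro h
    apply hpq
    have h2 : (p.coeff 0 : ℚ) = 1728 * q.coeff 0 := by
      rw [hx₀] at h
      field_simp at h
      linarith
    exact_mod_cast h2
  obtain ⟨Z, hZ⟩ := ctr_exists h0 h1
  obtain ⟨Y, hY⟩ := inn_exists (q := q) hp
  rw [← hx₀] at hY
  obtain ⟨W, hW, ε, hε, hG⟩ := glob hZ h0 h1
  have hPsi := psi_of hY hp hZ hpq hq
  obtain ⟨T, A, hGF⟩ := psi_gfs hPsi hp hpq hq
  refine ⟨_, ⟨T, A, hGF⟩, fun x y hy => rel hp hpq hq hR hx₀ hZ hY x y hy, W, hW, ?_⟩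
  obtain ⟨r₂, hr₂, hin⟩ := inner hp hq hx₀ hZ hY hε
  obtain ⟨r₃, hr₃, hcv⟩ := Pool.Agent.Y475.AF.small_cvc (hψ fun i j => (Z i j).subst Y) hGF.hsize
  -- the first value is not zero
  obtain ⟨r₄, hr₄, h4⟩ := evc_der (hPsi.sdc 0 0)
  have h5 : ContinuousAt (fun x => evc x ((Z 0 0).subst Y)) 0 := (h4 0 (by simpa using hr₄)).continuousAt
  have h6 : ∀ᶠ x : ℂ in 𝓝 0, evc x ((Z 0 0).subst Y) ≠ 0 := by
    refine h5.eventually_ne ?_
    rw [evc_zero]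
    have h7 := hPsi.c0 0 0
    simp only at h7
    rw [h7]
    simp
  obtain ⟨r₅, hr₅, h7⟩ := Metric.eventually_nhds_iff.1 h6
  refine ⟨min (min r₂ r₃) r₅, lt_min (lt_min hr₂ hr₃) hr₅, fun x hx => ?_⟩
  rw [lt_min_iff, lt_min_iff] at hx
  obtain ⟨a1, a2, a3, a4⟩ := hin x hx.1.1
  have hcx := hcv x hx.1.2
  have hdet : evc x ((Z 0 0).subst Y) * evc x ((Z 1 1).subst Y) - evc x ((Z 1 0).subst Y) * evc x ((Z 0 1).subst Y) = 1 := by
    have h8 := (Pool.Agent.Y475.AF.ev_aeval (hψ fun i j => (Z i j).subst Y) x hcx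
      (MvPolynomial.X 0 * MvPolynomial.X 3 - MvPolynomial.X 2 * MvPolynomial.X 1)).2
    rw [map_sub, map_mul, map_mul, MvPolynomial.aeval_X, MvPolynomial.aeval_X, MvPolynomial.aeval_X,
      MvPolynomial.aeval_X, MvPolynomial.eval₂_sub, MvPolynomial.eval₂_mul, MvPolynomial.eval₂_mul, MvPolynomial.eval₂_X,
      MvPolynomial.eval₂_X, MvPolynomial.eval₂_X, MvPolynomial.eval₂_X] at h8
    have h9 : hψ (fun i j => (Z i j).subst Y) 0 * hψ (fun i j => (Z i j).subst Y) 3 -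
        hψ (fun i j => (Z i j).subst Y) 2 * hψ (fun i j => (Z i j).subst Y) 1 = 1 := hPsi.det
    rw [h9, Pool.Agent.Y916.Al.ev_one] at h8
    exact h8.symm
  refine ⟨a1, a2, ⟨?_, ?_⟩, fun z hz => ?_⟩
  · exact h7 (by rw [dist_zero_right]; exact hx.2)
  · exact hdet
  · obtain ⟨c, hc, hP⟩ := hG z (by rw [hz]; exact a3)
    rw [a4 z hz] at hP
    refine ⟨c, hc, ?_, hP⟩
    have h8 := PerM.det hP
    simp only at h8
    linear_combination h8 - (c 0 0 * c 1 1 - c 0 1 * c 1 0) * hdet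

end Pool.Agent.W5h27.ES
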