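import Pool.Agent.Y949.J.RamT
import Pool.Agent.TH21.MS.JDer

/-!
# The system of differential equations of the modular invariant on the upper half-plane
-/

set_option autoImplicit false

open Filter Topology UpperHalfPlane
open scoped Derivative ModularForm Manifold

namespace Pool.Agent.W5h27.ES

open Pool.Agent.TH21.MS (E4 E6 jj E4_eq E6_eq disc_ne jj_an)

noncomputable section

/-- `2 π i` -/
def tt : ℂ := 2 * Real.pi * Complex.I

lemma tt_ne : tt ≠ 0 := by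
  unfold tt
  simp [Real.pi_ne_zero]

/-- the Eisenstein series of weight two -/
def e2 : ℂ → ℂ := EisensteinSeries.E2 ∘ ofComplex

theorem hd_of {f : ℍ → ℂ} (hf : MDiff f) (z : ℍ) :
    HasDerivAt (f ∘ ofComplex) (tt * Derivative.normalizedDerivOfComplex f z) (z : ℂ) := by
  have h0 := UpperHalfPlane.mdifferentiable_iff.1 hf
  have hopen : IsOpen {z : ℂ | 0 < z.im} := isOpen_upperHalfPlaneSet
  have hmem : (z : ℂ) ∈ {z : ℂ | 0 < z.im} := z.im_pos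
  have h1 : HasDerivAt (f ∘ ofComplex) (deriv (f ∘ ofComplex) z) (z : ℂ) :=
    (h0.differentiableAt (hopen.mem_nhds hmem)).hasDerivAt
  refine h1.congr_deriv ?_
  unfold Derivative.normalizedDerivOfComplex
  have h2 := tt_ne
  unfold tt at h2 ⊢
  field_simp

lemma ev_im {z : ℂ} (hz : 0 < z.im) : ∀ᶠ w in 𝓝 z, 0 < w.im := isOpen_upperHalfPlaneSet.mem_nhds hz

theorem dE4 {z : ℂ} (hz : 0 < z.im) : HasDerivAt E4 (tt * ((e2 z * E4 z - E6 z) / 3)) z := by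
  have h1 := hd_of (f := fun w => ModularForm.E₄ w) (ModularFormClass.holo _) ⟨z, hz⟩
  rw [(Pool.Agent.Y949.J.t_RAM46 ⟨z, hz⟩).1, ← E4_eq, ← E6_eq] at h1
  have h2 : e2 z = EisensteinSeries.E2 ⟨z, hz⟩ := by
    unfold e2
    rw [Function.comp_apply, ofComplex_apply_of_im_pos hz]
  rw [h2]
  refine (h1.congr_of_eventuallyEq ?_).congr_deriv ?_
  · filter_upwards [ev_im hz] with w hw
    rw [Function.comp_apply, ofComplex_apply_of_im_pos hw]
    exact E4_eq ⟨w, hw⟩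
  · show tt * (3⁻¹ * (EisensteinSeries.E2 ⟨z, hz⟩ * E4 z - E6 z)) = _
    ring

theorem dE6 {z : ℂ} (hz : 0 < z.im) : HasDerivAt E6 (tt * ((e2 z * E6 z - E4 z ^ 2) / 2)) z := by
  have h1 := hd_of (f := fun w => ModularForm.E₆ w) (ModularFormClass.holo _) ⟨z, hz⟩
  rw [(Pool.Agent.Y949.J.t_RAM46 ⟨z, hz⟩).2, ← E4_eq, ← E6_eq] at h1
  have h2 : e2 z = EisensteinSeries.E2 ⟨z, hz⟩ := by
    unfold e2
    rw [Function.comp_apply, ofComplex_apply_of_im_pos hz]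
  rw [h2]
  refine (h1.congr_of_eventuallyEq ?_).congr_deriv ?_
  · filter_upwards [ev_im hz] with w hw
    rw [Function.comp_apply, ofComplex_apply_of_im_pos hw]
    exact E6_eq ⟨w, hw⟩
  · show tt * (2⁻¹ * (EisensteinSeries.E2 ⟨z, hz⟩ * E6 z - E4 z ^ 2)) = _
    ring

theorem de2 {z : ℂ} (hz : 0 < z.im) : HasDerivAt e2 (tt * ((e2 z ^ 2 - E4 z) / 12)) z := by
  have h1 := hd_of (f := EisensteinSeries.E2) E2_mdifferentiable ⟨z, hz⟩
  rw [Pool.Agent.Y949.J.t_RAM2 ⟨z, hz⟩, ← E4_eq] at h1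
  have h2 : e2 z = EisensteinSeries.E2 ⟨z, hz⟩ := by
    unfold e2
    rw [Function.comp_apply, ofComplex_apply_of_im_pos hz]
  rw [h2]
  refine h1.congr_deriv ?_
  show tt * (12⁻¹ * (EisensteinSeries.E2 ⟨z, hz⟩ ^ 2 - E4 z)) = _
  ring

lemma dsc {z : ℂ} (hz : 0 < z.im) : E4 z ^ 3 - E6 z ^ 2 ≠ 0 := disc_ne ⟨z, hz⟩

lemma jj_eq (z : ℂ) : jj z = 1728 * E4 z ^ 3 / (E4 z ^ 3 - E6 z ^ 2) := rfl

lemma e4_ne {z : ℂ} (h : jj z ≠ 0) : E4 z ≠ 0 := by
  intro h0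
  apply h
  rw [jj_eq, h0]
  simp

lemma jj_sub {z : ℂ} (hz : 0 < z.im) : jj z - 1728 = 1728 * E6 z ^ 2 / (E4 z ^ 3 - E6 z ^ 2) := by
  have h1 := dsc hz
  rw [jj_eq]
  field_simp
  ring

lemma e6_ne {z : ℂ} (hz : 0 < z.im) (h : jj z ≠ 1728) : E6 z ≠ 0 := by
  intro h0
  apply h
  have h1 := jj_sub hz
  rw [h0] at h1
  simp at h1
  exact sub_eq_zero.1 h1

/-- `-j' / j` -/
def ff (z : ℂ) : ℂ := tt * E6 z / E4 z

/-- its derivative -/
def f1 (z : ℂ) : ℂ := tt ^ 2 * (e2 z * E4 z * E6 z / 6 - E4 z ^ 3 / 2 + E6 z ^ 2 / 3) / E4 z ^ 2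

/-- its second derivative -/
def f2 (z : ℂ) : ℂ := tt ^ 3 * (((e2 z ^ 2 - E4 z) / 12 * E4 z * E6 z / 6 + e2 z * ((e2 z * E4 z - E6 z) / 3) * E6 z / 6 +
  e2 z * E4 z * ((e2 z * E6 z - E4 z ^ 2) / 2) / 6 - 3 * E4 z ^ 2 * ((e2 z * E4 z - E6 z) / 3) / 2 +
  2 * E6 z * ((e2 z * E6 z - E4 z ^ 2) / 2) / 3) * E4 z - 2 * (e2 z * E4 z * E6 z / 6 - E4 z ^ 3 / 2 + E6 z ^ 2 / 3) *
  ((e2 z * E4 z - E6 z) / 3)) / E4 z ^ 3

/-- the coefficient of the equation -/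
def Qj (j : ℂ) : ℂ := (82944 - 372 * j) / (j - 1728) ^ 2

theorem dj {z : ℂ} (hz : 0 < z.im) (h0 : E4 z ≠ 0) : HasDerivAt jj (-(jj z * ff z)) z := by
  have h1 := dsc hz
  have hA := dE4 hz
  have hB := dE6 hz
  have h2 : HasDerivAt jj _ z := ((hA.pow 3).const_mul 1728).div ((hA.pow 3).sub (hB.pow 2)) h1
  refine h2.congr_deriv ?_
  rw [jj_eq]
  unfold ff
  simp only [Pi.pow_apply, Pi.sub_apply]
  field_simp
  ring

theorem dff {z : ℂ} (hz : 0 < z.im) (h0 : E4 z ≠ 0) : HasDerivAt ff (f1 z) z := by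
  have hA := dE4 hz
  have hB := dE6 hz
  have h2 : HasDerivAt ff _ z := (hB.const_mul tt).div hA h0
  refine h2.congr_deriv ?_
  unfold f1
  field_simp
  ring

theorem df1 {z : ℂ} (hz : 0 < z.im) (h0 : E4 z ≠ 0) : HasDerivAt f1 (f2 z) z := by
  have hA := dE4 hz
  have hB := dE6 hz
  have hC := de2 hz
  have h3 : HasDerivAt f1 _ z := (((((hC.mul hA).mul hB).div_const 6).sub ((hA.pow 3).div_const 2)).add
    ((hB.pow 2).div_const 3) |>.const_mul (tt ^ 2)).div (hA.pow 2) (pow_ne_zero 2 h0)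
  refine h3.congr_deriv ?_
  unfold f2
  simp only [Pi.pow_apply, Pi.sub_apply, Pi.mul_apply, Pi.add_apply]
  field_simp
  ring

/-- the third order equation -/
theorem schw {z : ℂ} (hz : 0 < z.im) (h0 : E4 z ≠ 0) (h6 : E6 z ≠ 0) :
    2 * ff z * f2 z - 3 * f1 z ^ 2 = 4 * ff z ^ 4 * Qj (jj z) := by
  have h1 := dsc hz
  unfold Qj
  rw [jj_sub hz, jj_eq]
  unfold ff f1 f2
  field_simp
  ring

/-- the local period matrix -/
theorem locM {p : ℂ} (hp : 0 < p.im) (h0 : jj p ≠ 0) (h1 : jj p ≠ 1728) : ∃ r : ℝ, 0 < r ∧ ∃ φ θ : ℂ → ℂ,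
    ∀ z ∈ Metric.ball p r, 0 < z.im ∧ φ z ≠ 0 ∧ jj z ≠ 0 ∧ jj z ≠ 1728 ∧
      HasDerivAt jj (-(jj z * φ z ^ 2)) z ∧
      deriv (deriv jj) z = jj z * (φ z ^ 4 - 2 * (φ z ^ 3 * θ z)) ∧
      HasDerivAt φ (φ z ^ 2 * θ z) z ∧ HasDerivAt θ (φ z ^ 2 * (Qj (jj z) * φ z)) z := by
  have hE4 := e4_ne h0
  have hE6 := e6_ne hp h1
  have hfp : ff p ≠ 0 := div_ne_zero (mul_ne_zero tt_ne hE6) hE4
  have hcj : ContinuousAt jj p := (jj_an p hp).continuousAt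
  have hcf : ContinuousAt (fun z => ff z / ff p) p := (dff hp hE4).continuousAt.div_const _
  have hev : ∀ᶠ z in 𝓝 p, 0 < z.im ∧ jj z ≠ 0 ∧ jj z ≠ 1728 ∧ ff z / ff p ∈ Complex.slitPlane := by
    have e1 := ev_im hp
    have e2 := hcj.eventually_ne h0
    have e3 := hcj.eventually_ne h1
    have e4 : ∀ᶠ z in 𝓝 p, ff z / ff p ∈ Complex.slitPlane := by
      refine hcf.eventually_mem (Complex.isOpen_slitPlane.mem_nhds ?_)
      rw [div_self hfp]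
      exact Complex.one_mem_slitPlane
    filter_upwards [e1, e2, e3, e4] with z a b c d using ⟨a, b, c, d⟩
  obtain ⟨r, hr, hr'⟩ := Metric.eventually_nhds_iff.1 hev
  obtain ⟨c, hc⟩ := IsAlgClosed.exists_pow_nat_eq (ff p) (show 0 < 2 by norm_num)
  obtain ⟨φ, hφ⟩ : ∃ φ : ℂ → ℂ, φ = fun z => c * Complex.exp (Complex.log (ff z / ff p) / 2) := ⟨_, rfl⟩
  obtain ⟨θ, hθ⟩ : ∃ θ : ℂ → ℂ, θ = fun z => f1 z / (2 * φ z ^ 3) := ⟨_, rfl⟩
  have hc0 : c ≠ 0 := by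
    intro h
    rw [h] at hc
    apply hfp
    rw [← hc]
    norm_num
  refine ⟨r, hr, φ, θ, fun z hz => ?_⟩
  obtain ⟨b1, b2, b3, b4⟩ := hr' (Metric.mem_ball.1 hz)
  have hsq : ∀ w, ff w / ff p ∈ Complex.slitPlane → φ w ^ 2 = ff w := by
    intro w hw
    rw [hφ]
    simp only
    rw [mul_pow, ← Complex.exp_nat_mul, hc]
    have h2 : ((2 : ℕ) : ℂ) * (Complex.log (ff w / ff p) / 2) = Complex.log (ff w / ff p) := by
      push_cast
      ring
    rw [h2, Complex.exp_log (Complex.slitPlane_ne_zero hw), mul_div_cancel₀ _ hfp]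
  have hφ0 : φ z ≠ 0 := by
    rw [hφ]
    exact mul_ne_zero hc0 (Complex.exp_ne_zero _)
  have hz4 := e4_ne b2
  have hz6 := e6_ne b1 b3
  have hfz : ff z ≠ 0 := div_ne_zero (mul_ne_zero tt_ne hz6) hz4
  have hdφ : HasDerivAt φ (φ z ^ 2 * θ z) z := by
    have h2 := (((dff b1 hz4).div_const (ff p)).clog b4).div_const 2
    have h3 := (h2.cexp).const_mul c
    rw [hφ]
    refine h3.congr_deriv ?_
    have h4 : c * (Complex.exp (Complex.log (ff z / ff p) / 2) * (f1 z / ff p / (ff z / ff p) / 2)) =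
        φ z * (f1 z / ff p / (ff z / ff p) / 2) := by
      rw [hφ]
      ring
    rw [h4]
    have h5 : (fun z => c * Complex.exp (Complex.log (ff z / ff p) / 2)) = φ := hφ.symm
    rw [h5, hθ]
    simp only
    have h6 := hsq z b4
    rw [← h6]
    field_simp
  have hdj : HasDerivAt jj (-(jj z * φ z ^ 2)) z := by
    rw [hsq z b4]
    exact dj b1 hz4
  refine ⟨b1, hφ0, b2, b3, hdj, ?_, hdφ, ?_⟩
  · have h2 : deriv jj =ᶠ[𝓝 z] fun w => -(jj w * ff w) := by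
      have h3 : Metric.ball p r ∈ 𝓝 z := Metric.isOpen_ball.mem_nhds hz
      filter_upwards [h3] with w hw
      obtain ⟨c1, c2, c3, c4⟩ := hr' (Metric.mem_ball.1 hw)
      exact (dj c1 (e4_ne c2)).deriv
    rw [h2.deriv_eq]
    have h3 : HasDerivAt (fun w => -(jj w * ff w)) _ z := ((dj b1 hz4).mul (dff b1 hz4)).neg
    rw [h3.deriv, hθ]
    simp only
    rw [← hsq z b4]
    field_simp
    ring
  · have h2 := (df1 b1 hz4).div ((hdφ.pow 3).const_mul 2) (mul_ne_zero two_ne_zero (pow_ne_zero 3 hφ0))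
    have h5 : HasDerivAt (fun z => f1 z / (2 * φ z ^ 3)) _ z := h2
    rw [← hθ] at h5
    refine h5.congr_deriv ?_
    have h3 := schw b1 hz4 hz6
    rw [← hsq z b4] at h3
    rw [hθ]
    simp only
    have h4 : Qj (jj z) = (2 * φ z ^ 2 * f2 z - 3 * f1 z ^ 2) / (4 * (φ z ^ 2) ^ 4) := by
      rw [h3]
      field_simp
    rw [h4]
    simp only [Pi.pow_apply]
    field_simp
    ring

end

end Pool.Agent.W5h27.ES
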