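import Pool.Agent.W5h27.ES.Cen
import Pool.Agent.Y120.A.Gf

/-!
# The fundamental matrix of the equation of the modular invariant along `j = p / q`
-/

set_option autoImplicit false

open PowerSeries Finset

namespace Pool.Agent.W5h27.ES

open Pool.Agent.Y113 Pool.Agent.Y113.HGG Pool.Agent.Y120.J
open Pool.Agent.Y119.HY (GP)
open Pool.Agent.Y119.HZ (ix)
open Pool.Agent.Y916.Af (GFs)

/-- the system of `j` -/
noncomputable def AJ : Fin 2 → Fin 2 → Polynomial ℤ := ![![0, T1], ![Q1, 0]]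

lemma ps_zero : ps (0 : Polynomial ℤ) = 0 := by
  unfold ps
  simp

theorem gal_J : ∃ q : ℕ, ∀ i j, GP q fun s => ah (Polynomial.X * T1) (fun a b => AJ b a) s i j := by
  obtain ⟨h1, h2, h3⟩ := hode
  obtain ⟨hF, hG⟩ := hsd
  have hF1 : SDc F1 := SDc.X.mul hF.deriv
  have hG1 : SDc G1 := (SDc.X.mul hG.deriv).add hF
  set H : Matrix (Fin 2) (Fin 2) ℚ⟦X⟧ := !![FF, GG; F1, G1] with hH
  set W : Matrix (Fin 2) (Fin 2) ℚ⟦X⟧ := !![G1, -GG; -F1, FF] with hW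
  obtain ⟨q, B, hB, hbd⟩ := Pool.Agent.Y119.HZ.bd_exists (fun o : Option (Fin 2 × Fin 2) =>
    o.elim (Polynomial.X * T1) fun p => AJ p.1 p.2)
  refine ⟨q, fun i j => Pool.Agent.Y119.HZ.ah_GP (N := !![0, 1; 0, 0]) (H := H) (W := W) ?_ ?_ ?_ ?_ ?_ hB (hbd none)
    (fun i j => hbd (some (i, j))) i j⟩
  · rw [pow_two]
    ext i j
    fin_cases i <;> fin_cases j <;> simp [Matrix.mul_apply, Fin.sum_univ_two]
  · rw [hH, hW, Matrix.mul_fin_two]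
    refine Matrix.ext fun i j => ?_
    fin_cases i <;> fin_cases j
    · show FF * G1 + GG * -F1 = 1
      linear_combination h3
    · show FF * -GG + GG * FF = 0
      ring
    · show F1 * G1 + G1 * -F1 = 0
      ring
    · show F1 * -GG + G1 * FF = 1
      linear_combination h3
  · intro i j
    fin_cases i <;> fin_cases j
    · show ps T1 * (X * d⁄dX ℚ FF + ∑ k, H 0 k * C ((!![0, 1; 0, 0] : Matrix (Fin 2) (Fin 2) ℚ) k 0)) =
        ∑ k, ps (AJ 0 k) * H k 0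
      rw [Fin.sum_univ_two, Fin.sum_univ_two]
      show ps T1 * (X * d⁄dX ℚ FF + (FF * C (0 : ℚ) + GG * C (0 : ℚ))) = ps 0 * FF + ps T1 * F1
      rw [ps_zero, map_zero]
      unfold F1
      ring
    · show ps T1 * (X * d⁄dX ℚ GG + ∑ k, H 0 k * C ((!![0, 1; 0, 0] : Matrix (Fin 2) (Fin 2) ℚ) k 1)) =
        ∑ k, ps (AJ 0 k) * H k 1
      rw [Fin.sum_univ_two, Fin.sum_univ_two]
      show ps T1 * (X * d⁄dX ℚ GG + (FF * C (1 : ℚ) + GG * C (0 : ℚ))) = ps 0 * GG + ps T1 * G1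
      rw [ps_zero, map_zero, map_one]
      unfold G1
      ring
    · show ps T1 * (X * d⁄dX ℚ F1 + ∑ k, H 1 k * C ((!![0, 1; 0, 0] : Matrix (Fin 2) (Fin 2) ℚ) k 0)) =
        ∑ k, ps (AJ 1 k) * H k 0
      rw [Fin.sum_univ_two, Fin.sum_univ_two]
      show ps T1 * (X * d⁄dX ℚ F1 + (F1 * C (0 : ℚ) + G1 * C (0 : ℚ))) = ps Q1 * FF + ps 0 * F1
      rw [ps_zero, map_zero, ← h1]
      ring
    · show ps T1 * (X * d⁄dX ℚ G1 + ∑ k, H 1 k * C ((!![0, 1; 0, 0] : Matrix (Fin 2) (Fin 2) ℚ) k 1)) =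
        ∑ k, ps (AJ 1 k) * H k 1
      rw [Fin.sum_univ_two, Fin.sum_univ_two]
      show ps T1 * (X * d⁄dX ℚ G1 + (F1 * C (1 : ℚ) + G1 * C (0 : ℚ))) = ps Q1 * GG + ps 0 * G1
      rw [ps_zero, map_zero, map_one, ← h2]
      ring
  · intro i j
    fin_cases i <;> fin_cases j
    · exact hF
    · exact hG
    · exact hF1
    · exact hG1
  · intro i j
    fin_cases i <;> fin_cases j
    · exact hG1
    · exact SDc_neg hG
    · exact SDc_neg hF1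
    · exact hF

/-- the fundamental matrix of the system of `j` at `1 / j = x₀`; the rows are the function and `X d / dX` of it -/
structure Ctr (x₀ : ℚ) (Z : Fin 2 → Fin 2 → ℚ⟦X⟧) : Prop where
  c0 : ∀ i j, constantCoeff (Z i j) = if i = j then 1 else 0
  sdc : ∀ i j, SDc (Z i j)
  e0 : ∀ j, (X + C x₀) * d⁄dX ℚ (Z 0 j) = Z 1 j
  e1 : ∀ j, (1 - 1728 * (X + C x₀)) ^ 2 * d⁄dX ℚ (Z 1 j) = (82944 * (X + C x₀) - 372) * Z 0 j

lemma tay_X (x₀ : ℚ) : tay x₀ Polynomial.X = X + C x₀ := by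
  rw [tay_apply, Polynomial.X_comp, Polynomial.coe_add, Polynomial.coe_X, Polynomial.coe_C]

theorem ctr_exists {x₀ : ℚ} (h0 : x₀ ≠ 0) (h1 : 1 - 1728 * x₀ ≠ 0) : ∃ Z, Ctr x₀ Z := by
  have hTe : (tq (Polynomial.X * T1)).eval x₀ = x₀ * (1 - 1728 * x₀) ^ 2 := by
    unfold tq T1
    simp
  have hT : (tq (Polynomial.X * T1)).eval x₀ ≠ 0 := by
    rw [hTe]
    exact mul_ne_zero h0 (pow_ne_zero 2 h1)
  obtain ⟨Z, hZ0, hZ⟩ := fund (A := AJ) x₀ hT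
  obtain ⟨q, hq⟩ := gal_J
  have e1 : tay x₀ (tq T1) = (1 - 1728 * (X + C x₀)) ^ 2 := by
    unfold tq T1
    rw [Polynomial.map_pow, Polynomial.map_sub, Polynomial.map_mul, Polynomial.map_one, Polynomial.map_X, map_pow,
      map_sub, map_mul, map_one, tay_X]
    simp only [Polynomial.map_ofNat, map_ofNat]
  have e2 : tay x₀ (tq (Polynomial.X * T1)) = (X + C x₀) * (1 - 1728 * (X + C x₀)) ^ 2 := by
    rw [← e1, ← tay_X, ← map_mul]
    unfold tq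
    rw [Polynomial.map_mul, Polynomial.map_X]
  have e3 : tay x₀ (tq Q1) = (X + C x₀) * (82944 * (X + C x₀) - 372) := by
    unfold tq Q1
    rw [Polynomial.map_mul, Polynomial.map_sub, Polynomial.map_mul, Polynomial.map_X, map_mul,
      map_sub, map_mul, tay_X]
    simp only [Polynomial.map_ofNat, map_ofNat]
  have e4 : tay x₀ (tq (0 : Polynomial ℤ)) = 0 := by
    unfold tq
    rw [Polynomial.map_zero, map_zero]
  have n1 : (X + C x₀ : ℚ⟦X⟧) ≠ 0 := by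
    intro h
    have h2 := congrArg (constantCoeff (R := ℚ)) h
    simp at h2
    exact h0 h2
  have n2 : (1 - 1728 * (X + C x₀) : ℚ⟦X⟧) ^ 2 ≠ 0 := by
    refine pow_ne_zero 2 fun h => ?_
    have h2 := congrArg (constantCoeff (R := ℚ)) h
    rw [map_sub, map_mul, map_add, map_one, constantCoeff_X, constantCoeff_C, zero_add, map_zero] at h2
    have h3 : (constantCoeff (R := ℚ)) (1728 : ℚ⟦X⟧) = 1728 := map_ofNat _ 1728
    rw [h3] at h2
    exact h1 h2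
  refine ⟨Z, hZ0, fun i j => fund_sdc hT hq hZ0 hZ i j, fun j => ?_, fun j => ?_⟩
  · have h2 := hZ 0 j
    rw [Fin.sum_univ_two] at h2
    change tay x₀ (tq (Polynomial.X * T1)) * d⁄dX ℚ (Z 0 j) = tay x₀ (tq 0) * Z 0 j + tay x₀ (tq T1) * Z 1 j at h2
    rw [e4, e2, e1] at h2
    exact mul_left_cancel₀ n2 (by linear_combination h2)
  · have h2 := hZ 1 j
    rw [Fin.sum_univ_two] at h2
    change tay x₀ (tq (Polynomial.X * T1)) * d⁄dX ℚ (Z 1 j) = tay x₀ (tq Q1) * Z 0 j + tay x₀ (tq 0) * Z 1 j at h2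
    rw [e4, e2, e3] at h2
    exact mul_left_cancel₀ n1 (by linear_combination h2)

/-- the composition -/
structure Psi (p q : Polynomial ℤ) (ψ : Fin 2 → Fin 2 → ℚ⟦X⟧) : Prop where
  c0 : ∀ i j, constantCoeff (ψ i j) = if i = j then 1 else 0
  sdc : ∀ i j, SDc (ψ i j)
  e0 : ∀ j, ps p * ps q * d⁄dX ℚ (ψ 0 j) = (d⁄dX ℚ (ps q) * ps p - ps q * d⁄dX ℚ (ps p)) * ψ 1 j
  e1 : ∀ j, (ps p - 1728 * ps q) ^ 2 * ps p * d⁄dX ℚ (ψ 1 j) = (d⁄dX ℚ (ps q) * ps p - ps q * d⁄dX ℚ (ps p)) *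
    ((82944 * ps q - 372 * ps p) * ψ 0 j)
  det : ψ 0 0 * ψ 1 1 - ψ 1 0 * ψ 0 1 = 1

/-- the inner function `1 / j - x₀` -/
structure Inn (p q : Polynomial ℤ) (x₀ : ℚ) (Y : ℚ⟦X⟧) : Prop where
  c0 : constantCoeff Y = 0
  eq : ps p * (Y + C x₀) = ps q
  geo : ∃ K : ℕ, 1 ≤ K ∧ Geo K Y

lemma ps_const (p : Polynomial ℤ) : constantCoeff (ps p) = (p.coeff 0 : ℚ) := by
  rw [← coeff_zero_eq_constantCoeff_apply, coeff_ps]

theorem inn_exists {p q : Polynomial ℤ} (hp : p.coeff 0 ≠ 0) :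
    ∃ Y, Inn p q ((q.coeff 0 : ℚ) / p.coeff 0) Y := by
  have hp' : (p.coeff 0 : ℚ) ≠ 0 := by exact_mod_cast hp
  have hp0 : constantCoeff (ps p) ≠ 0 := by rwa [ps_const]
  obtain ⟨Y, hY⟩ : ∃ Y : ℚ⟦X⟧, Y = (ps p)⁻¹ * ps q - C ((q.coeff 0 : ℚ) / p.coeff 0) := ⟨_, rfl⟩
  have h1 : ps p * (Y + C ((q.coeff 0 : ℚ) / p.coeff 0)) = ps q := by
    rw [hY, sub_add_cancel, ← mul_assoc, PowerSeries.mul_inv_cancel _ hp0, one_mul]
  have h0 : constantCoeff Y = 0 := by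
    have h2 := congrArg (constantCoeff (R := ℚ)) h1
    rw [map_mul, map_add, ps_const, ps_const, constantCoeff_C, mul_add, mul_div_cancel₀ _ hp'] at h2
    have h3 : (p.coeff 0 : ℚ) * constantCoeff Y = 0 := by linarith
    exact (mul_eq_zero.1 h3).resolve_left hp'
  exact ⟨Y, h0, h1, geo_rat q p hp Y (by rw [coeff_zero_eq_constantCoeff_apply]; exact h0) h1⟩

theorem psi_of {p q : Polynomial ℤ} {x₀ : ℚ} {Y : ℚ⟦X⟧} (hY : Inn p q x₀ Y) (hp : p.coeff 0 ≠ 0)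
    {Z : Fin 2 → Fin 2 → ℚ⟦X⟧} (hZ : Ctr x₀ Z)
    (hpq : p.coeff 0 ≠ 1728 * q.coeff 0) (hq : q.coeff 0 ≠ 0) : Psi p q fun i j => (Z i j).subst Y := by
  have hs : HasSubst Y := HasSubst.of_constantCoeff_zero' hY.c0
  have hp' : (p.coeff 0 : ℚ) ≠ 0 := by exact_mod_cast hp
  have hP0 : ps p ≠ 0 := by
    intro h
    have h2 := congrArg (constantCoeff (R := ℚ)) h
    rw [ps_const, map_zero] at h2
    exact hp' h2
  obtain ⟨K, hK1, hK⟩ := hY.geo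
  have hY0 : coeff 0 Y = 0 := by rw [coeff_zero_eq_constantCoeff_apply]; exact hY.c0
  have hsdc : ∀ i j, SDc ((Z i j).subst Y) := fun i j => sdc_comp (hZ.sdc i j) hK1 hK hY0
  have hc0 : ∀ i j, constantCoeff ((Z i j).subst Y) = if i = j then (1 : ℚ) else 0 := by
    intro i j
    rw [← coeff_zero_eq_constantCoeff_apply, coeff_subst_geo hY0]
    simp only [zero_add, Finset.sum_range_one, pow_zero]
    rw [coeff_zero_eq_constantCoeff_apply, coeff_zero_eq_constantCoeff_apply, map_one, mul_one]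
    exact hZ.c0 i j
  -- the inner derivative
  have hin : ps p ^ 2 * d⁄dX ℚ Y = d⁄dX ℚ (ps q) * ps p - ps q * d⁄dX ℚ (ps p) := by
    have h1 := congrArg (fun f => d⁄dX ℚ f) hY.eq
    simp only [Derivation.leibniz, smul_eq_mul, map_add] at h1
    have h2 : d⁄dX ℚ (C x₀ : ℚ⟦X⟧) = 0 := PowerSeries.derivative_C
    rw [h2, add_zero] at h1
    linear_combination ps p * h1 - d⁄dX ℚ (ps p) * hY.eq
  have hsX : (X : ℚ⟦X⟧).subst Y = Y := subst_X hs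
  have hsC : ∀ c : ℚ, (C c : ℚ⟦X⟧).subst Y = C c := by
    intro c
    have h5 : (C c : ℚ⟦X⟧) = algebraMap ℚ ℚ⟦X⟧ c := rfl
    rw [h5, ← coe_substAlgHom hs, AlgHom.commutes]
  have hder : ∀ f : ℚ⟦X⟧, d⁄dX ℚ (f.subst Y) = (d⁄dX ℚ f).subst Y * d⁄dX ℚ Y := fun f => by
    rw [PowerSeries.derivative_subst hs]
  have he0 : ∀ j, (Y + C x₀) * (d⁄dX ℚ (Z 0 j)).subst Y = (Z 1 j).subst Y := by
    intro j
    rw [← hZ.e0 j, subst_mul hs, subst_add hs, hsX, hsC]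
  have hn : ∀ n : ℕ, (C (n : ℚ) : ℚ⟦X⟧) = (n : ℚ⟦X⟧) := fun n => map_natCast _ n
  have he1 : ∀ j, (1 - 1728 * (Y + C x₀)) ^ 2 * (d⁄dX ℚ (Z 1 j)).subst Y =
      (82944 * (Y + C x₀) - 372) * (Z 0 j).subst Y := by
    intro j
    have h1 := congrArg (fun f : ℚ⟦X⟧ => f.subst Y) (hZ.e1 j)
    have c1 : ((1728 : ℚ⟦X⟧)) = C (1728 : ℚ) := by rw [map_ofNat]
    have c2 : ((82944 : ℚ⟦X⟧)) = C (82944 : ℚ) := by rw [map_ofNat]
    have c3 : ((372 : ℚ⟦X⟧)) = C (372 : ℚ) := by rw [map_ofNat]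
    have c4 : ((1 : ℚ⟦X⟧)) = C (1 : ℚ) := by rw [map_one]
    rw [c1, c2, c3, c4] at h1 ⊢
    rw [← coe_substAlgHom hs] at h1 hsX hsC ⊢
    simp only [map_mul, map_sub, map_add, map_pow] at h1
    rw [hsX] at h1
    simp only [hsC] at h1
    exact h1
  have hψ0 : ∀ j, ps p * ps q * d⁄dX ℚ ((Z 0 j).subst Y) = (d⁄dX ℚ (ps q) * ps p - ps q * d⁄dX ℚ (ps p)) *
      (Z 1 j).subst Y := by
    intro j
    rw [hder, ← hin, ← he0 j]
    linear_combination (-(ps p * d⁄dX ℚ Y * (d⁄dX ℚ (Z 0 j)).subst Y)) * hY.eq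
  have hψ1 : ∀ j, (ps p - 1728 * ps q) ^ 2 * ps p * d⁄dX ℚ ((Z 1 j).subst Y) =
      (d⁄dX ℚ (ps q) * ps p - ps q * d⁄dX ℚ (ps p)) * ((82944 * ps q - 372 * ps p) * (Z 0 j).subst Y) := by
    intro j
    rw [hder, ← hin, ← hY.eq]
    linear_combination (ps p ^ 3 * d⁄dX ℚ Y) * he1 j
  refine ⟨hc0, hsdc, hψ0, hψ1, ?_⟩
  -- the determinant
  obtain ⟨D, hD⟩ : ∃ D : ℚ⟦X⟧, D = (Z 0 0).subst Y * (Z 1 1).subst Y - (Z 1 0).subst Y * (Z 0 1).subst Y := ⟨_, rfl⟩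
  have hQ0 : ps q ≠ 0 := by
    intro h
    have h2 := congrArg (constantCoeff (R := ℚ)) h
    rw [ps_const, map_zero] at h2
    exact hq (by exact_mod_cast h2)
  have hPQ : ps p - 1728 * ps q ≠ 0 := by
    intro h
    have h2 := congrArg (constantCoeff (R := ℚ)) h
    have h3 : (constantCoeff (R := ℚ)) (1728 : ℚ⟦X⟧) = 1728 := map_ofNat _ 1728
    rw [map_sub, map_mul, ps_const, ps_const, map_zero, h3, sub_eq_zero] at h2
    exact hpq (by exact_mod_cast h2)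
  have hDd : d⁄dX ℚ D = 0 := by
    have h1 : (ps p * ps q * (ps p - 1728 * ps q) ^ 2 * ps p) * d⁄dX ℚ D = 0 := by
      rw [hD, map_sub, (d⁄dX ℚ).leibniz, (d⁄dX ℚ).leibniz]
      simp only [smul_eq_mul]
      linear_combination ((ps p - 1728 * ps q) ^ 2 * ps p * (Z 1 1).subst Y) * hψ0 0 +
        (ps p * ps q * (Z 0 0).subst Y) * hψ1 1 - ((ps p - 1728 * ps q) ^ 2 * ps p * (Z 1 0).subst Y) * hψ0 1 -
        (ps p * ps q * (Z 0 1).subst Y) * hψ1 0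
    exact (mul_eq_zero.1 h1).resolve_left (mul_ne_zero (mul_ne_zero (mul_ne_zero hP0 hQ0) (pow_ne_zero 2 hPQ)) hP0)
  show (Z 0 0).subst Y * (Z 1 1).subst Y - (Z 1 0).subst Y * (Z 0 1).subst Y = 1
  rw [← hD]
  have hD0 : constantCoeff D = 1 := by
    rw [hD, map_sub, map_mul, map_mul, hc0, hc0, hc0, hc0]
    simp
  ext m
  rcases m with _ | m
  · rw [coeff_zero_eq_constantCoeff_apply, hD0]
    simp
  · have h2 := congrArg (coeff m) hDd
    rw [PowerSeries.coeff_derivative, map_zero] at h2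
    have h3 : ((m : ℚ) + 1) ≠ 0 := by positivity
    rw [(mul_eq_zero.1 h2).resolve_right h3, coeff_one, if_neg (Nat.succ_ne_zero m)]

/-- the four functions -/
noncomputable def hψ (ψ : Fin 2 → Fin 2 → ℚ⟦X⟧) : Fin 4 → ℚ⟦X⟧ := ![ψ 0 0, ψ 0 1, ψ 1 0, ψ 1 1]

theorem psi_gfs {p q : Polynomial ℤ} {ψ : Fin 2 → Fin 2 → ℚ⟦X⟧} (h : Psi p q ψ) (hp : p.coeff 0 ≠ 0)
    (hpq : p.coeff 0 ≠ 1728 * q.coeff 0) (hq : q.coeff 0 ≠ 0) :
    ∃ (T : Polynomial ℤ) (A : Fin 4 → Fin 4 → Polynomial ℤ), GFs T A (hψ ψ) := by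
  obtain ⟨T₁, hT₁⟩ : ∃ T₁ : Polynomial ℤ, T₁ = p * q * (p - 1728 * q) ^ 2 := ⟨_, rfl⟩
  obtain ⟨D, hD⟩ : ∃ D : Polynomial ℤ, D = Polynomial.derivative q * p - q * Polynomial.derivative p := ⟨_, rfl⟩
  obtain ⟨a, ha⟩ : ∃ a : Polynomial ℤ, a = Polynomial.X * (D * (p - 1728 * q) ^ 2) := ⟨_, rfl⟩
  obtain ⟨b, hb⟩ : ∃ b : Polynomial ℤ, b = Polynomial.X * (D * (q * (82944 * q - 372 * p))) := ⟨_, rfl⟩
  have hpsr : ∀ f g : Polynomial ℤ, ps (f * g) = ps f * ps g ∧ ps (f - g) = ps f - ps g := fun f g => by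
    constructor <;> (unfold ps; simp)
  have hpsn : ∀ n : ℕ, ps (n : Polynomial ℤ) = (n : ℚ⟦X⟧) := fun n => by
    unfold ps
    rw [Polynomial.map_natCast]
    exact map_natCast (Polynomial.coeToPowerSeries.ringHom (R := ℚ)) n
  have hpX : ps (Polynomial.X : Polynomial ℤ) = X := by
    unfold ps
    simp
  have hps2 : ∀ f : Polynomial ℤ, ps (f ^ 2) = ps f ^ 2 := fun f => by
    unfold ps
    simp
  have hpd : ∀ f : Polynomial ℤ, ps (Polynomial.derivative f) = d⁄dX ℚ (ps f) := fun f => by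
    unfold ps
    rw [PowerSeries.derivative_coe, Polynomial.derivative_map]
  have n1 : ps (1728 : Polynomial ℤ) = 1728 := by exact_mod_cast hpsn 1728
  have n2 : ps (82944 : Polynomial ℤ) = 82944 := by exact_mod_cast hpsn 82944
  have n3 : ps (372 : Polynomial ℤ) = 372 := by exact_mod_cast hpsn 372
  have hTe : ps T₁ = ps p * ps q * (ps p - 1728 * ps q) ^ 2 := by
    rw [hT₁, (hpsr _ _).1, (hpsr _ _).1, hps2, (hpsr _ _).2, (hpsr _ _).1, n1]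
  have hDe : ps D = d⁄dX ℚ (ps q) * ps p - ps q * d⁄dX ℚ (ps p) := by
    rw [hD, (hpsr _ _).2, (hpsr _ _).1, (hpsr _ _).1, hpd, hpd]
  have hae : ps a = X * (ps D * (ps p - 1728 * ps q) ^ 2) := by
    rw [ha, (hpsr _ _).1, (hpsr _ _).1, hps2, (hpsr _ _).2, (hpsr _ _).1, n1, hpX]
  have hbe : ps b = X * (ps D * (ps q * (82944 * ps q - 372 * ps p))) := by
    rw [hb, (hpsr _ _).1, (hpsr _ _).1, (hpsr _ _).1, (hpsr _ _).2, (hpsr _ _).1, (hpsr _ _).1, n2, n3, hpX]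
  have hT0 : T₁ ≠ 0 := by
    intro h0
    have h1 := congrArg (fun f : Polynomial ℤ => f.eval 0) h0
    simp only [hT₁, Polynomial.eval_mul, Polynomial.eval_pow, Polynomial.eval_sub, Polynomial.eval_zero,
      ← Polynomial.coeff_zero_eq_eval_zero, Polynomial.eval_ofNat] at h1
    rcases mul_eq_zero.1 h1 with h2 | h2
    · rcases mul_eq_zero.1 h2 with h3 | h3
      · exact hp h3
      · exact hq h3
    · exact hpq (by linarith [pow_eq_zero_iff (two_ne_zero) |>.1 h2])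
  set H : Matrix (Fin 2) (Fin 2) ℚ⟦X⟧ := Matrix.of ψ with hH
  set W : Matrix (Fin 2) (Fin 2) ℚ⟦X⟧ := !![ψ 1 1, -ψ 0 1; -ψ 1 0, ψ 0 0] with hW
  have hfam := Pool.Agent.Y120.J.A.gfs_gen (n := 2) (H := H) (W := W) (N := 0) (Nz := fun _ _ => 0) (T₁ := T₁)
    (A := ![![0, a], ![b, 0]]) ?_ ?_ hT0 ?_ ?_ ?_ ?_ ?_
  · have he : (fun a : Fin (2 * 2) => H (ix 2 a).1 (ix 2 a).2) = hψ ψ := by
      funext a
      fin_cases a <;> rfl
    rw [he] at hfam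
    exact ⟨_, _, hfam⟩
  · rw [pow_two, mul_zero]
  · intro i j
    simp
  · refine Matrix.ext fun i j => ?_
    rw [Matrix.mul_apply, Fin.sum_univ_two]
    fin_cases i <;> fin_cases j
    · show ψ 0 0 * ψ 1 1 + ψ 0 1 * -ψ 1 0 = 1
      linear_combination h.det
    · show ψ 0 0 * -ψ 0 1 + ψ 0 1 * ψ 0 0 = 0
      ring
    · show ψ 1 0 * ψ 1 1 + ψ 1 1 * -ψ 1 0 = 0
      ring
    · show ψ 1 0 * -ψ 0 1 + ψ 1 1 * ψ 0 0 = 1
      linear_combination h.det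
  · intro i j
    rw [coeff_zero_eq_constantCoeff_apply]
    exact h.c0 i j
  · intro i j
    have hz : ∑ k, H i k * C ((0 : Matrix (Fin 2) (Fin 2) ℚ) k j) = 0 := by
      refine Finset.sum_eq_zero fun k _ => ?_
      rw [Matrix.zero_apply, map_zero, mul_zero]
    rw [hz, add_zero, Fin.sum_univ_two]
    fin_cases i
    · show ps T₁ * (X * d⁄dX ℚ (ψ 0 j)) = ps 0 * ψ 0 j + ps a * ψ 1 j
      rw [ps_zero, hTe, hae, hDe]
      linear_combination (X * (ps p - 1728 * ps q) ^ 2) * h.e0 j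
    · show ps T₁ * (X * d⁄dX ℚ (ψ 1 j)) = ps b * ψ 0 j + ps 0 * ψ 1 j
      rw [ps_zero, hTe, hbe, hDe]
      linear_combination (X * ps q) * h.e1 j
  · intro i j
    exact h.sdc i j
  · intro i j
    fin_cases i <;> fin_cases j
    · exact h.sdc 1 1
    · exact SDc_neg (h.sdc 0 1)
    · exact SDc_neg (h.sdc 1 0)
    · exact h.sdc 0 0

end Pool.Agent.W5h27.ES
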