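import Pool.Agent.W5h27.ES.JD
import Pool.Agent.W5h27.ES.Psi
import Pool.Agent.W5h27.ES.Ev
import Pool.Agent.Y508.J.Mob

/-!
# The numbers `z`, `j'(z)`, `j''(z)` near a point with given `j` by the values of the fundamental matrix
-/

set_option autoImplicit false

open PowerSeries Filter Topology

namespace Pool.Agent.W5h27.ES

open Pool.Agent.Y113
open Pool.Agent.Y916.Al (evc Cvc)
open Pool.Agent.TH21.MS (jj jj_an)

lemma evc_zero (f : ℚ⟦X⟧) : evc 0 f = ((constantCoeff f : ℚ) : ℂ) := by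
  unfold evc
  rw [tsum_eq_single 0]
  · simp
  · intro m hm
    simp [hm]

lemma evc_tay (x₀ : ℚ) (p : Polynomial ℚ) (y : ℂ) : evc y (tay x₀ p) = Polynomial.aeval (y + (x₀ : ℂ)) p := by
  rw [tay_apply, Pool.Agent.Y916.Al.ev_coe, Polynomial.aeval_comp]
  congr 1
  simp

lemma cvc_tay (x₀ : ℚ) (p : Polynomial ℚ) (y : ℂ) : Cvc y (tay x₀ p) := by
  rw [tay_apply]
  exact Pool.Agent.Y916.Al.Cvc.coe _

theorem ctr_ev1 {x₀ : ℚ} {Z : Fin 2 → Fin 2 → ℚ⟦X⟧} (hZ : Ctr x₀ Z) (j : Fin 2) : ∃ r : ℝ, 0 < r ∧ ∀ y : ℂ, ‖y‖ < r →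
    ∃ a b : ℂ, HasDerivAt (fun y => evc y (Z 0 j)) a y ∧ (y + x₀) * a = evc y (Z 1 j) ∧
      HasDerivAt (fun y => evc y (Z 1 j)) b y ∧
      (1 - 1728 * (y + x₀)) ^ 2 * b = (82944 * (y + x₀) - 372) * evc y (Z 0 j) := by
  obtain ⟨r1, hr1, h1⟩ := evc_der (hZ.sdc 0 j)
  obtain ⟨r2, hr2, h2⟩ := evc_der (hZ.sdc 1 j)
  obtain ⟨r3, hr3, h3⟩ := sdc_cvc (hZ.sdc 0 j)
  obtain ⟨r4, hr4, h4⟩ := sdc_cvc (hZ.sdc 0 j).deriv
  obtain ⟨r5, hr5, h5⟩ := sdc_cvc (hZ.sdc 1 j).deriv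
  refine ⟨min (min r1 r2) (min r3 (min r4 r5)), lt_min (lt_min hr1 hr2) (lt_min hr3 (lt_min hr4 hr5)), fun y hy => ?_⟩
  simp only [lt_min_iff] at hy
  obtain ⟨⟨b1, b2⟩, b3, b4, b5⟩ := hy
  refine ⟨_, _, h1 y b1, ?_, h2 y b2, ?_⟩
  · have e1 := congrArg (evc y) (hZ.e0 j)
    rw [← tay_X, (cvc_tay _ _ _).ev_mul (h4 y b4), evc_tay, Polynomial.aeval_X] at e1
    exact e1
  · have e1 := congrArg (evc y) (hZ.e1 j)
    have c1 : (1 - 1728 * (X + C x₀) : ℚ⟦X⟧) ^ 2 = tay x₀ ((1 - 1728 * Polynomial.X) ^ 2) := by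
      rw [map_pow, map_sub, map_mul, map_one, tay_X, map_ofNat]
    have c2 : (82944 * (X + C x₀) - 372 : ℚ⟦X⟧) = tay x₀ (82944 * Polynomial.X - 372) := by
      rw [map_sub, map_mul, tay_X, map_ofNat, map_ofNat]
    rw [c1, c2, (cvc_tay _ _ _).ev_mul (h5 y b5), (cvc_tay _ _ _).ev_mul (h3 y b3), evc_tay, evc_tay] at e1
    simp only [map_pow, map_sub, map_mul, map_one, map_ofNat, Polynomial.aeval_X] at e1
    exact e1

theorem ctr_ev {x₀ : ℚ} {Z : Fin 2 → Fin 2 → ℚ⟦X⟧} (hZ : Ctr x₀ Z) : ∃ r : ℝ, 0 < r ∧ ∀ y : ℂ, ‖y‖ < r →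
    ∀ j, ∃ a b : ℂ, HasDerivAt (fun y => evc y (Z 0 j)) a y ∧ (y + x₀) * a = evc y (Z 1 j) ∧
      HasDerivAt (fun y => evc y (Z 1 j)) b y ∧
      (1 - 1728 * (y + x₀)) ^ 2 * b = (82944 * (y + x₀) - 372) * evc y (Z 0 j) := by
  obtain ⟨r1, hr1, h1⟩ := ctr_ev1 hZ 0
  obtain ⟨r2, hr2, h2⟩ := ctr_ev1 hZ 1
  refine ⟨min r1 r2, lt_min hr1 hr2, fun y hy j => ?_⟩
  rw [lt_min_iff] at hy
  fin_cases j
  · exact h1 y hy.1
  · exact h2 y hy.2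

/-- the numbers `z`, `j'`, `j''` by periods -/
structure PerM (m0 m1 m2 m3 z : ℂ) : Prop where
  ne : m0 ≠ 0
  hz : z * m0 = m1
  det : m0 * m3 - m1 * m2 = 1
  d1 : deriv jj z = -(jj z * m0 ^ 2)
  d2 : deriv (deriv jj) z = jj z * (m0 ^ 4 - 2 * (m0 ^ 3 * m2))

theorem PerM.mob {m0 m1 m2 m3 : ℂ} {z : UpperHalfPlane} (h : PerM m0 m1 m2 m3 z)
    (γ : Matrix.SpecialLinearGroup (Fin 2) ℤ) :
    PerM (m0 * (γ 1 1 : ℂ) + m1 * (γ 1 0 : ℂ)) (m0 * (γ 0 1 : ℂ) + m1 * (γ 0 0 : ℂ))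
      (m2 * (γ 1 1 : ℂ) + m3 * (γ 1 0 : ℂ)) (m2 * (γ 0 1 : ℂ) + m3 * (γ 0 0 : ℂ)) ((γ • z : UpperHalfPlane) : ℂ) := by
  obtain ⟨e0, e1, e2, e3, e4⟩ := Pool.Agent.Y508.J.t_mob γ z
  have hdet : (γ 0 0 : ℂ) * γ 1 1 - γ 0 1 * γ 1 0 = 1 := by
    have h := γ.det_coe
    rw [Matrix.det_fin_two] at h
    exact_mod_cast h
  obtain ⟨g1, g2, g3, g4, g5⟩ := h
  generalize (γ 0 0 : ℂ) = a at *
  generalize (γ 0 1 : ℂ) = b at *
  generalize (γ 1 0 : ℂ) = c at *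
  generalize (γ 1 1 : ℂ) = d at *
  have hU : m0 * d + m1 * c = m0 * (c * z + d) := by
    rw [← g2]
    ring
  have hm3 : m0 * m3 = 1 + m0 * (z * m2) := by
    rw [← g2] at g3
    linear_combination g3
  have hV : m0 * (m2 * d + m3 * c) = m0 * ((c * z + d) * m2) + c := by
    linear_combination c * hm3
  refine ⟨?_, ?_, ?_, ?_, ?_⟩
  · rw [hU]
    exact mul_ne_zero g1 e4
  · rw [e3, hU, div_mul_eq_mul_div, div_eq_iff e4, ← g2]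
    ring
  · linear_combination (m0 * m3 - m1 * m2) * hdet + g3
  · rw [e1, e0, g4, hU]
    ring
  · rw [e2, e0, g5, g4, hU]
    have h6 : (m0 * (c * z + d)) ^ 3 * (m2 * d + m3 * c) = m0 ^ 2 * (c * z + d) ^ 3 * (m0 * (m2 * d + m3 * c)) := by ring
    rw [h6, hV]
    ring

lemma const_ball {g : ℂ → ℂ} {p : ℂ} {r : ℝ} (h : ∀ z ∈ Metric.ball p r, HasDerivAt g 0 z) {z : ℂ}
    (hz : z ∈ Metric.ball p r) : g z = g p := by
  have hr : 0 < r := Metric.pos_of_mem_ball hz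
  exact Metric.isOpen_ball.is_const_of_deriv_eq_zero (convex_ball p r).isPreconnected
    (fun w hw => (h w hw).differentiableAt.differentiableWithinAt) (fun w hw => (h w hw).deriv) hz
    (Metric.mem_ball_self hr)

/-- the argument of the fundamental matrix -/
noncomputable def yy (x₀ : ℚ) (z : ℂ) : ℂ := 1 / jj z - x₀

/-- the columns satisfy the system -/
lemma col {x₀ : ℚ} {Z : Fin 2 → Fin 2 → ℚ⟦X⟧} {r : ℝ} (hZ : ∀ y : ℂ, ‖y‖ < r →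
    ∀ j, ∃ a b : ℂ, HasDerivAt (fun y => evc y (Z 0 j)) a y ∧ (y + x₀) * a = evc y (Z 1 j) ∧
      HasDerivAt (fun y => evc y (Z 1 j)) b y ∧
      (1 - 1728 * (y + x₀)) ^ 2 * b = (82944 * (y + x₀) - 372) * evc y (Z 0 j))
    (k0 k1 : ℂ) {z s : ℂ} (h0 : jj z ≠ 0) (h1 : jj z ≠ 1728) (hd : HasDerivAt jj (-(jj z * s)) z) (hy : ‖yy x₀ z‖ < r) :
    HasDerivAt (fun z => evc (yy x₀ z) (Z 0 0) * k0 + evc (yy x₀ z) (Z 0 1) * k1)
      (s * (evc (yy x₀ z) (Z 1 0) * k0 + evc (yy x₀ z) (Z 1 1) * k1)) z ∧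
    HasDerivAt (fun z => evc (yy x₀ z) (Z 1 0) * k0 + evc (yy x₀ z) (Z 1 1) * k1)
      (s * (Qj (jj z) * (evc (yy x₀ z) (Z 0 0) * k0 + evc (yy x₀ z) (Z 0 1) * k1))) z := by
  have hX : yy x₀ z + x₀ = 1 / jj z := by
    unfold yy
    ring
  have hdy : HasDerivAt (yy x₀) (s / jj z) z := by
    have h2 : HasDerivAt (fun z => 1 / jj z - (x₀ : ℂ)) _ z := ((hasDerivAt_const z (1 : ℂ)).div hd h0).sub_const _
    refine h2.congr_deriv ?_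
    field_simp
    ring
  obtain ⟨a0, b0, p0, q0, u0, v0⟩ := hZ _ hy 0
  obtain ⟨a1, b1, p1, q1, u1, v1⟩ := hZ _ hy 1
  rw [hX] at q0 q1 v0 v1
  have h3 : (jj z - 1728) ≠ 0 := sub_ne_zero.2 h1
  have hb : ∀ b e : ℂ, (1 - 1728 * (1 / jj z)) ^ 2 * b = (82944 * (1 / jj z) - 372) * e → b / jj z = Qj (jj z) * e := by
    intro b e h
    unfold Qj
    field_simp at h ⊢
    linear_combination h
  have hb0 := hb _ _ v0
  have hb1 := hb _ _ v1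
  have c1 := (p0.comp z hdy).mul_const k0
  have c2 := (p1.comp z hdy).mul_const k1
  have c3 := (u0.comp z hdy).mul_const k0
  have c4 := (u1.comp z hdy).mul_const k1
  refine ⟨(c1.add c2).congr_deriv ?_, (c3.add c4).congr_deriv ?_⟩
  · rw [← q0, ← q1]
    field_simp
  · linear_combination (s * k0) * hb0 + (s * k1) * hb1

/-- **the local comparison** -/
theorem locZ {x₀ : ℚ} {Z : Fin 2 → Fin 2 → ℚ⟦X⟧} (hZ : Ctr x₀ Z) (hx₀ : x₀ ≠ 0) (hx1 : 1 - 1728 * x₀ ≠ 0) {p : ℂ}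
    (hp : 0 < p.im) (hj : 1 / jj p = (x₀ : ℂ)) : ∃ r : ℝ, 0 < r ∧ ∃ c : Fin 2 → Fin 2 → ℂ,
      ∀ z ∈ Metric.ball p r, 0 < z.im ∧
        PerM (evc (yy x₀ z) (Z 0 0) * c 0 0 + evc (yy x₀ z) (Z 0 1) * c 1 0)
          (evc (yy x₀ z) (Z 0 0) * c 0 1 + evc (yy x₀ z) (Z 0 1) * c 1 1)
          (evc (yy x₀ z) (Z 1 0) * c 0 0 + evc (yy x₀ z) (Z 1 1) * c 1 0)
          (evc (yy x₀ z) (Z 1 0) * c 0 1 + evc (yy x₀ z) (Z 1 1) * c 1 1) z := by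
  have hx0' : (x₀ : ℂ) ≠ 0 := by exact_mod_cast hx₀
  have hjp0 : jj p ≠ 0 := by
    intro h
    rw [h, div_zero] at hj
    exact hx0' hj.symm
  have hjp : jj p = 1 / x₀ := by
    rw [← hj]
    field_simp
  have hjp1 : jj p ≠ 1728 := by
    intro h
    rw [h] at hj
    apply hx1
    have h2 : (1 : ℂ) - 1728 * x₀ = 0 := by
      rw [← hj]
      norm_num
    exact_mod_cast h2
  obtain ⟨r1, hr1, φ, θ, hM⟩ := locM hp hjp0 hjp1
  obtain ⟨r2, hr2, hE⟩ := ctr_ev hZ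
  have hcy : ContinuousAt (yy x₀) p := by
    unfold yy
    exact (continuousAt_const.div (jj_an p hp).continuousAt hjp0).sub continuousAt_const
  have hyp : yy x₀ p = 0 := by
    unfold yy
    rw [hj, sub_self]
  have hev : ∀ᶠ z in 𝓝 p, ‖yy x₀ z‖ < r2 := by
    have h2 : Tendsto (fun z => ‖yy x₀ z‖) (𝓝 p) (𝓝 0) := by
      have h3 := hcy.norm.tendsto
      rwa [hyp, norm_zero] at h3
    exact h2.eventually_lt_const hr2
  obtain ⟨r3, hr3, h3⟩ := Metric.eventually_nhds_iff.1 hev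
  obtain ⟨r, hr⟩ : ∃ r, r = min r1 r3 := ⟨_, rfl⟩
  have hr0 : 0 < r := by
    rw [hr]
    exact lt_min hr1 hr3
  have hpb : p ∈ Metric.ball p r := Metric.mem_ball_self hr0
  have hsub : ∀ z ∈ Metric.ball p r, z ∈ Metric.ball p r1 ∧ ‖yy x₀ z‖ < r2 := by
    intro z hz
    rw [Metric.mem_ball, hr, lt_min_iff] at hz
    exact ⟨Metric.mem_ball.2 hz.1, h3 hz.2⟩
  have hφp : φ p ≠ 0 := (hM p (hsub p hpb).1).2.1
  obtain ⟨c, hc⟩ : ∃ c : Fin 2 → Fin 2 → ℂ, c = ![![φ p, p * φ p], ![θ p, p * θ p + 1 / φ p]] := ⟨_, rfl⟩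
  have c00 : c 0 0 = φ p := by rw [hc]; rfl
  have c01 : c 0 1 = p * φ p := by rw [hc]; rfl
  have c10 : c 1 0 = θ p := by rw [hc]; rfl
  have c11 : c 1 1 = p * θ p + 1 / φ p := by rw [hc]; rfl
  refine ⟨r, hr0, c, ?_⟩
  -- the functions
  obtain ⟨n0, hn0⟩ : ∃ n : ℂ → ℂ, n = fun z => evc (yy x₀ z) (Z 0 0) * c 0 0 + evc (yy x₀ z) (Z 0 1) * c 1 0 := ⟨_, rfl⟩
  obtain ⟨n1, hn1⟩ : ∃ n : ℂ → ℂ, n = fun z => evc (yy x₀ z) (Z 0 0) * c 0 1 + evc (yy x₀ z) (Z 0 1) * c 1 1 := ⟨_, rfl⟩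
  obtain ⟨n2, hn2⟩ : ∃ n : ℂ → ℂ, n = fun z => evc (yy x₀ z) (Z 1 0) * c 0 0 + evc (yy x₀ z) (Z 1 1) * c 1 0 := ⟨_, rfl⟩
  obtain ⟨n3, hn3⟩ : ∃ n : ℂ → ℂ, n = fun z => evc (yy x₀ z) (Z 1 0) * c 0 1 + evc (yy x₀ z) (Z 1 1) * c 1 1 := ⟨_, rfl⟩
  have hdn : ∀ z ∈ Metric.ball p r, HasDerivAt n0 (φ z ^ 2 * n2 z) z ∧ HasDerivAt n1 (φ z ^ 2 * n3 z) z ∧
      HasDerivAt n2 (φ z ^ 2 * (Qj (jj z) * n0 z)) z ∧ HasDerivAt n3 (φ z ^ 2 * (Qj (jj z) * n1 z)) z := by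
    intro z hz
    obtain ⟨hz1, hz2⟩ := hsub z hz
    obtain ⟨a1, a2, a3, a4, a5, a6, a7, a8⟩ := hM z hz1
    have e0 := col hE (c 0 0) (c 1 0) a3 a4 a5 hz2
    have e1 := col hE (c 0 1) (c 1 1) a3 a4 a5 hz2
    rw [hn0, hn1, hn2, hn3]
    exact ⟨e0.1, e1.1, e0.2, e1.2⟩
  have hdm : ∀ z ∈ Metric.ball p r, HasDerivAt φ (φ z ^ 2 * θ z) z ∧
      HasDerivAt (fun z => z * φ z) (φ z ^ 2 * (z * θ z + 1 / φ z)) z ∧
      HasDerivAt θ (φ z ^ 2 * (Qj (jj z) * φ z)) z ∧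
      HasDerivAt (fun z => z * θ z + 1 / φ z) (φ z ^ 2 * (Qj (jj z) * (z * φ z))) z := by
    intro z hz
    obtain ⟨hz1, hz2⟩ := hsub z hz
    obtain ⟨a1, a2, a3, a4, a5, a6, a7, a8⟩ := hM z hz1
    refine ⟨a7, ?_, a8, ?_⟩
    · have h4 : HasDerivAt (fun z => z * φ z) _ z := (hasDerivAt_id z).mul a7
      refine h4.congr_deriv ?_
      simp only [id_eq]
      field_simp
      ring
    · have h4 : HasDerivAt (fun z => z * θ z + 1 / φ z) _ z :=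
        ((hasDerivAt_id z).mul a8).add ((hasDerivAt_const z (1 : ℂ)).div a7 a2)
      refine h4.congr_deriv ?_
      simp only [id_eq]
      field_simp
      ring
  have hp00 : evc (yy x₀ p) (Z 0 0) = 1 := by rw [hyp, evc_zero, hZ.c0]; simp
  have hp01 : evc (yy x₀ p) (Z 0 1) = 0 := by rw [hyp, evc_zero, hZ.c0]; simp
  have hp10 : evc (yy x₀ p) (Z 1 0) = 0 := by rw [hyp, evc_zero, hZ.c0]; simp
  have hp11 : evc (yy x₀ p) (Z 1 1) = 1 := by rw [hyp, evc_zero, hZ.c0]; simp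
  have v0 : n0 p = φ p := by
    rw [hn0]
    simp only [hp00, hp01, c00]
    ring
  have v1 : n1 p = p * φ p := by
    rw [hn1]
    simp only [hp00, hp01, c01]
    ring
  have v2 : n2 p = θ p := by
    rw [hn2]
    simp only [hp10, hp11, c10]
    ring
  have v3 : n3 p = p * θ p + 1 / φ p := by
    rw [hn3]
    simp only [hp10, hp11, c11]
    ring
  intro z hz
  have k1 := const_ball (g := fun z => (z * θ z + 1 / φ z) * n0 z - (z * φ z) * n2 z) (p := p) (r := r) (fun w hw => by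
    obtain ⟨x1, x2, x3, x4⟩ := hdn w hw
    obtain ⟨y1, y2, y3, y4⟩ := hdm w hw
    refine ((y4.mul x1).sub (y2.mul x3)).congr_deriv ?_
    ring) hz
  have k2 := const_ball (g := fun z => (z * θ z + 1 / φ z) * n1 z - (z * φ z) * n3 z) (p := p) (r := r) (fun w hw => by
    obtain ⟨x1, x2, x3, x4⟩ := hdn w hw
    obtain ⟨y1, y2, y3, y4⟩ := hdm w hw
    refine ((y4.mul x2).sub (y2.mul x4)).congr_deriv ?_
    ring) hz
  have k3 := const_ball (g := fun z => φ z * n2 z - θ z * n0 z) (p := p) (r := r) (fun w hw => by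
    obtain ⟨x1, x2, x3, x4⟩ := hdn w hw
    obtain ⟨y1, y2, y3, y4⟩ := hdm w hw
    refine ((y1.mul x3).sub (y3.mul x1)).congr_deriv ?_
    ring) hz
  have k4 := const_ball (g := fun z => φ z * n3 z - θ z * n1 z) (p := p) (r := r) (fun w hw => by
    obtain ⟨x1, x2, x3, x4⟩ := hdn w hw
    obtain ⟨y1, y2, y3, y4⟩ := hdm w hw
    refine ((y1.mul x4).sub (y3.mul x2)).congr_deriv ?_
    ring) hz
  simp only [v0, v1, v2, v3] at k1 k2 k3 k4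
  obtain ⟨hz1, hz2⟩ := hsub z hz
  obtain ⟨a1, a2, a3, a4, a5, a6, a7, a8⟩ := hM z hz1
  have m1 : (p * θ p + 1 / φ p) * φ p - p * φ p * θ p = 1 := by
    field_simp
    ring
  have m2 : (p * θ p + 1 / φ p) * (p * φ p) - p * φ p * (p * θ p + 1 / φ p) = 0 := by ring
  have m3 : φ p * θ p - θ p * φ p = 0 := by ring
  have m4 : φ p * (p * θ p + 1 / φ p) - θ p * (p * φ p) = 1 := by
    field_simp
    ring
  rw [m1] at k1
  rw [m2] at k2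
  rw [m3] at k3
  rw [m4] at k4
  have hinv : φ z * (1 / φ z) = 1 := by field_simp
  have w0 : n0 z = φ z := by
    linear_combination φ z * k1 + z * φ z * k3 - n0 z * hinv
  have w2 : n2 z = θ z := by
    linear_combination θ z * k1 + (z * θ z + 1 / φ z) * k3 - n2 z * hinv
  have w1 : n1 z = z * φ z := by
    linear_combination φ z * k2 + z * φ z * k4 - n1 z * hinv
  have w3 : n3 z = z * θ z + 1 / φ z := by
    linear_combination θ z * k2 + (z * θ z + 1 / φ z) * k4 - n3 z * hinv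
  rw [hn0] at w0
  rw [hn1] at w1
  rw [hn2] at w2
  rw [hn3] at w3
  refine ⟨a1, ?_⟩
  simp only at w0 w1 w2 w3
  rw [w0, w1, w2, w3]
  refine ⟨a2, rfl, ?_, a5.deriv, a6⟩
  linear_combination hinv

end Pool.Agent.W5h27.ES
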