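import Pool.Agent.W5h27.ES.Srj
import Pool.Agent.Y120.K.Clr
import Pool.Agent.Y120.A.Defs
import Pool.Agent.Y475.AF.NR

/-!
# All functional relations between the entries of the fundamental matrix come from the determinant
-/

set_option autoImplicit false

open PowerSeries Filter Topology

namespace Pool.Agent.W5h27.ES

open Pool.Agent.Y113
open Pool.Agent.Y916.Al (evc Cvc)
open Pool.Agent.TH21.MS (jj jj_an)
open Pool.Agent.Y118.UL (U mk mk_eq mk_eq_zero mk_ne_zero)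
open Pool.Agent.Y120.K (clr clr_eval)
open Pool.Agent.Y120.A (Q4)
open Pool.Agent.Y916.Af (Vc)

lemma mk_aeval (x : ℕ → ℂ) (f : Polynomial ℤ) :
    mk ℂ (fun n => Polynomial.aeval (x n) f) = Polynomial.aeval (mk ℂ x) f := by
  induction f using Polynomial.induction_on' with
  | add p q hp hq =>
    rw [map_add, ← hp, ← hq, ← map_add]
    congr 1
    funext n
    simp
  | monomial m a =>
    rw [Polynomial.aeval_monomial]
    simp only [Polynomial.aeval_monomial, eq_intCast]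
    have h1 : (fun n => (a : ℂ) * x n ^ m) = (a : ℕ → ℂ) * x ^ m := by
      funext n
      simp
    rw [h1, map_mul, map_pow, map_intCast]

lemma alg_mem {Ω : Type} [Field Ω] [Algebra ℂ Ω] {A : Subalgebra ℂ Ω} {u : Ω} (h : u ∈ A) : IsAlgebraic A u :=
  isAlgebraic_algebraMap (⟨u, h⟩ : A)

lemma aeval_mem {Ω : Type} [Field Ω] [Algebra ℂ Ω] {A : Subalgebra ℂ Ω} {u : Ω} (h : u ∈ A) (f : Polynomial ℤ) :
    Polynomial.aeval u f ∈ A := by
  have h1 : Polynomial.aeval u f = algebraMap A Ω (Polynomial.aeval (⟨u, h⟩ : A) f) := by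
    rw [← Polynomial.aeval_algebraMap_apply]
    rfl
  rw [h1]
  exact (Polynomial.aeval (⟨u, h⟩ : A) f).2

/-- a relation over `ℚ[x]` as a polynomial -/
noncomputable def toP (R : MvPolynomial (Fin 4) (Polynomial ℚ)) : MvPolynomial (Unit ⊕ Fin 4) ℂ :=
  MvPolynomial.eval₂ (Polynomial.aeval (MvPolynomial.X (Sum.inl ()) : MvPolynomial (Unit ⊕ Fin 4) ℂ) :
    Polynomial ℚ →ₐ[ℚ] MvPolynomial (Unit ⊕ Fin 4) ℂ).toRingHom (fun i => MvPolynomial.X (Sum.inr i)) R

lemma toP_eval (R : MvPolynomial (Fin 4) (Polynomial ℚ)) (x : ℂ) (y : Fin 4 → ℂ) :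
    MvPolynomial.aeval (Sum.elim (fun _ => x) y) (toP R) =
      MvPolynomial.eval₂ (Polynomial.aeval x : Polynomial ℚ →ₐ[ℚ] ℂ).toRingHom y R := by
  unfold toP
  show (MvPolynomial.aeval (Sum.elim (fun _ => x) y) : MvPolynomial (Unit ⊕ Fin 4) ℂ →ₐ[ℂ] ℂ).toRingHom
    (MvPolynomial.eval₂ _ _ R) = _
  rw [MvPolynomial.hom_eval₂]
  congr 1
  · refine RingHom.ext fun f => ?_
    show MvPolynomial.aeval (Sum.elim (fun _ => x) y)
      (Polynomial.aeval (MvPolynomial.X (Sum.inl ()) : MvPolynomial (Unit ⊕ Fin 4) ℂ) f) = Polynomial.aeval x f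
    have h1 : ((MvPolynomial.aeval (Sum.elim (fun _ => x) y) : MvPolynomial (Unit ⊕ Fin 4) ℂ →ₐ[ℂ] ℂ).restrictScalars ℚ).comp
        (Polynomial.aeval (MvPolynomial.X (Sum.inl ()) : MvPolynomial (Unit ⊕ Fin 4) ℂ)) =
        (Polynomial.aeval x : Polynomial ℚ →ₐ[ℚ] ℂ) := by
      refine Polynomial.algHom_ext ?_
      simp
    exact DFunLike.congr_fun h1 f
  · funext i
    simp

/-- the numerators -/
noncomputable def Nr (c : Fin 2 → Fin 2 → ℂ) : Fin 4 → MvPolynomial (Fin 4) ℂ :=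
  ![MvPolynomial.X 2 * (MvPolynomial.C (c 1 1) * MvPolynomial.X 2 - MvPolynomial.C (c 1 0) *
      (MvPolynomial.X 1 * MvPolynomial.X 2)),
    MvPolynomial.X 2 * (MvPolynomial.C (c 0 0) * (MvPolynomial.X 1 * MvPolynomial.X 2) -
      MvPolynomial.C (c 0 1) * MvPolynomial.X 2),
    MvPolynomial.C (c 1 1) * (MvPolynomial.X 2 * MvPolynomial.X 3) - MvPolynomial.C (c 1 0) *
      (1 + MvPolynomial.X 1 * MvPolynomial.X 2 * MvPolynomial.X 3),
    MvPolynomial.C (c 0 0) * (1 + MvPolynomial.X 1 * MvPolynomial.X 2 * MvPolynomial.X 3) -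
      MvPolynomial.C (c 0 1) * (MvPolynomial.X 2 * MvPolynomial.X 3)]

/-- the values of the fractions -/
lemma nr_eval {c : Fin 2 → Fin 2 → ℂ} (hc : c 0 0 * c 1 1 - c 0 1 * c 1 0 = 1) (v y : Fin 4 → ℂ)
    (hdet : y 0 * y 3 - y 2 * y 1 = 1)
    (h0 : v 2 ≠ 0) (h2 : v 2 = y 0 * c 0 0 + y 1 * c 1 0) (h1 : v 1 * v 2 = y 0 * c 0 1 + y 1 * c 1 1)
    (h3 : v 3 = y 2 * c 0 0 + y 3 * c 1 0) (b : Fin 4) :
    MvPolynomial.aeval v (Nr c b) / MvPolynomial.aeval v (MvPolynomial.X 2 : MvPolynomial (Fin 4) ℂ) = y b := by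
  rw [MvPolynomial.aeval_X, div_eq_iff h0]
  have hm : v 2 * (y 2 * c 0 1 + y 3 * c 1 1) = 1 + v 1 * v 2 * v 3 := by
    rw [h1, h2, h3]
    linear_combination (c 0 0 * c 1 1 - c 0 1 * c 1 0) * hdet + hc
  fin_cases b
  · show MvPolynomial.aeval v (MvPolynomial.X 2 * (MvPolynomial.C (c 1 1) * MvPolynomial.X 2 - MvPolynomial.C (c 1 0) *
      (MvPolynomial.X 1 * MvPolynomial.X 2)) : MvPolynomial (Fin 4) ℂ) = y 0 * v 2
    simp only [map_mul, map_sub, MvPolynomial.aeval_X, MvPolynomial.aeval_C, Algebra.algebraMap_self, RingHom.id_apply]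
    rw [h1]
    nth_rewrite 2 [h2]
    linear_combination (v 2 * y 0) * hc
  · show MvPolynomial.aeval v (MvPolynomial.X 2 * (MvPolynomial.C (c 0 0) * (MvPolynomial.X 1 * MvPolynomial.X 2) -
      MvPolynomial.C (c 0 1) * MvPolynomial.X 2) : MvPolynomial (Fin 4) ℂ) = y 1 * v 2
    simp only [map_mul, map_sub, MvPolynomial.aeval_X, MvPolynomial.aeval_C, Algebra.algebraMap_self, RingHom.id_apply]
    rw [h1]
    nth_rewrite 2 [h2]
    linear_combination (v 2 * y 1) * hc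
  · show MvPolynomial.aeval v (MvPolynomial.C (c 1 1) * (MvPolynomial.X 2 * MvPolynomial.X 3) - MvPolynomial.C (c 1 0) *
      (1 + MvPolynomial.X 1 * MvPolynomial.X 2 * MvPolynomial.X 3) : MvPolynomial (Fin 4) ℂ) = y 2 * v 2
    simp only [map_mul, map_sub, map_add, map_one, MvPolynomial.aeval_X, MvPolynomial.aeval_C, Algebra.algebraMap_self,
      RingHom.id_apply]
    rw [← hm, h3]
    linear_combination (v 2 * y 2) * hc
  · show MvPolynomial.aeval v (MvPolynomial.C (c 0 0) * (1 + MvPolynomial.X 1 * MvPolynomial.X 2 * MvPolynomial.X 3) -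
      MvPolynomial.C (c 0 1) * (MvPolynomial.X 2 * MvPolynomial.X 3) : MvPolynomial (Fin 4) ℂ) = y 3 * v 2
    simp only [map_mul, map_sub, map_add, map_one, MvPolynomial.aeval_X, MvPolynomial.aeval_C, Algebra.algebraMap_self,
      RingHom.id_apply]
    rw [← hm, h3]
    linear_combination (v 2 * y 3) * hc

/-- **the functional relations** -/
theorem rel {p q : Polynomial ℤ} (hp : p.coeff 0 ≠ 0) (hpq : p.coeff 0 ≠ 1728 * q.coeff 0) (hq : q.coeff 0 ≠ 0)
    (hR : Polynomial.C (q.coeff 0) * p ≠ Polynomial.C (p.coeff 0) * q) {x₀ : ℚ}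
    (hx₀ : x₀ = (q.coeff 0 : ℚ) / p.coeff 0) {Z : Fin 2 → Fin 2 → ℚ⟦X⟧} (hZ : Ctr x₀ Z) {Y : ℚ⟦X⟧}
    (hY : Inn p q x₀ Y) (x : ℂ) (y : Fin 4 → ℂ) (hy : y ∈ Q4) : y ∈ Vc (hψ fun i j => (Z i j).subst Y) x := by
  classical
  have hp' : (p.coeff 0 : ℚ) ≠ 0 := by exact_mod_cast hp
  have hq' : (q.coeff 0 : ℚ) ≠ 0 := by exact_mod_cast hq
  have h0 : x₀ ≠ 0 := by
    rw [hx₀]
    exact div_ne_zero hq' hp'
  have h1 : 1 - 1728 * x₀ ≠ 0 := by
    intro h
    apply hpq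
    have h2 : (p.coeff 0 : ℚ) = 1728 * q.coeff 0 := by
      rw [hx₀] at h
      field_simp at h
      linarith
    exact_mod_cast h2
  obtain ⟨p₀, hp₀, hjp₀⟩ := jj_surj (1 / (x₀ : ℂ))
  have hjp : 1 / jj p₀ = (x₀ : ℂ) := by rw [hjp₀, one_div_one_div]
  obtain ⟨r₁, hr₁, c, hc⟩ := locZ hZ h0 h1 hp₀ hjp
  have hPsi := psi_of hY hp hZ hpq hq
  obtain ⟨T, A, hG⟩ := psi_gfs hPsi hp hpq hq
  obtain ⟨r₂, hr₂, hin⟩ := inner hp hq hx₀ hZ hY one_pos
  obtain ⟨r₃, hr₃, hcv⟩ := Pool.Agent.Y475.AF.small_cvc (hψ fun i j => (Z i j).subst Y) hG.hsize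
  -- the determinant of the constants
  have hdet : c 0 0 * c 1 1 - c 0 1 * c 1 0 = 1 := by
    have h2 := (hc p₀ (Metric.mem_ball_self hr₁)).2.det
    have h3 : yy x₀ p₀ = 0 := by
      unfold yy
      rw [hjp, sub_self]
    rw [h3] at h2
    simp only [evc_zero, hZ.c0] at h2
    simpa using h2
  -- the sequences
  have hseq : ∀ n : ℕ, ∃ a : ℂ × ℂ, ‖a.1‖ < r₂ ∧ ‖a.1‖ < r₃ ∧ dist a.2 p₀ < r₁ ∧ dist a.2 p₀ < 1 / ((n : ℝ) + 1) ∧
      a.2 ≠ p₀ ∧ jj a.2 = Polynomial.aeval a.1 p / Polynomial.aeval a.1 q := by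
    intro n
    obtain ⟨ρ, hρ⟩ : ∃ ρ : ℝ, ρ = min r₁ (1 / ((n : ℝ) + 1)) := ⟨_, rfl⟩
    have hρ0 : 0 < ρ := by
      rw [hρ]
      exact lt_min hr₁ (by positivity)
    have hsub : Metric.ball p₀ ρ ⊆ {z : ℂ | 0 < z.im} := by
      intro z hz
      exact (hc z (Metric.ball_subset_ball (by rw [hρ]; exact min_le_left _ _) hz)).1
    have hopen := jj_open hsub Metric.isOpen_ball
    have hmem : jj p₀ ∈ jj '' Metric.ball p₀ ρ := ⟨p₀, Metric.mem_ball_self hρ0, rfl⟩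
    have hpc : ContinuousAt (fun x : ℂ => Polynomial.aeval x p) 0 := (Polynomial.continuous_aeval p).continuousAt
    have hqc : ContinuousAt (fun x : ℂ => Polynomial.aeval x q) 0 := (Polynomial.continuous_aeval q).continuousAt
    have hp0 : Polynomial.aeval (0 : ℂ) p = ((p.coeff 0 : ℤ) : ℂ) :=
      (Polynomial.coeff_zero_eq_aeval_zero' (A := ℂ) p).symm
    have hq0 : Polynomial.aeval (0 : ℂ) q = ((q.coeff 0 : ℤ) : ℂ) :=
      (Polynomial.coeff_zero_eq_aeval_zero' (A := ℂ) q).symm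
    have hqn : Polynomial.aeval (0 : ℂ) q ≠ 0 := by
      rw [hq0]
      exact_mod_cast hq
    have hv : Polynomial.aeval (0 : ℂ) p / Polynomial.aeval (0 : ℂ) q = jj p₀ := by
      rw [hp0, hq0, hjp₀, hx₀]
      push_cast
      rw [one_div_div]
    have hcont : ContinuousAt (fun x : ℂ => Polynomial.aeval x p / Polynomial.aeval x q) 0 := hpc.div hqc hqn
    have e1 : ∀ᶠ x : ℂ in 𝓝 0, Polynomial.aeval x p / Polynomial.aeval x q ∈ jj '' Metric.ball p₀ ρ := by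
      refine hcont.eventually_mem ?_
      show jj '' Metric.ball p₀ ρ ∈ 𝓝 (Polynomial.aeval (0 : ℂ) p / Polynomial.aeval (0 : ℂ) q)
      rw [hv]
      exact hopen.mem_nhds hmem
    have e2 : ∀ ρ : ℝ, 0 < ρ → ∀ᶠ x : ℂ in 𝓝 0, ‖x‖ < ρ := fun ρ hρ => by
      have h4 : Tendsto (fun x : ℂ => ‖x‖) (𝓝 0) (𝓝 0) := by
        have := (continuous_norm (E := ℂ)).tendsto 0
        rwa [norm_zero] at this
      exact h4.eventually_lt_const hρ
    obtain ⟨D, hD⟩ : ∃ D : Polynomial ℤ, D = Polynomial.C (q.coeff 0) * p - Polynomial.C (p.coeff 0) * q := ⟨_, rfl⟩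
    have hD0 : D ≠ 0 := by
      rw [hD]
      exact sub_ne_zero.2 hR
    obtain ⟨r₄, hr₄, hroot⟩ := Pool.Agent.Y475.AF.small_root (D.map (Int.castRingHom ℚ))
      ((Polynomial.map_ne_zero_iff (RingHom.injective_int _)).2 hD0)
    have e3 : ∀ᶠ x : ℂ in 𝓝[≠] 0, Polynomial.aeval x p / Polynomial.aeval x q ≠ jj p₀ := by
      have h5 := (e2 _ hr₄).filter_mono (nhdsWithin_le_nhds (s := {(0 : ℂ)}ᶜ))
      have h6 : ∀ᶠ x : ℂ in 𝓝[≠] 0, Polynomial.aeval x q ≠ 0 :=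
        (hqc.eventually_ne hqn).filter_mono nhdsWithin_le_nhds
      filter_upwards [h5, self_mem_nhdsWithin, h6] with x hx hx0 hxq hcon
      have h7 := hroot x hx0 hx
      apply h7
      have h8 : Polynomial.aeval x (D.map (Int.castRingHom ℚ)) = Polynomial.aeval x D := by
        rw [Polynomial.aeval_def, Polynomial.eval₂_map, Polynomial.aeval_def]
        congr 1
      rw [h8, hD, map_sub, map_mul, map_mul, Polynomial.aeval_C, Polynomial.aeval_C]
      rw [← hv, hp0, hq0, div_eq_div_iff hxq (by exact_mod_cast hq)] at hcon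
      simp only [eq_intCast]
      linear_combination hcon
    have e4 : ∀ᶠ x : ℂ in 𝓝[≠] 0, (Polynomial.aeval x p / Polynomial.aeval x q ∈ jj '' Metric.ball p₀ ρ ∧ ‖x‖ < r₂ ∧
        ‖x‖ < r₃) ∧ Polynomial.aeval x p / Polynomial.aeval x q ≠ jj p₀ :=
      ((e1.and ((e2 _ hr₂).and (e2 _ hr₃))).filter_mono nhdsWithin_le_nhds).and e3
    obtain ⟨x, ⟨⟨z, hz, hzx⟩, hx2, hx3⟩, hx4⟩ := e4.exists
    rw [Metric.mem_ball, hρ, lt_min_iff] at hz
    refine ⟨(x, z), hx2, hx3, hz.1, hz.2, fun h => ?_, hzx⟩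
    apply hx4
    rw [← hzx]
    show jj z = jj p₀
    rw [show z = p₀ from h]
  choose s hs2 hs3 hs4 hs5 hs6 hs7 using hseq
  obtain ⟨xs, hxs⟩ : ∃ xs : ℕ → ℂ, xs = fun n => (s n).1 := ⟨_, rfl⟩
  obtain ⟨zs, hzs⟩ : ∃ zs : ℕ → ℂ, zs = fun n => (s n).2 := ⟨_, rfl⟩
  have hztend : Tendsto zs atTop (𝓝 p₀) := by
    rw [tendsto_iff_dist_tendsto_zero]
    refine squeeze_zero (fun _ => dist_nonneg) (fun n => ?_) tendsto_one_div_add_atTop_nhds_zero_nat
    rw [hzs]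
    exact (hs5 n).le
  have hb := germ_ind hp₀ hztend (fun n => by rw [hzs]; exact hs6 n)
  -- the periods along the sequence
  obtain ⟨E, hE⟩ : ∃ E : ℕ → Fin 2 → Fin 2 → ℂ, E = fun n i j => evc (xs n) ((Z i j).subst Y) := ⟨_, rfl⟩
  obtain ⟨m0, hm0⟩ : ∃ m : ℕ → ℂ, m = fun n => E n 0 0 * c 0 0 + E n 0 1 * c 1 0 := ⟨_, rfl⟩
  obtain ⟨m2, hm2⟩ : ∃ m : ℕ → ℂ, m = fun n => E n 1 0 * c 0 0 + E n 1 1 * c 1 0 := ⟨_, rfl⟩
  have hper : ∀ n, PerM (m0 n) (E n 0 0 * c 0 1 + E n 0 1 * c 1 1) (m2 n) (E n 1 0 * c 0 1 + E n 1 1 * c 1 1) (zs n) := by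
    intro n
    have h2 := (hc (zs n) (by rw [Metric.mem_ball, hzs]; exact hs4 n)).2
    obtain ⟨k1, k2, -, k4⟩ := hin (xs n) (by rw [hxs]; exact hs2 n)
    have h3 := k4 (zs n) (by rw [hxs, hzs]; exact hs7 n)
    have h4 : ∀ i j, evc (yy x₀ (zs n)) (Z i j) = E n i j := by
      intro i j
      rw [hE]
      exact congrFun (congrFun h3 i) j
    simp only [h4] at h2
    rw [hm0, hm2]
    exact h2
  have hdE : ∀ n, E n 0 0 * E n 1 1 - E n 1 0 * E n 0 1 = 1 := by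
    intro n
    have h2 := (hper n).det
    rw [hm0, hm2] at h2
    simp only at h2
    linear_combination h2 - (E n 0 0 * E n 1 1 - E n 1 0 * E n 0 1) * hdet
  obtain ⟨a, ha⟩ : ∃ a : Fin 4 → ℕ → ℂ, a = ![xs, zs, m0, m2] := ⟨_, rfl⟩
  have haI : AlgebraicIndependent ℂ (fun i => mk ℂ (a i)) := by
    refine ind_of hb ?_
    obtain ⟨A0, hA0⟩ : ∃ A0, A0 = Algebra.adjoin ℂ (Set.range fun i => mk ℂ (a i)) := ⟨_, rfl⟩
    have hmem : ∀ i, mk ℂ (a i) ∈ A0 := fun i => by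
      rw [hA0]
      exact Algebra.subset_adjoin ⟨i, rfl⟩
    have m_x : mk ℂ xs ∈ A0 := by have := hmem 0; rw [ha] at this; exact this
    have m_z : mk ℂ zs ∈ A0 := by have := hmem 1; rw [ha] at this; exact this
    have m_0 : mk ℂ m0 ∈ A0 := by have := hmem 2; rw [ha] at this; exact this
    have m_2 : mk ℂ m2 ∈ A0 := by have := hmem 3; rw [ha] at this; exact this
    rw [← hA0]
    have hqq : ∀ n, Polynomial.aeval (xs n) q ≠ 0 := fun n => (hin (xs n) (by rw [hxs]; exact hs2 n)).1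
    have hjeq : mk ℂ (fun n => jj (zs n)) = Polynomial.aeval (mk ℂ xs) p * (Polynomial.aeval (mk ℂ xs) q)⁻¹ := by
      have h2 : mk ℂ (fun n => Polynomial.aeval (xs n) q) ≠ 0 := by
        rw [mk_ne_zero]
        exact Eventually.of_forall hqq
      rw [← mk_aeval, ← mk_aeval, eq_mul_inv_iff_mul_eq₀ h2, ← map_mul]
      congr 1
      funext n
      show jj (zs n) * Polynomial.aeval (xs n) q = Polynomial.aeval (xs n) p
      have h3 : jj (zs n) = Polynomial.aeval (xs n) p / Polynomial.aeval (xs n) q := by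
        rw [hxs, hzs]
        exact hs7 n
      rw [h3, div_mul_cancel₀ _ (hqq n)]
    have hjalg : IsAlgebraic A0 (mk ℂ (fun n => jj (zs n))) := by
      rw [hjeq]
      exact (alg_mem (aeval_mem m_x p)).mul (alg_mem (aeval_mem m_x q)).inv
    intro i
    fin_cases i
    · exact alg_mem m_z
    · exact hjalg
    · show IsAlgebraic A0 (mk ℂ (fun n => deriv jj (zs n)))
      have h2 : mk ℂ (fun n => deriv jj (zs n)) = mk ℂ (fun n => jj (zs n)) * (-(mk ℂ m0) ^ 2) := by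
        rw [← map_pow, ← map_neg, ← map_mul]
        congr 1
        funext n
        show deriv jj (zs n) = jj (zs n) * -(m0 n ^ 2)
        rw [(hper n).d1]
        ring
      rw [h2]
      exact hjalg.mul (alg_mem (neg_mem (pow_mem m_0 2)))
    · show IsAlgebraic A0 (mk ℂ (fun n => deriv (deriv jj) (zs n)))
      have h2 : mk ℂ (fun n => deriv (deriv jj) (zs n)) = mk ℂ (fun n => jj (zs n)) *
          ((mk ℂ m0) ^ 4 - ((mk ℂ m0) ^ 3 * mk ℂ m2 + (mk ℂ m0) ^ 3 * mk ℂ m2)) := by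
        rw [← map_pow, ← map_pow, ← map_mul, ← map_add, ← map_sub, ← map_mul]
        congr 1
        funext n
        show deriv (deriv jj) (zs n) = jj (zs n) * (m0 n ^ 4 - (m0 n ^ 3 * m2 n + m0 n ^ 3 * m2 n))
        rw [(hper n).d2]
        ring
      rw [h2]
      refine hjalg.mul (alg_mem ?_)
      exact sub_mem (pow_mem m_0 4) (add_mem (mul_mem (pow_mem m_0 3) m_2) (mul_mem (pow_mem m_0 3) m_2))
  -- the relation
  intro R hRel
  obtain ⟨F, hF⟩ : ∃ F, F = clr (toP R).totalDegree (fun _ : Unit => (MvPolynomial.X 0 : MvPolynomial (Fin 4) ℂ)) (Nr c)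
    (fun _ : Fin 4 => (MvPolynomial.X 2 : MvPolynomial (Fin 4) ℂ)) (toP R) := ⟨_, rfl⟩
  have hFe : ∀ (v y : Fin 4 → ℂ), y 0 * y 3 - y 2 * y 1 = 1 → v 2 ≠ 0 → v 2 = y 0 * c 0 0 + y 1 * c 1 0 →
      v 1 * v 2 = y 0 * c 0 1 + y 1 * c 1 1 → v 3 = y 2 * c 0 0 + y 3 * c 1 0 →
      MvPolynomial.aeval v F = (∏ _b : Fin 4, v 2 ^ (toP R).totalDegree) *
        MvPolynomial.eval₂ (Polynomial.aeval (v 0) : Polynomial ℚ →ₐ[ℚ] ℂ).toRingHom y R := by
    intro v y k1 k2 k3 k4 k5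
    rw [hF, clr_eval le_rfl v (fun b => by rw [MvPolynomial.aeval_X]; exact k2)]
    congr 1
    · refine Finset.prod_congr rfl fun b _ => ?_
      rw [MvPolynomial.aeval_X]
    · rw [← toP_eval]
      congr 2
      · funext o
        rcases o with o | b
        · rw [Sum.elim_inl, Sum.elim_inl, MvPolynomial.aeval_X]
        · rw [Sum.elim_inr, Sum.elim_inr]
          exact nr_eval hdet v y k1 k2 k3 k4 k5 b
  have hFz : F = 0 := by
    have h2 := (algebraicIndependent_iff.1 haI) F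
    refine h2 ?_
    rw [aeval_mkc, mk_eq_zero]
    refine Eventually.of_forall fun n => ?_
    rw [← MvPolynomial.aeval_eq_eval]
    rw [hFe (fun i => a i n) ![E n 0 0, E n 0 1, E n 1 0, E n 1 1] ?_ ?_ ?_ ?_ ?_]
    · have h3 := (Pool.Agent.Y475.AF.ev_aeval (hψ fun i j => (Z i j).subst Y) (xs n)
        (hcv (xs n) (by rw [hxs]; exact hs3 n)) R).2
      rw [hRel, Pool.Agent.Y916.Al.ev_zero] at h3
      have h4 : (fun j => evc (xs n) (hψ (fun i j => (Z i j).subst Y) j)) = ![E n 0 0, E n 0 1, E n 1 0, E n 1 1] := by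
        funext j
        rw [hE]
        fin_cases j <;> rfl
      rw [h4] at h3
      have h5 : a 0 n = xs n := by rw [ha]; rfl
      simp only [h5]
      rw [← h3, mul_zero]
    · show E n 0 0 * E n 1 1 - E n 1 0 * E n 0 1 = 1
      exact hdE n
    · show a 2 n ≠ 0
      rw [ha]
      exact (hper n).ne
    · show a 2 n = E n 0 0 * c 0 0 + E n 0 1 * c 1 0
      rw [ha]
      show m0 n = _
      rw [hm0]
    · show a 1 n * a 2 n = E n 0 0 * c 0 1 + E n 0 1 * c 1 1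
      rw [ha]
      exact (hper n).hz
    · show a 3 n = E n 1 0 * c 0 0 + E n 1 1 * c 1 0
      rw [ha]
      show m2 n = _
      rw [hm2]
  -- the points with nonzero first coordinate
  have hgood : ∀ y : Fin 4 → ℂ, y 0 * y 3 - y 2 * y 1 = 1 → y 0 * c 0 0 + y 1 * c 1 0 ≠ 0 →
      MvPolynomial.eval₂ (Polynomial.aeval x : Polynomial ℚ →ₐ[ℚ] ℂ).toRingHom y R = 0 := by
    intro y k1 k2
    have h2 := hFe ![x, (y 0 * c 0 1 + y 1 * c 1 1) / (y 0 * c 0 0 + y 1 * c 1 0), y 0 * c 0 0 + y 1 * c 1 0,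
      y 2 * c 0 0 + y 3 * c 1 0] y k1 k2 rfl (by
        show (y 0 * c 0 1 + y 1 * c 1 1) / (y 0 * c 0 0 + y 1 * c 1 0) * (y 0 * c 0 0 + y 1 * c 1 0) = _
        rw [div_mul_cancel₀ _ k2]) rfl
    rw [hFz, map_zero] at h2
    have h3 := mul_eq_zero.1 h2.symm
    refine h3.resolve_left (Finset.prod_ne_zero_iff.2 fun b _ => pow_ne_zero _ k2)
  -- density
  obtain ⟨hy0, hyd⟩ := hy
  obtain ⟨G, hGdef⟩ : ∃ G : Polynomial ℂ, G = MvPolynomial.eval₂
      ((Polynomial.C : ℂ →+* Polynomial ℂ).comp (Polynomial.aeval x : Polynomial ℚ →ₐ[ℚ] ℂ).toRingHom)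
      ![Polynomial.C (y 0), Polynomial.C (y 1) + Polynomial.X * Polynomial.C (y 0), Polynomial.C (y 2),
        Polynomial.C (y 3) + Polynomial.X * Polynomial.C (y 2)] R := ⟨_, rfl⟩
  have hGe : ∀ t : ℂ, G.eval t = MvPolynomial.eval₂ (Polynomial.aeval x : Polynomial ℚ →ₐ[ℚ] ℂ).toRingHom
      ![y 0, y 1 + t * y 0, y 2, y 3 + t * y 2] R := by
    intro t
    rw [hGdef, ← Polynomial.coe_evalRingHom, MvPolynomial.hom_eval₂]
    congr 1
    · refine RingHom.ext fun f => ?_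
      simp
    · funext i
      fin_cases i
      · simp
      · simp
        ring
      · simp
      · simp
        ring
  have hG0 : G = 0 := by
    refine Polynomial.eq_zero_of_infinite_isRoot G ?_
    have hfin : ({0}ᶜ : Set ℂ).Infinite := (Set.finite_singleton (0 : ℂ)).infinite_compl
    by_cases hc1 : y 0 * c 0 0 + y 1 * c 1 0 = 0
    · refine hfin.mono fun t ht => ?_
      show G.eval t = 0
      rw [hGe]
      refine hgood _ ?_ ?_
      · show y 0 * (y 3 + t * y 2) - y 2 * (y 1 + t * y 0) = 1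
        linear_combination hyd
      · show y 0 * c 0 0 + (y 1 + t * y 0) * c 1 0 ≠ 0
        have h2 : y 0 * c 0 0 + (y 1 + t * y 0) * c 1 0 = t * y 0 * c 1 0 := by linear_combination hc1
        rw [h2]
        have h3 : c 1 0 ≠ 0 := by
          intro h
          rw [h, mul_zero, add_zero] at hc1
          rcases mul_eq_zero.1 hc1 with h4 | h4
          · exact hy0 h4
          · rw [h, h4] at hdet
            simp at hdet
        exact mul_ne_zero (mul_ne_zero ht hy0) h3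
    · obtain ⟨ε, hε, hε'⟩ : ∃ ε : ℝ, 0 < ε ∧ ∀ t : ℂ, ‖t‖ < ε → y 0 * c 0 0 + (y 1 + t * y 0) * c 1 0 ≠ 0 := by
        have h2 : ContinuousAt (fun t : ℂ => y 0 * c 0 0 + (y 1 + t * y 0) * c 1 0) 0 := by fun_prop
        have h3 : ∀ᶠ t : ℂ in 𝓝 0, y 0 * c 0 0 + (y 1 + t * y 0) * c 1 0 ≠ 0 :=
          h2.eventually_ne (by simpa using hc1)
        obtain ⟨ε, hε, h4⟩ := Metric.eventually_nhds_iff.1 h3
        exact ⟨ε, hε, fun t ht => h4 (by rwa [dist_zero_right])⟩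
      have hinf : (Metric.ball (0 : ℂ) ε).Infinite := by
        refine Set.Infinite.mono ?_ (infinite_of_mem_nhds (0 : ℂ) (Metric.ball_mem_nhds 0 hε))
        exact le_refl _
      refine hinf.mono fun t ht => ?_
      show G.eval t = 0
      rw [hGe]
      refine hgood _ ?_ ?_
      · show y 0 * (y 3 + t * y 2) - y 2 * (y 1 + t * y 0) = 1
        linear_combination hyd
      · show y 0 * c 0 0 + (y 1 + t * y 0) * c 1 0 ≠ 0
        exact hε' t (by rwa [Metric.mem_ball, dist_zero_right] at ht)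
  have h2 := hGe 0
  rw [hG0, Polynomial.eval_zero] at h2
  have h3 : (![y 0, y 1 + 0 * y 0, y 2, y 3 + 0 * y 2] : Fin 4 → ℂ) = y := by
    funext i
    fin_cases i <;> simp
  rw [h3] at h2
  exact h2.symm

end Pool.Agent.W5h27.ES
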