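import Pool.Agent.W5h27.ES.Glo
import Pool.Agent.Y771.KF.MSP
import Pool.Agent.Y118.UL.Ger

/-!
# Surjectivity of the modular invariant; algebraic independence
-/

set_option autoImplicit false

open Filter Topology

namespace Pool.Agent.W5h27.ES

open Pool.Agent.TH21.MS (jj jj_an jet4)
open Pool.Agent.Y118.UL

theorem jj_not_const {w : ℂ} (h : ∀ z : ℂ, 0 < z.im → jj z = w) : False := by
  by_cases hw : w = 0
  · obtain ⟨Y, hY1, hY⟩ := Pool.Agent.Y319.J.small (ε := 1) one_pos
    have h1 := hY (Complex.I * Y) (by simp)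
    exact h1.1 (by rw [h _ (by simp; linarith), hw])
  · obtain ⟨Y, hY1, hY⟩ := Pool.Agent.Y319.J.small (ε := ‖1 / w‖) (norm_pos_iff.2 (one_div_ne_zero hw))
    have h1 := hY (Complex.I * Y) (by simp)
    have h2 := h1.2
    rw [h _ (by simp; linarith)] at h2
    exact lt_irrefl _ h2

theorem jj_open {s : Set ℂ} (hs : s ⊆ {z : ℂ | 0 < z.im}) (ho : IsOpen s) : IsOpen (jj '' s) := by
  have han : AnalyticOnNhd ℂ jj {z : ℂ | 0 < z.im} := fun z hz => jj_an z hz
  rcases han.is_constant_or_isOpen (convex_halfSpace_im_gt 0).isPreconnected with h | h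
  · obtain ⟨w, hw⟩ := h
    exact absurd hw fun h => jj_not_const h
  · exact h s hs ho

theorem jj_surj (w : ℂ) : ∃ z : ℂ, 0 < z.im ∧ jj z = w := by
  obtain ⟨S, hS⟩ : ∃ S : Set ℂ, S = jj '' {z : ℂ | 0 < z.im} := ⟨_, rfl⟩
  have hopen : IsOpen S := by
    rw [hS]
    exact jj_open (le_refl _) UpperHalfPlane.isOpen_upperHalfPlaneSet
  have hclosed : IsClosed S := by
    rw [← isSeqClosed_iff_isClosed]
    intro f u hf hu
    -- the values are bounded
    obtain ⟨B, hB⟩ := hu.norm.bddAbove_range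
    obtain ⟨Y, hY1, hY⟩ := Pool.Agent.Y319.J.small (ε := 1 / (|B| + 1)) (by positivity)
    have hK : IsCompact (Set.Icc (-(1 / 2) : ℝ) (1 / 2) ×ℂ Set.Icc (1 / 2 : ℝ) Y) :=
      isCompact_Icc.reProdIm isCompact_Icc
    have hc : ContinuousOn jj (Set.Icc (-(1 / 2) : ℝ) (1 / 2) ×ℂ Set.Icc (1 / 2 : ℝ) Y) := by
      intro z hz
      have h1 : (1 / 2 : ℝ) ≤ z.im := hz.2.1
      exact (jj_an z (by linarith)).continuousAt.continuousWithinAt
    have hcl := (hK.image_of_continuousOn hc).isClosed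
    have hmem : ∀ n, f n ∈ jj '' (Set.Icc (-(1 / 2) : ℝ) (1 / 2) ×ℂ Set.Icc (1 / 2 : ℝ) Y) := by
      intro n
      have h1 := hf n
      rw [hS] at h1
      obtain ⟨z, hz, hzf⟩ := h1
      obtain ⟨g, hg⟩ := ModularGroup.exists_smul_mem_fd ⟨z, hz⟩
      obtain ⟨w, hw⟩ : ∃ w : UpperHalfPlane, w = g • (⟨z, hz⟩ : UpperHalfPlane) := ⟨_, rfl⟩
      rw [← hw] at hg
      have hjw : jj w = f n := by
        rw [hw, ← hzf]
        exact Pool.Agent.Y988.J.jj_inv g ⟨z, hz⟩
      have him : 1 / 2 ≤ w.im := by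
        have h1 := ModularGroup.three_le_four_mul_im_sq_of_mem_fd hg
        have h2 := w.im_pos
        nlinarith
      have himY : w.im ≤ Y := by
        by_contra hcon
        push Not at hcon
        obtain ⟨h1, h2⟩ := hY (w : ℂ) hcon.le
        rw [hjw] at h1 h2
        have h3 : ‖f n‖ ≤ B := hB ⟨n, rfl⟩
        have h4 : 0 < ‖f n‖ := norm_pos_iff.2 h1
        rw [norm_div, norm_one, div_lt_div_iff₀ h4 (by positivity)] at h2
        linarith [le_abs_self B]
      exact ⟨w, ⟨⟨(abs_le.1 hg.2).1, (abs_le.1 hg.2).2⟩, ⟨him, himY⟩⟩, hjw⟩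
    have h2 := hcl.mem_of_tendsto hu (Eventually.of_forall hmem)
    obtain ⟨z, hz, hzu⟩ := h2
    have h1 : (1 / 2 : ℝ) ≤ z.im := hz.2.1
    rw [hS]
    exact ⟨z, show 0 < z.im by linarith, hzu⟩
  have hne : S.Nonempty := by
    rw [hS]
    exact ⟨jj Complex.I, Complex.I, by simp, rfl⟩
  have h1 : S = Set.univ := IsClopen.eq_univ ⟨hclosed, hopen⟩ hne
  have h2 : w ∈ S := by
    rw [h1]
    exact Set.mem_univ w
  rw [hS] at h2
  obtain ⟨z, hz, hzw⟩ := h2
  exact ⟨z, hz, hzw⟩

/-- generators of a field of transcendence degree `n` -/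
theorem ind_of {Ω : Type} [Field Ω] [Algebra ℂ Ω] {n : ℕ} {a b : Fin n → Ω} (hb : AlgebraicIndependent ℂ b)
    (h : ∀ i, IsAlgebraic (Algebra.adjoin ℂ (Set.range a)) (b i)) : AlgebraicIndependent ℂ a := by
  classical
  obtain ⟨M, hM⟩ : ∃ M, M = AlgebraicIndependent.matroid ℂ Ω := ⟨_, rfl⟩
  have hbI : M.Indep (Set.range b) := by
    rw [hM]
    exact hb.to_subtype_range
  have hbc : (Set.range b).encard = n := by
    rw [← Set.image_univ, hb.injective.encard_image]
    simp
  have hsub : Set.range b ⊆ M.closure (Set.range a) := by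
    rintro _ ⟨i, rfl⟩
    rw [hM, AlgebraicIndependent.matroid_closure_eq]
    exact h i
  have hac : (Set.range a).encard ≤ n := by
    rw [← Set.image_univ]
    refine (Set.encard_image_le _ _).trans ?_
    simp
  have h1 : (n : ℕ∞) ≤ M.eRk (Set.range a) := by
    rw [← hbc, ← hbI.eRk_eq_encard, ← M.eRk_closure_eq (Set.range a)]
    exact M.eRk_mono hsub
  have h2 : M.eRk (Set.range a) ≤ (Set.range a).encard := M.eRk_le_encard _
  have h3 : (Set.range a).encard = n := le_antisymm hac (h1.trans h2)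
  have hI : M.Indep (Set.range a) := by
    rw [Matroid.indep_iff_eRk_eq_encard_of_finite (Set.finite_range a)]
    exact le_antisymm h2 (by rw [h3]; exact h1)
  have hinj : Function.Injective a := by
    have h4 : ((Finset.univ : Finset (Fin n)).image a).card = (Finset.univ : Finset (Fin n)).card := by
      have h5 : ((Finset.univ.image a : Finset Ω) : Set Ω) = Set.range a := by simp
      have h6 : (Set.range a).encard = ((Finset.univ.image a).card : ℕ∞) := by
        rw [← h5, Set.encard_coe_eq_coe_finsetCard]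
      rw [h3] at h6
      have h7 : n = (Finset.univ.image a).card := by exact_mod_cast h6
      rw [← h7]
      simp
    have h5 := Finset.card_image_iff.1 h4
    intro x y hxy
    exact h5 (by simp) (by simp) hxy
  rw [← algebraicIndependent_subtype_range hinj]
  rw [hM] at hI
  exact hI

noncomputable instance algU : Algebra ℂ (U ℂ) := ((mk ℂ).comp (Pi.constRingHom ℕ ℂ)).toAlgebra

lemma algU_apply (c : ℂ) : algebraMap ℂ (U ℂ) c = mk ℂ (fun _ => c) := rfl

lemma aeval_mkc {σ : Type} (v : σ → ℕ → ℂ) (P : MvPolynomial σ ℂ) :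
    MvPolynomial.aeval (fun i => mk ℂ (v i)) P = mk ℂ (fun n => MvPolynomial.eval (fun i => v i n) P) := by
  induction P using MvPolynomial.induction_on with
  | C a =>
    rw [MvPolynomial.aeval_C, algU_apply]
    congr 1
    funext n
    rw [MvPolynomial.eval_C]
  | add p q hp hq =>
    rw [map_add, hp, hq, ← map_add]
    congr 1
    funext n
    simp
  | mul_X p i hp =>
    rw [map_mul, hp, MvPolynomial.aeval_X, ← map_mul]
    congr 1
    funext n
    simp

/-- `z`, `j`, `j'`, `j''` as numbers -/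
noncomputable def four (z : ℂ) : Fin 4 → ℂ := ![z, jj z, deriv jj z, deriv (deriv jj) z]

theorem four_ind {P : MvPolynomial (Fin 4) ℂ} (h : ∀ z : ℂ, 0 < z.im → MvPolynomial.eval (four z) P = 0) : P = 0 := by
  have h1 := Pool.Agent.Y771.KF.fP_ind (p := 1) (fun _ => (1 : ℝ)) (fun _ => one_pos) (fun c hc => by
    funext i
    have h2 : (c 0 : ℝ) = 0 := by simpa using hc
    have h3 : i = 0 := Subsingleton.elim _ _
    rw [h3]
    exact_mod_cast h2)
  obtain ⟨e, he⟩ : ∃ e : Fin 4 → Option (Fin 1 × Fin 4), e = ![none, some (0, 1), some (0, 2), some (0, 3)] := ⟨_, rfl⟩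
  have hinj : Function.Injective e := by
    rw [he]
    intro i j hij
    fin_cases i <;> fin_cases j <;> simp_all
  have h2 := h1 (MvPolynomial.rename e P) (fun z hz => by
    rw [MvPolynomial.eval_rename]
    refine Eq.trans ?_ (h z hz)
    congr 2
    funext i
    rw [he]
    fin_cases i
    · rfl
    · show jj (((1 : ℝ) : ℂ) * z) = jj z
      rw [Complex.ofReal_one, one_mul]
    · show deriv jj (((1 : ℝ) : ℂ) * z) = deriv jj z
      rw [Complex.ofReal_one, one_mul]
    · show deriv (deriv jj) (((1 : ℝ) : ℂ) * z) = deriv (deriv jj) z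
      rw [Complex.ofReal_one, one_mul])
  exact (MvPolynomial.rename_injective e hinj) (by rw [h2, map_zero])

/-- the germs along a sequence of points are independent -/
theorem germ_ind {p₀ : ℂ} (hp : 0 < p₀.im) {z : ℕ → ℂ} (hz : Tendsto z atTop (𝓝 p₀)) (hne : ∀ n, z n ≠ p₀) :
    AlgebraicIndependent ℂ (fun i : Fin 4 => mk ℂ (fun n => four (z n) i)) := by
  rw [algebraicIndependent_iff]
  intro P hP
  rw [aeval_mkc, mk_eq_zero] at hP
  apply four_ind
  have han : AnalyticOnNhd ℂ (fun z => MvPolynomial.eval (four z) P) {z : ℂ | 0 < z.im} := by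
    intro w hw
    have hj := jj_an w hw
    have h4 : ∀ i, AnalyticAt ℂ (fun z => four z i) w := by
      intro i
      fin_cases i
      · exact analyticAt_id
      · exact hj
      · exact hj.deriv
      · exact hj.deriv.deriv
    have h5 : (fun z => MvPolynomial.eval (four z) P) = fun z => MvPolynomial.aeval (four z) P := by
      funext z
      rw [MvPolynomial.aeval_eq_eval]
    rw [h5]
    exact AnalyticAt.aeval_mvPolynomial h4 P
  have hfr : ∃ᶠ w in 𝓝[≠] p₀, MvPolynomial.eval (four w) P = 0 := by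
    rw [frequently_iff]
    intro V hV
    have h6 : Tendsto z atTop (𝓝[≠] p₀) := tendsto_nhdsWithin_iff.2 ⟨hz, Eventually.of_forall hne⟩
    have h7 : ∀ᶠ n in (hyperfilter ℕ : Filter ℕ), z n ∈ V := by
      have h8 : ∀ᶠ n in atTop, z n ∈ V := h6 hV
      obtain ⟨N, hN⟩ := eventually_atTop.1 h8
      filter_upwards [ev_ge N] with n hn using hN n hn
    obtain ⟨n, hn1, hn2⟩ := (h7.and hP).exists
    exact ⟨z n, hn1, hn2⟩
  intro w hw
  exact han.eqOn_zero_of_preconnected_of_frequently_eq_zero (convex_halfSpace_im_gt 0).isPreconnected hp hfr hw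

end Pool.Agent.W5h27.ES
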