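import Pool.Agent.W5h27.ES.Hrt
import Pool.Agent.Y120.A.All

/-!
# Almost all tuples of points with `j(z_i) = p(1/β_i) / q(1/β_i)`
-/

set_option autoImplicit false

open Module PowerSeries

namespace Pool.Agent.W5h27.ES

open Pool.Agent.Y916.Al (evc Cvc)
open Pool.Agent.TH21.MS (jj jj_an)
open Pool.Agent.Y120.A (Q4 YJ T_IRR fld aeval_incl deg_incl aint_alg)
open Pool.Agent.Y916.Af (Vc GFs ptc ExcT coeff_sub deg_sub eval_sub tupT2s nrh_of_gfs small_tuples)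
open Pool.Agent.Y120.K (clr clr_eval clr_deg)
open Pool.Agent.Y916

/-- the index type of the variables: constants, periods, functions -/
abbrev Vt (q k : ℕ) : Type := (Fin q ⊕ Fin k × (Fin 2 × Fin 2)) ⊕ Fin k × Option (Fin 4)

/-- the numbers `z`, `j'(z)`, `j''(z)`, `ℓ` -/
noncomputable def nu (z ℓ : ℂ) : Fin 4 → ℂ := ![z, deriv jj z, deriv (deriv jj) z, ℓ]

/-- the constants -/
def con {q k : ℕ} (w : Fin q → ℂ) (c : Fin k → Fin 2 → Fin 2 → ℂ) : Fin q ⊕ Fin k × (Fin 2 × Fin 2) → ℂ :=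
  Sum.elim w fun a => c a.1 a.2.1 a.2.2

section
variable {q k : ℕ} (K : IntermediateField ℚ ℂ)

/-- the first period -/
noncomputable def Uq (a b : Fin 2) (s t : Fin 4) (i : Fin k) : MvPolynomial (Vt q k) K :=
  MvPolynomial.X (Sum.inr (i, some s)) * MvPolynomial.X (Sum.inl (Sum.inr (i, (0, a)))) +
    MvPolynomial.X (Sum.inr (i, some t)) * MvPolynomial.X (Sum.inl (Sum.inr (i, (1, b))))

/-- the numerators -/
noncomputable def Nt (t : K) (i : Fin k) : Fin 4 → MvPolynomial (Vt q k) K :=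
  ![Uq K 1 1 0 1 i, MvPolynomial.C (-t) * Uq K 0 0 0 1 i ^ 2,
    MvPolynomial.C t * (Uq K 0 0 0 1 i ^ 4 - MvPolynomial.C 2 * (Uq K 0 0 0 1 i ^ 3 * Uq K 0 0 2 3 i)),
    MvPolynomial.X (Sum.inr (i, none))]

/-- the denominators -/
noncomputable def Mt (i : Fin k) : Fin 4 → MvPolynomial (Vt q k) K := ![Uq K 0 0 0 1 i, 1, 1, 1]

variable {K}

lemma tX {σ : Type} (i : σ) : (MvPolynomial.X i : MvPolynomial σ K).totalDegree ≤ 1 := by
  rw [MvPolynomial.totalDegree_X]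

lemma tC {σ : Type} (c : K) : (MvPolynomial.C c : MvPolynomial σ K).totalDegree ≤ 0 := by
  rw [MvPolynomial.totalDegree_C]

lemma tmul {σ : Type} {f g : MvPolynomial σ K} {a b c : ℕ} (hf : f.totalDegree ≤ a) (hg : g.totalDegree ≤ b)
    (h : a + b ≤ c) : (f * g).totalDegree ≤ c :=
  (MvPolynomial.totalDegree_mul _ _).trans ((Nat.add_le_add hf hg).trans h)

lemma tadd {σ : Type} {f g : MvPolynomial σ K} {c : ℕ} (hf : f.totalDegree ≤ c) (hg : g.totalDegree ≤ c) :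
    (f + g).totalDegree ≤ c :=
  (MvPolynomial.totalDegree_add _ _).trans (max_le hf hg)

lemma tsub {σ : Type} {f g : MvPolynomial σ K} {c : ℕ} (hf : f.totalDegree ≤ c) (hg : g.totalDegree ≤ c) :
    (f - g).totalDegree ≤ c :=
  (MvPolynomial.totalDegree_sub _ _).trans (max_le hf hg)

lemma tpow {σ : Type} {f : MvPolynomial σ K} {a c : ℕ} (hf : f.totalDegree ≤ a) (n : ℕ) (h : n * a ≤ c) :
    (f ^ n).totalDegree ≤ c :=
  (MvPolynomial.totalDegree_pow _ _).trans ((Nat.mul_le_mul_left _ hf).trans h)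

lemma Uq_deg (a b : Fin 2) (s t : Fin 4) (i : Fin k) : (Uq (q := q) K a b s t i).totalDegree ≤ 2 :=
  tadd (tmul (tX _) (tX _) (by norm_num)) (tmul (tX _) (tX _) (by norm_num))

lemma Nt_deg (t : K) (i : Fin k) (j : Fin 4) : (Nt (q := q) K t i j).totalDegree ≤ 8 := by
  fin_cases j
  · exact (Uq_deg _ _ _ _ _).trans (by norm_num)
  · exact tmul (tC _) (tpow (c := 8) (Uq_deg _ _ _ _ _) 2 (by norm_num)) (by norm_num)
  · refine tmul (b := 8) (tC _) (tsub (tpow (Uq_deg _ _ _ _ _) 4 (by norm_num)) ?_) (by norm_num)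
    exact tmul (b := 8) (tC _) (tmul (tpow (c := 6) (Uq_deg _ _ _ _ _) 3 (by norm_num)) (Uq_deg _ _ _ _ _)
      (by norm_num)) (by norm_num)
  · exact (tX _).trans (by norm_num)

lemma Mt_deg (i : Fin k) (j : Fin 4) : (Mt (q := q) K i j).totalDegree ≤ 8 := by
  have h1 : (1 : MvPolynomial (Vt q k) K).totalDegree ≤ 8 := by
    rw [MvPolynomial.totalDegree_one]
    norm_num
  fin_cases j
  · exact (Uq_deg _ _ _ _ _).trans (by norm_num)
  · exact h1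
  · exact h1
  · exact h1

lemma Uq_eval (w : Fin q → ℂ) (c : Fin k → Fin 2 → Fin 2 → ℂ) (y : Fin k × Option (Fin 4) → ℂ) (a b : Fin 2)
    (s t : Fin 4) (i : Fin k) : MvPolynomial.aeval (Sum.elim (con w c) y) (Uq K a b s t i) =
      y (i, some s) * c i 0 a + y (i, some t) * c i 1 b := by
  unfold Uq
  rw [map_add, map_mul, map_mul, MvPolynomial.aeval_X, MvPolynomial.aeval_X, MvPolynomial.aeval_X, MvPolynomial.aeval_X]
  rfl

/-- the values of the numerators -/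
noncomputable def nt (t : ℂ) (c : Fin 2 → Fin 2 → ℂ) (v : Option (Fin 4) → ℂ) : Fin 4 → ℂ :=
  ![v (some 0) * c 0 1 + v (some 1) * c 1 1, -t * (v (some 0) * c 0 0 + v (some 1) * c 1 0) ^ 2,
    t * ((v (some 0) * c 0 0 + v (some 1) * c 1 0) ^ 4 - 2 * ((v (some 0) * c 0 0 + v (some 1) * c 1 0) ^ 3 *
      (v (some 2) * c 0 0 + v (some 3) * c 1 0))), v none]

/-- the values of the denominators -/
noncomputable def mt (c : Fin 2 → Fin 2 → ℂ) (v : Option (Fin 4) → ℂ) : Fin 4 → ℂ :=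
  ![v (some 0) * c 0 0 + v (some 1) * c 1 0, 1, 1, 1]

lemma Nt_eval (w : Fin q → ℂ) (c : Fin k → Fin 2 → Fin 2 → ℂ) (y : Fin k × Option (Fin 4) → ℂ) (t : K) (i : Fin k)
    (j : Fin 4) : MvPolynomial.aeval (Sum.elim (con w c) y) (Nt K t i j) = nt t (c i) (fun o => y (i, o)) j := by
  fin_cases j
  · exact Uq_eval w c y 1 1 0 1 i
  · show MvPolynomial.aeval (Sum.elim (con w c) y) (MvPolynomial.C (-t) * Uq K 0 0 0 1 i ^ 2) = -(t : ℂ) * _ ^ 2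
    rw [map_mul, map_pow, Uq_eval, MvPolynomial.aeval_C, map_neg]
    rfl
  · show MvPolynomial.aeval (Sum.elim (con w c) y) (MvPolynomial.C t * (Uq K 0 0 0 1 i ^ 4 - MvPolynomial.C 2 *
      (Uq K 0 0 0 1 i ^ 3 * Uq K 0 0 2 3 i))) = (t : ℂ) * (_ ^ 4 - 2 * (_ ^ 3 * _))
    rw [map_mul, map_sub, map_mul, map_mul, map_pow, map_pow, Uq_eval, Uq_eval, MvPolynomial.aeval_C,
      MvPolynomial.aeval_C, map_ofNat]
    rfl
  · show MvPolynomial.aeval (Sum.elim (con w c) y) (MvPolynomial.X (Sum.inr (i, none))) = y (i, none)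
    rw [MvPolynomial.aeval_X]
    rfl

lemma Mt_eval (w : Fin q → ℂ) (c : Fin k → Fin 2 → Fin 2 → ℂ) (y : Fin k × Option (Fin 4) → ℂ) (i : Fin k)
    (j : Fin 4) : MvPolynomial.aeval (Sum.elim (con w c) y) (Mt K i j) = mt (c i) (fun o => y (i, o)) j := by
  fin_cases j
  · exact Uq_eval w c y 0 0 0 1 i
  · exact map_one _
  · exact map_one _
  · exact map_one _

/-- the transformed relation -/
noncomputable def Ptr (δ : ℕ) (J : Fin k → K) (P : MvPolynomial (Fin q ⊕ Fin k × Fin 4) K) : MvPolynomial (Vt q k) K :=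
  clr δ (fun o => MvPolynomial.X (Sum.inl (Sum.inl o))) (fun v : Fin k × Fin 4 => Nt K (J v.1) v.1 v.2)
    (fun v : Fin k × Fin 4 => Mt K v.1 v.2) P

/-- the degree -/
def de (q k δ : ℕ) : ℕ := Fintype.card (Fin q) * (δ * 8) + Fintype.card (Fin k × Fin 4) * (δ * 8)

lemma Ptr_deg {δ : ℕ} {J : Fin k → K} {P : MvPolynomial (Fin q ⊕ Fin k × Fin 4) K} (hP : P.totalDegree ≤ δ) :
    (Ptr δ J P).totalDegree ≤ de q k δ :=
  clr_deg hP (fun _ => (tX _).trans (by norm_num)) (fun _ => Nt_deg _ _ _) fun _ => Mt_deg _ _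

lemma Ptr_eval {δ : ℕ} {J : Fin k → K} {P : MvPolynomial (Fin q ⊕ Fin k × Fin 4) K} (hP : P.totalDegree ≤ δ)
    (w : Fin q → ℂ) (c : Fin k → Fin 2 → Fin 2 → ℂ) (y : Fin k × Option (Fin 4) → ℂ) (u : Fin k × Fin 4 → ℂ)
    (hM : ∀ i : Fin k, y (i, some 0) * c i 0 0 + y (i, some 1) * c i 1 0 ≠ 0)
    (hu : ∀ v : Fin k × Fin 4, u v = nt (J v.1) (c v.1) (fun o => y (v.1, o)) v.2 / mt (c v.1) (fun o => y (v.1, o)) v.2) :
    MvPolynomial.aeval (Sum.elim (con w c) y) (Ptr δ J P) = 0 ↔ MvPolynomial.aeval (Sum.elim w u) P = 0 := by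
  have hM' : ∀ v : Fin k × Fin 4, mt (c v.1) (fun o => y (v.1, o)) v.2 ≠ 0 := by
    rintro ⟨i, j⟩
    fin_cases j
    · exact hM i
    · exact one_ne_zero
    · exact one_ne_zero
    · exact one_ne_zero
  unfold Ptr
  rw [clr_eval hP _ fun b => by
    rw [Mt_eval]
    exact hM' b]
  have h1 : (Sum.elim (fun a => MvPolynomial.aeval (Sum.elim (con w c) y) (MvPolynomial.X (Sum.inl (Sum.inl a)) :
      MvPolynomial (Vt q k) K)) fun v : Fin k × Fin 4 => MvPolynomial.aeval (Sum.elim (con w c) y)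
        (Nt K (J v.1) v.1 v.2) / MvPolynomial.aeval (Sum.elim (con w c) y) (Mt K v.1 v.2)) = Sum.elim w u := by
    funext o
    rcases o with o | v
    · rw [Sum.elim_inl, Sum.elim_inl, MvPolynomial.aeval_X]
      rfl
    · rw [Sum.elim_inr, Sum.elim_inr, Nt_eval, Mt_eval, hu]
  rw [h1, mul_eq_zero]
  refine ⟨fun h => h.resolve_left (Finset.prod_ne_zero_iff.2 fun b _ => pow_ne_zero _ ?_), Or.inr⟩
  rw [Mt_eval]
  exact hM' b

end

/-- all values are taken on the quadric -/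
lemma exists_v {t : ℂ} (ht : t ≠ 0) {c : Fin 2 → Fin 2 → ℂ} (hc : c 0 0 * c 1 1 - c 0 1 * c 1 0 = 1) (u : Fin 4 → ℂ)
    (h1 : u 1 ≠ 0) (h2 : c 1 1 - u 0 * c 1 0 ≠ 0) : ∃ v : Option (Fin 4) → ℂ, v (some 0) ≠ 0 ∧
      v (some 0) * v (some 3) - v (some 2) * v (some 1) = 1 ∧ v (some 0) * c 0 0 + v (some 1) * c 1 0 ≠ 0 ∧
      ∀ j, u j = nt t c v j / mt c v j := by
  obtain ⟨U, hU⟩ := IsAlgClosed.exists_pow_nat_eq (-(u 1) / t) (show 0 < 2 by norm_num)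
  have hU0 : U ≠ 0 := by
    intro h
    rw [h] at hU
    have h3 : -(u 1) / t ≠ 0 := div_ne_zero (neg_ne_zero.2 h1) ht
    exact h3 (by rw [← hU]; ring)
  have hU' : t * U ^ 2 = -(u 1) := by
    rw [hU]
    field_simp
  obtain ⟨V, hV⟩ : ∃ V : ℂ, V = (U ^ 4 - u 2 / t) / (2 * U ^ 3) := ⟨_, rfl⟩
  have hV' : t * (U ^ 4 - 2 * (U ^ 3 * V)) = u 2 := by
    rw [hV]
    field_simp
    ring
  obtain ⟨U1, hU1⟩ : ∃ U1 : ℂ, U1 = u 0 * U := ⟨_, rfl⟩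
  obtain ⟨V1, hV1⟩ : ∃ V1 : ℂ, V1 = (1 + U1 * V) / U := ⟨_, rfl⟩
  have hd : U * V1 - U1 * V = 1 := by
    rw [hV1]
    field_simp
    ring
  obtain ⟨v, hv⟩ : ∃ v : Option (Fin 4) → ℂ, v = fun o => o.elim (u 3) ![U * c 1 1 - U1 * c 1 0, U1 * c 0 0 - U * c 0 1,
    V * c 1 1 - V1 * c 1 0, V1 * c 0 0 - V * c 0 1] := ⟨_, rfl⟩
  have v0 : v (some 0) = U * c 1 1 - U1 * c 1 0 := by rw [hv]; rfl
  have v1 : v (some 1) = U1 * c 0 0 - U * c 0 1 := by rw [hv]; rfl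
  have v2 : v (some 2) = V * c 1 1 - V1 * c 1 0 := by rw [hv]; rfl
  have v3 : v (some 3) = V1 * c 0 0 - V * c 0 1 := by rw [hv]; rfl
  have vn : v none = u 3 := by rw [hv]; rfl
  have e0 : v (some 0) * c 0 0 + v (some 1) * c 1 0 = U := by
    rw [v0, v1]
    linear_combination U * hc
  have e1 : v (some 0) * c 0 1 + v (some 1) * c 1 1 = U1 := by
    rw [v0, v1]
    linear_combination U1 * hc
  have e2 : v (some 2) * c 0 0 + v (some 3) * c 1 0 = V := by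
    rw [v2, v3]
    linear_combination V * hc
  refine ⟨v, ?_, ?_, ?_, fun j => ?_⟩
  · rw [v0, hU1]
    have h3 : U * c 1 1 - u 0 * U * c 1 0 = U * (c 1 1 - u 0 * c 1 0) := by ring
    rw [h3]
    exact mul_ne_zero hU0 h2
  · rw [v0, v1, v2, v3]
    linear_combination (c 0 0 * c 1 1 - c 0 1 * c 1 0) * hd + hc
  · rw [e0]
    exact hU0
  · fin_cases j
    · show u 0 = (v (some 0) * c 0 1 + v (some 1) * c 1 1) / (v (some 0) * c 0 0 + v (some 1) * c 1 0)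
      rw [e0, e1, hU1]
      field_simp
    · show u 1 = -t * (v (some 0) * c 0 0 + v (some 1) * c 1 0) ^ 2 / 1
      rw [e0]
      linear_combination hU'
    · show u 2 = t * ((v (some 0) * c 0 0 + v (some 1) * c 1 0) ^ 4 - 2 * ((v (some 0) * c 0 0 + v (some 1) * c 1 0) ^ 3 *
        (v (some 2) * c 0 0 + v (some 3) * c 1 0))) / 1
      rw [e0, e2, div_one, hV']
    · show u 3 = v none / 1
      rw [vn, div_one]

/-- the points where the conditions hold are dense -/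
lemma dense4 {k : ℕ} {c : Fin k → Fin 2 → Fin 2 → ℂ} (hc : ∀ i, c i 0 0 * c i 1 1 - c i 0 1 * c i 1 0 = 1)
    {p : MvPolynomial (Fin k × Fin 4) ℂ} (hp : p ≠ 0) : ∃ u : Fin k × Fin 4 → ℂ,
      (∀ i, u (i, 1) ≠ 0 ∧ c i 1 1 - u (i, 0) * c i 1 0 ≠ 0) ∧ MvPolynomial.eval u p ≠ 0 := by
  have h1 : p * ∏ i : Fin k, ((MvPolynomial.X (i, 1) : MvPolynomial (Fin k × Fin 4) ℂ) *
      (MvPolynomial.C (c i 1 1) - MvPolynomial.X (i, 0) * MvPolynomial.C (c i 1 0))) ≠ 0 := by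
    refine mul_ne_zero hp (Finset.prod_ne_zero_iff.2 fun i _ => mul_ne_zero (MvPolynomial.X_ne_zero _) fun h => ?_)
    -- evaluate at a suitable point
    by_cases h10 : c i 1 0 = 0
    · have h2 := congrArg (MvPolynomial.eval (fun _ => (0 : ℂ))) h
      simp only [map_sub, map_mul, MvPolynomial.eval_X, MvPolynomial.eval_C, map_zero, zero_mul, sub_zero] at h2
      have h3 := hc i
      rw [h10, h2] at h3
      simp at h3
    · have h2 := congrArg (MvPolynomial.eval (fun _ => ((c i 1 1 - 1) / c i 1 0))) h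
      simp only [map_sub, map_mul, MvPolynomial.eval_X, MvPolynomial.eval_C, map_zero] at h2
      rw [div_mul_cancel₀ _ h10] at h2
      simp at h2
  obtain ⟨u, hu⟩ : ∃ u, MvPolynomial.eval u (p * ∏ i : Fin k, ((MvPolynomial.X (i, 1) : MvPolynomial (Fin k × Fin 4) ℂ) *
      (MvPolynomial.C (c i 1 1) - MvPolynomial.X (i, 0) * MvPolynomial.C (c i 1 0)))) ≠ 0 := by
    by_contra hcon
    push Not at hcon
    exact h1 (MvPolynomial.funext fun u => by rw [hcon u, map_zero])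
  rw [map_mul, map_prod] at hu
  refine ⟨u, fun i => ?_, left_ne_zero_of_mul hu⟩
  have h2 := Finset.prod_ne_zero_iff.1 (right_ne_zero_of_mul hu) i (Finset.mem_univ i)
  simp only [map_sub, map_mul, MvPolynomial.eval_X, MvPolynomial.eval_C] at h2
  exact ⟨left_ne_zero_of_mul h2, right_ne_zero_of_mul h2⟩

/-- the tuples with a relation -/
def ExcR (p q' : Polynomial ℤ) (δ d : ℕ) {q k : ℕ} (w : Fin q → ℂ) (β : Fin k → ℂ) : Prop :=
  ∃ (z : Fin k → UpperHalfPlane) (ℓ : Fin k → ℂ),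
    (∀ i, jj (z i) = Polynomial.aeval (1 / β i) p / Polynomial.aeval (1 / β i) q') ∧ (∀ i, Complex.exp (ℓ i) = β i) ∧
    ∃ L : IntermediateField ℚ ℂ, FiniteDimensional ℚ L ∧ finrank ℚ L ≤ d ∧
    ∃ P : MvPolynomial (Fin q ⊕ Fin k × Fin 4) L, P.totalDegree ≤ δ ∧
      MvPolynomial.aeval (Sum.elim w fun v : Fin k × Fin 4 => nu (z v.1) (ℓ v.1) v.2) P = 0 ∧
      ∃ u, MvPolynomial.aeval (Sum.elim w u) P ≠ 0

/-- the space of the constants -/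
noncomputable def Wd {q : ℕ} (w : Fin q → ℂ) (W : Submodule ℚ ℂ) : Submodule ℚ ℂ :=
  Submodule.span ℚ (Set.range fun o : Option (Fin q) => o.elim 1 w) ⊔ W

lemma Wd_fin {q : ℕ} (w : Fin q → ℂ) (W : Submodule ℚ ℂ) [Module.Finite ℚ W] : Module.Finite ℚ (Wd w W) := by
  haveI : Module.Finite ℚ (Submodule.span ℚ (Set.range fun o : Option (Fin q) => o.elim 1 w)) :=
    Module.Finite.span_of_finite ℚ (Set.finite_range _)
  unfold Wd
  infer_instance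

lemma Wd_rank {q : ℕ} (w : Fin q → ℂ) (W : Submodule ℚ ℂ) [Module.Finite ℚ W] (n : ℕ) :
    Module.Finite ℚ ↥(Wd w W ^ n) ∧ finrank ℚ ↥(Wd w W ^ n) ≤ (q + 1 + finrank ℚ W) ^ n := by
  haveI := Wd_fin w W
  obtain ⟨h1, h2⟩ := Pool.Agent.Y916.Om.finrank_pow_le (Wd w W) n
  refine ⟨h1, h2.trans (Nat.pow_le_pow_left ?_ n)⟩
  haveI : Module.Finite ℚ (Submodule.span ℚ (Set.range fun o : Option (Fin q) => o.elim 1 w)) :=
    Module.Finite.span_of_finite ℚ (Set.finite_range _)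
  unfold Wd
  refine (Submodule.finrank_add_le_finrank_add_finrank _ _).trans (Nat.add_le_add_right ?_ _)
  refine (finrank_range_le_card _).trans ?_
  simp

theorem incR {p q' : Polynomial ℤ} {ψ : Fin 2 → Fin 2 → ℚ⟦X⟧}
    (hV : ∀ (x : ℂ) (y : Fin 4 → ℂ), y ∈ Q4 → y ∈ Vc (hψ ψ) x) {W : Submodule ℚ ℂ} {r : ℝ} (hr : 0 < r)
    (hx : ∀ x : ℂ, ‖x‖ < r → Polynomial.aeval x q' ≠ 0 ∧ Polynomial.aeval x p ≠ 0 ∧
        (fun j => evc x (hψ ψ j)) ∈ Q4 ∧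
        ∀ z : UpperHalfPlane, jj z = Polynomial.aeval x p / Polynomial.aeval x q' →
        ∃ c : Fin 2 → Fin 2 → ℂ, (∀ i j, c i j ∈ W) ∧ c 0 0 * c 1 1 - c 0 1 * c 1 0 = 1 ∧
          PerE (fun i j => evc x (ψ i j)) c z) :
    ∃ B : ℕ, 1 ≤ B ∧ ∀ (q k m d δ : ℕ) (w : Fin q → ℂ)
    (β : Fin k → ℂ), (∀ i, IsAlgebraic ℚ (β i)) → (∀ i, (minpoly ℚ (β i)).natDegree ≤ m) → (∀ i, (B : ℝ) < ‖β i‖) →
    ExcR p q' δ d w β → ExcT (hψ ψ) (de q k δ) (d * m ^ k) (Wd w W ^ de q k δ) β := by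
  classical
  obtain ⟨B, hB⟩ := exists_nat_ge (max 1 (1 / r))
  have hB1 : (1 : ℝ) ≤ B := (le_max_left _ _).trans hB
  refine ⟨B, by exact_mod_cast hB1, ?_⟩
  intro q k m d δ w β halg hdeg hβB hexc
  obtain ⟨z, ℓ, hz, hℓ, L, hLf, hLd, P, hPd, hP0, u₁, hu₁⟩ := hexc
  have := hLf
  obtain ⟨K, hKf, hKd, hLK, hβK⟩ := fld L β halg hdeg
  have hβ0 : ∀ i, 0 < ‖β i‖ := fun i => by
    have := hβB i
    linarith
  have hxr : ∀ i, ‖1 / β i‖ < r := by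
    intro i
    rw [norm_div, norm_one, div_lt_iff₀ (hβ0 i)]
    have h1 : 1 / r < ‖β i‖ := lt_of_le_of_lt ((le_max_right _ _).trans hB) (hβB i)
    rw [div_lt_iff₀ hr] at h1
    linarith
  choose hq0 hp0 hQ hper using fun i => hx (1 / β i) (hxr i)
  choose c hcW hcd hP using fun i => hper i (z i) (hz i)
  -- the invariants are in the field
  have hpoly : ∀ (f : Polynomial ℤ) (i : Fin k), Polynomial.aeval (1 / β i) f ∈ K := by
    intro f i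
    have h1 : 1 / β i ∈ K := K.div_mem K.one_mem (hβK i)
    rw [Polynomial.aeval_eq_sum_range]
    refine K.sum_mem fun l _ => ?_
    rw [zsmul_eq_mul]
    exact K.mul_mem (intCast_mem K _) (pow_mem h1 l)
  have hJK : ∀ i, jj (z i) ∈ K := fun i => by
    rw [hz i]
    exact K.div_mem (hpoly p i) (hpoly q' i)
  have hJ0 : ∀ i, jj (z i) ≠ 0 := fun i => by
    rw [hz i]
    exact div_ne_zero (hp0 i) (hq0 i)
  obtain ⟨J, hJ⟩ : ∃ J : Fin k → K, J = fun i => ⟨jj (z i), hJK i⟩ := ⟨_, rfl⟩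
  have hJe : ∀ i, ((J i : K) : ℂ) = jj (z i) := fun i => by rw [hJ]
  set P' := MvPolynomial.map (IntermediateField.inclusion hLK : L →+* K) P with hP'
  have hPd' : P'.totalDegree ≤ δ := deg_incl hLK P hPd
  have hmem : ptc (hψ ψ) β ℓ ∈ YJ k := fun i => hQ i
  refine ⟨ℓ, hℓ, YJ k, Pool.Agent.Y120.A.hirr k, hmem, fun y hy j => hV _ _ (hy j), K, hKf,
    hKd.trans (Nat.mul_le_mul_right _ hLd), ?_⟩
  have hone : (1 : ℂ) ∈ Wd w W := (le_sup_left : _ ≤ Wd w W) (Submodule.subset_span ⟨none, rfl⟩)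
  have hcon : ∀ a, con w c a ∈ Wd w W := by
    rintro (o | a)
    · exact (le_sup_left : _ ≤ Wd w W) (Submodule.subset_span ⟨some o, rfl⟩)
    · exact (le_sup_right : W ≤ Wd w W) (hcW a.1 a.2.1 a.2.2)
  refine ⟨MvPolynomial.aeval (Sum.elim (fun i => (MvPolynomial.C (con w c i) : MvPolynomial (Fin k × Option (Fin 4)) ℂ))
    MvPolynomial.X) (Ptr δ J P'), deg_sub K _ _ (Ptr_deg hPd'), fun s => coeff_sub K (con w c) (Wd w W) hone hcon _
    (Ptr_deg hPd') s, ?_, ?_⟩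
  · rw [eval_sub]
    rw [Ptr_eval hPd' w c (ptc (hψ ψ) β ℓ) (fun v : Fin k × Fin 4 => nu (z v.1) (ℓ v.1) v.2) (fun i => (hP i).ne) ?_,
      aeval_incl, hP0]
    rintro ⟨i, j⟩
    obtain ⟨g1, g2, g3, g4, g5⟩ := hP i
    fin_cases j
    · show ((z i : ℂ)) = (evc (1 / β i) (ψ 0 0) * c i 0 1 + evc (1 / β i) (ψ 0 1) * c i 1 1) /
        (evc (1 / β i) (ψ 0 0) * c i 0 0 + evc (1 / β i) (ψ 0 1) * c i 1 0)
      rw [eq_div_iff g1]
      exact g2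
    · show deriv jj (z i) = -((J i : K) : ℂ) * (evc (1 / β i) (ψ 0 0) * c i 0 0 + evc (1 / β i) (ψ 0 1) * c i 1 0) ^ 2 / 1
      rw [hJe, g4]
      ring
    · show deriv (deriv jj) (z i) = ((J i : K) : ℂ) * ((evc (1 / β i) (ψ 0 0) * c i 0 0 +
        evc (1 / β i) (ψ 0 1) * c i 1 0) ^ 4 - 2 * ((evc (1 / β i) (ψ 0 0) * c i 0 0 +
        evc (1 / β i) (ψ 0 1) * c i 1 0) ^ 3 * (evc (1 / β i) (ψ 1 0) * c i 0 0 + evc (1 / β i) (ψ 1 1) * c i 1 0))) / 1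
      rw [hJe, g5, div_one]
    · show ℓ i = ℓ i / 1
      rw [div_one]
  · -- a point where the relation fails
    obtain ⟨pp, hpp⟩ : ∃ pp : MvPolynomial (Fin k × Fin 4) ℂ, pp = MvPolynomial.aeval (Sum.elim (fun i =>
      (MvPolynomial.C (w i) : MvPolynomial (Fin k × Fin 4) ℂ)) MvPolynomial.X) P := ⟨_, rfl⟩
    have hpe : ∀ u, MvPolynomial.eval u pp = MvPolynomial.aeval (Sum.elim w u) P := by
      intro u
      rw [← eval_sub L w P u, ← hpp]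
      rfl
    have hpp0 : pp ≠ 0 := by
      intro h0
      apply hu₁
      rw [← hpe, h0, map_zero]
    obtain ⟨u, hu, hup⟩ := dense4 hcd hpp0
    choose V hV1 hV2 hV3 hV4 using fun i => exists_v (t := ((J i : K) : ℂ)) (by rw [hJe]; exact hJ0 i) (hcd i)
      (fun j => u (i, j)) (hu i).1 (hu i).2
    refine ⟨fun a => V a.1 a.2, fun i => ⟨hV1 i, hV2 i⟩, ?_⟩
    rw [eval_sub]
    rw [Ne, Ptr_eval hPd' w c (fun a => V a.1 a.2) u (fun i => hV3 i) (fun v => hV4 v.1 v.2), aeval_incl, ← hpe]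
    exact hup

theorem tupR0 {p q' : Polynomial ℤ} (hp : p.coeff 0 ≠ 0) (hpq : p.coeff 0 ≠ 1728 * q'.coeff 0) (hq : q'.coeff 0 ≠ 0)
    (hR : Polynomial.C (q'.coeff 0) * p ≠ Polynomial.C (p.coeff 0) * q') (q k m d δ : ℕ) :
    ∃ c : ℝ, 0 < c ∧ ∃ C : ℝ, 0 ≤ C ∧ ∀ (w : Fin q → ℂ) (T : ℕ), 1 ≤ T →
    {β : Fin k → ℂ | (∀ i, Sl.AInt m T (β i)) ∧ ExcR p q' δ d w β}.Finite ∧
    ({β : Fin k → ℂ | (∀ i, Sl.AInt m T (β i)) ∧ ExcR p q' δ d w β}.ncard : ℝ) ≤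
      C * (T : ℝ) ^ (((k * Sl.Mm m : ℕ) : ℝ) - c) := by
  classical
  obtain ⟨ψ, ⟨T₀, A₀, hG⟩, hV, W, hW, r, hr, hx⟩ := heart hp hpq hq hR
  obtain ⟨B, hB1, hB⟩ := incR hV hr hx
  obtain ⟨c₁, hc₁, C₁, hC₁, h₁⟩ := tupT2s (nrh_of_gfs hG) hG.hsize k m (de q k δ) (d * m ^ k)
    ((q + 1 + finrank ℚ W) ^ de q k δ)
  obtain ⟨C₂, hC₂, h₂⟩ := small_tuples m k B hB1
  refine ⟨min c₁ 1, lt_min hc₁ one_pos, C₁ + C₂, by positivity, fun w T hT => ?_⟩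
  obtain ⟨hw1, hw2⟩ := Wd_rank w W (de q k δ)
  obtain ⟨hf, hn⟩ := h₁ (Wd w W ^ de q k δ) hw1 hw2 T hT
  have h₂ := h₂ T hT
  set S₂ := (Fintype.piFinset fun _ : Fin k => Sl.NF m T).filter fun α => ∃ i, ‖α i‖ ≤ B with hS₂
  set S₁ := {α : Fin k → ℂ | (∀ i, Sl.AInt m T (α i)) ∧ ExcT (hψ ψ) (de q k δ) (d * m ^ k) (Wd w W ^ de q k δ) α} with hS₁
  have hsub : {α : Fin k → ℂ | (∀ i, Sl.AInt m T (α i)) ∧ ExcR p q' δ d w α} ⊆ S₁ ∪ (S₂ : Set (Fin k → ℂ)) := by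
    intro α hα
    obtain ⟨ha, he⟩ := hα
    by_cases hs : ∃ i, ‖α i‖ ≤ B
    · right
      rw [hS₂, Finset.mem_coe, Finset.mem_filter, Fintype.mem_piFinset]
      exact ⟨fun i => Sl.mem_NF.2 (ha i), hs⟩
    · left
      push Not at hs
      exact ⟨ha, hB q k m d δ w α (fun i => (aint_alg (ha i)).1) (fun i => (aint_alg (ha i)).2) hs he⟩
  have hfin : (S₁ ∪ (S₂ : Set (Fin k → ℂ))).Finite := hf.union S₂.finite_toSet
  refine ⟨hfin.subset hsub, ?_⟩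
  have hT1 : (1 : ℝ) ≤ T := by exact_mod_cast hT
  have e1 : (T : ℝ) ^ (((k * Sl.Mm m : ℕ) : ℝ) - c₁) ≤ (T : ℝ) ^ (((k * Sl.Mm m : ℕ) : ℝ) - min c₁ 1) :=
    Real.rpow_le_rpow_of_exponent_le hT1 (by linarith [min_le_left c₁ 1])
  have e2 : (T : ℝ) ^ (((k * Sl.Mm m : ℕ) : ℝ) - 1) ≤ (T : ℝ) ^ (((k * Sl.Mm m : ℕ) : ℝ) - min c₁ 1) :=
    Real.rpow_le_rpow_of_exponent_le hT1 (by linarith [min_le_right c₁ 1])
  calc ({α : Fin k → ℂ | (∀ i, Sl.AInt m T (α i)) ∧ ExcR p q' δ d w α}.ncard : ℝ)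
      ≤ ((S₁ ∪ (S₂ : Set (Fin k → ℂ))).ncard : ℝ) := by exact_mod_cast Set.ncard_le_ncard hsub hfin
    _ ≤ (S₁.ncard : ℝ) + (S₂.card : ℝ) := by
        have h3 := Set.ncard_union_le S₁ (S₂ : Set (Fin k → ℂ))
        rw [Set.ncard_coe_finset] at h3
        exact_mod_cast h3
    _ ≤ C₁ * (T : ℝ) ^ (((k * Sl.Mm m : ℕ) : ℝ) - c₁) + C₂ * (T : ℝ) ^ (((k * Sl.Mm m : ℕ) : ℝ) - 1) := add_le_add hn h₂
    _ ≤ C₁ * (T : ℝ) ^ (((k * Sl.Mm m : ℕ) : ℝ) - min c₁ 1) + C₂ * (T : ℝ) ^ (((k * Sl.Mm m : ℕ) : ℝ) - min c₁ 1) :=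
        add_le_add (mul_le_mul_of_nonneg_left e1 hC₁) (mul_le_mul_of_nonneg_left e2 hC₂)
    _ = _ := by ring

/-- the exceptional tuples are few -/
theorem tupR {p q' : Polynomial ℤ} (hp : p.coeff 0 ≠ 0) (hpq : p.coeff 0 ≠ 1728 * q'.coeff 0) (hq : q'.coeff 0 ≠ 0)
    (hR : Polynomial.C (q'.coeff 0) * p ≠ Polynomial.C (p.coeff 0) * q') (q k m d δ : ℕ) (hm : 1 ≤ m) :
    ∃ c : ℝ, 0 < c ∧ ∃ C : ℝ, 0 ≤ C ∧ ∀ (w : Fin q → ℂ) (T : ℕ), 1 ≤ T → {ξ : ℂ | Sl.SInt m T ξ}.Finite ∧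
    ({β : Fin k → ℂ | (∀ i, Sl.SInt m T (β i)) ∧ ExcR p q' δ d w β}.ncard : ℝ) ≤
      C * (T : ℝ) ^ (-c) * ({ξ : ℂ | Sl.SInt m T ξ}.ncard : ℝ) ^ k := by
  obtain ⟨c, hc, C, hC, h⟩ := tupR0 hp hpq hq hR q k m d δ
  obtain ⟨c₁, hc₁, hmany⟩ := Sl.many m hm
  refine ⟨c, hc, C / c₁ ^ k, by positivity, fun w T hT => ⟨Sl.sint_fin m T, ?_⟩⟩
  obtain ⟨h1, h2⟩ := h w T hT
  have hsub : {α : Fin k → ℂ | (∀ i, Sl.SInt m T (α i)) ∧ ExcR p q' δ d w α} ⊆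
      {α : Fin k → ℂ | (∀ i, Sl.AInt m T (α i)) ∧ ExcR p q' δ d w α} := fun α hα => ⟨fun i => (hα.1 i).aint, hα.2⟩
  have h3 : ({α : Fin k → ℂ | (∀ i, Sl.SInt m T (α i)) ∧ ExcR p q' δ d w α}.ncard : ℝ) ≤
      ({α : Fin k → ℂ | (∀ i, Sl.AInt m T (α i)) ∧ ExcR p q' δ d w α}.ncard : ℝ) := by
    exact_mod_cast Set.ncard_le_ncard hsub h1
  exact (h3.trans h2).trans (Sl.prop_bound hc₁ hC hT (hmany T hT))

end Pool.Agent.W5h27.ES
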