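import Pool.Agent.W5h27.ES.Trf
import Pool.Agent.Y120.A.WinA

/-!
# Windows of points with `j(z_i) = p(1/β_i) / q(1/β_i)`
-/

set_option autoImplicit false

open Module PowerSeries

namespace Pool.Agent.W5h27.ES

open Pool.Agent.Y916.Al (evc Cvc)
open Pool.Agent.TH21.MS (jj jj_an)
open Pool.Agent.Y120.A (Q4 YJ T_IRR fld aeval_incl deg_incl aint_alg ht_alg)
open Pool.Agent.Y916.Af (Vc GFs ptc eval_sub winT2s nrh_of_gfs trdeg_le_of_closure mem_cl_of_alg)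
open Pool.Agent.Y916

/-- the transformed relation over a field which contains the invariants -/
theorem incQ {p q' : Polynomial ℤ} {ψ : Fin 2 → Fin 2 → ℚ⟦X⟧} {W : Submodule ℚ ℂ} {r : ℝ} (hr : 0 < r)
    (hx : ∀ x : ℂ, ‖x‖ < r → Polynomial.aeval x q' ≠ 0 ∧ Polynomial.aeval x p ≠ 0 ∧
        (fun j => evc x (hψ ψ j)) ∈ Q4 ∧
        ∀ z : UpperHalfPlane, jj z = Polynomial.aeval x p / Polynomial.aeval x q' →
        ∃ c : Fin 2 → Fin 2 → ℂ, (∀ i j, c i j ∈ W) ∧ c 0 0 * c 1 1 - c 0 1 * c 1 0 = 1 ∧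
          PerE (fun i j => evc x (ψ i j)) c z) :
    ∃ B : ℕ, 1 ≤ B ∧ ∀ (q k δ : ℕ) (w : Fin q → ℂ) (β : Fin k → ℂ), (∀ i, (B : ℝ) < ‖β i‖) →
    ∀ (z : Fin k → UpperHalfPlane) (ℓ : Fin k → ℂ),
    (∀ i, jj (z i) = Polynomial.aeval (1 / β i) p / Polynomial.aeval (1 / β i) q') →
    ∀ (L K : IntermediateField ℚ ℂ), L ≤ K → (∀ i, β i ∈ K) →
    ∀ P : MvPolynomial (Fin q ⊕ Fin k × Fin 4) L, P.totalDegree ≤ δ →
    ∃ (c : Fin k → Fin 2 → Fin 2 → ℂ) (Q : MvPolynomial (Vt q k) K), (∀ i a b, c i a b ∈ W) ∧ Q.totalDegree ≤ de q k δ ∧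
      ptc (hψ ψ) β ℓ ∈ YJ k ∧
      (MvPolynomial.aeval (Sum.elim w fun v : Fin k × Fin 4 => nu (z v.1) (ℓ v.1) v.2) P = 0 →
        MvPolynomial.aeval (Sum.elim (con w c) (ptc (hψ ψ) β ℓ)) Q = 0) ∧
      ((∃ u, MvPolynomial.aeval (Sum.elim w u) P ≠ 0) → ∃ y ∈ YJ k, MvPolynomial.aeval (Sum.elim (con w c) y) Q ≠ 0) := by
  classical
  obtain ⟨B, hB⟩ := exists_nat_ge (max 1 (1 / r))
  have hB1 : (1 : ℝ) ≤ B := (le_max_left _ _).trans hB
  refine ⟨B, by exact_mod_cast hB1, ?_⟩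
  intro q k δ w β hβB z ℓ hz L K hLK hβK P hPd
  have hβ0 : ∀ i, 0 < ‖β i‖ := fun i => by
    have := hβB i
    linarith
  have hxr : ∀ i, ‖1 / β i‖ < r := by
    intro i
    rw [norm_div, norm_one, div_lt_iff₀ (hβ0 i)]
    have h1 : 1 / r < ‖β i‖ := lt_of_le_of_lt ((le_max_right _ _).trans hB) (hβB i)
    rw [div_lt_iff₀ hr] at h1
    linarith
  choose hq0 hp0 hQ hper using fun i => hx (1 / β i) (hxr i)
  choose c hcW hcd hP using fun i => hper i (z i) (hz i)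
  -- the invariants are in the field
  have hpoly : ∀ (f : Polynomial ℤ) (i : Fin k), Polynomial.aeval (1 / β i) f ∈ K := by
    intro f i
    have h1 : 1 / β i ∈ K := K.div_mem K.one_mem (hβK i)
    rw [Polynomial.aeval_eq_sum_range]
    refine K.sum_mem fun l _ => ?_
    rw [zsmul_eq_mul]
    exact K.mul_mem (intCast_mem K _) (pow_mem h1 l)
  have hJK : ∀ i, jj (z i) ∈ K := fun i => by
    rw [hz i]
    exact K.div_mem (hpoly p i) (hpoly q' i)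
  have hJ0 : ∀ i, jj (z i) ≠ 0 := fun i => by
    rw [hz i]
    exact div_ne_zero (hp0 i) (hq0 i)
  obtain ⟨J, hJ⟩ : ∃ J : Fin k → K, J = fun i => ⟨jj (z i), hJK i⟩ := ⟨_, rfl⟩
  have hJe : ∀ i, ((J i : K) : ℂ) = jj (z i) := fun i => by rw [hJ]
  set P' := MvPolynomial.map (IntermediateField.inclusion hLK : L →+* K) P with hP'
  have hPd' : P'.totalDegree ≤ δ := deg_incl hLK P hPd
  refine ⟨c, Ptr δ J P', hcW, Ptr_deg hPd', fun i => hQ i, fun hP0 => ?_, fun hu₁ => ?_⟩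
  · rw [Ptr_eval hPd' w c (ptc (hψ ψ) β ℓ) (fun v : Fin k × Fin 4 => nu (z v.1) (ℓ v.1) v.2) (fun i => (hP i).ne) ?_,
      aeval_incl, hP0]
    rintro ⟨i, j⟩
    obtain ⟨g1, g2, g3, g4, g5⟩ := hP i
    fin_cases j
    · show ((z i : ℂ)) = (evc (1 / β i) (ψ 0 0) * c i 0 1 + evc (1 / β i) (ψ 0 1) * c i 1 1) /
        (evc (1 / β i) (ψ 0 0) * c i 0 0 + evc (1 / β i) (ψ 0 1) * c i 1 0)
      rw [eq_div_iff g1]
      exact g2
    · show deriv jj (z i) = -((J i : K) : ℂ) * (evc (1 / β i) (ψ 0 0) * c i 0 0 + evc (1 / β i) (ψ 0 1) * c i 1 0) ^ 2 / 1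
      rw [hJe, g4]
      ring
    · show deriv (deriv jj) (z i) = ((J i : K) : ℂ) * ((evc (1 / β i) (ψ 0 0) * c i 0 0 +
        evc (1 / β i) (ψ 0 1) * c i 1 0) ^ 4 - 2 * ((evc (1 / β i) (ψ 0 0) * c i 0 0 +
        evc (1 / β i) (ψ 0 1) * c i 1 0) ^ 3 * (evc (1 / β i) (ψ 1 0) * c i 0 0 + evc (1 / β i) (ψ 1 1) * c i 1 0))) / 1
      rw [hJe, g5, div_one]
    · show ℓ i = ℓ i / 1
      rw [div_one]
  · obtain ⟨u₁, hu₁⟩ := hu₁
    obtain ⟨pp, hpp⟩ : ∃ pp : MvPolynomial (Fin k × Fin 4) ℂ, pp = MvPolynomial.aeval (Sum.elim (fun i =>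
      (MvPolynomial.C (w i) : MvPolynomial (Fin k × Fin 4) ℂ)) MvPolynomial.X) P := ⟨_, rfl⟩
    have hpe : ∀ u, MvPolynomial.eval u pp = MvPolynomial.aeval (Sum.elim w u) P := by
      intro u
      rw [← eval_sub L w P u, ← hpp]
      rfl
    have hpp0 : pp ≠ 0 := by
      intro h0
      apply hu₁
      rw [← hpe, h0, map_zero]
    obtain ⟨u, hu, hup⟩ := dense4 hcd hpp0
    choose V hV1 hV2 hV3 hV4 using fun i => exists_v (t := ((J i : K) : ℂ)) (by rw [hJe]; exact hJ0 i) (hcd i)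
      (fun j => u (i, j)) (hu i).1 (hu i).2
    refine ⟨fun a => V a.1 a.2, fun i => ⟨hV1 i, hV2 i⟩, ?_⟩
    rw [Ne, Ptr_eval hPd' w c (fun a => V a.1 a.2) u (fun i => hV3 i) (fun v => hV4 v.1 v.2), aeval_incl, ← hpe]
    exact hup

/-- a linear substitution for the constants -/
theorem lin_sub {K : IntermediateField ℚ ℂ} {q k s N : ℕ} (a : Fin s → ℂ) (c : Fin k → Fin 2 → Fin 2 → ℂ)
    (hc : ∀ i x y, c i x y ∈ Submodule.span ℚ (Set.range a)) (Q : MvPolynomial (Vt q k) K) (hQ : Q.totalDegree ≤ N) :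
    ∃ Q' : MvPolynomial ((Fin s ⊕ Fin q) ⊕ Fin k × Option (Fin 4)) K, Q'.totalDegree ≤ N ∧
      ∀ (w : Fin q → ℂ) (y : Fin k × Option (Fin 4) → ℂ), MvPolynomial.aeval (Sum.elim (Sum.elim a w) y) Q' =
        MvPolynomial.aeval (Sum.elim (con w c) y) Q := by
  classical
  choose rr hrr using fun i x y => (Submodule.mem_span_range_iff_exists_fun ℚ).1 (hc i x y)
  let f : Vt q k → MvPolynomial ((Fin s ⊕ Fin q) ⊕ Fin k × Option (Fin 4)) K :=
    Sum.elim (Sum.elim (fun o => MvPolynomial.X (Sum.inl (Sum.inr o)))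
      (fun v => ∑ l, MvPolynomial.C (algebraMap ℚ K (rr v.1 v.2.1 v.2.2 l)) * MvPolynomial.X (Sum.inl (Sum.inl l))))
      (fun t => MvPolynomial.X (Sum.inr t))
  have hf : ∀ i, (f i).totalDegree ≤ 1 := by
    rintro ((o | v) | t)
    · exact tX (K := K) (Sum.inl (Sum.inr o) : (Fin s ⊕ Fin q) ⊕ Fin k × Option (Fin 4))
    · show (∑ l, MvPolynomial.C (algebraMap ℚ K (rr v.1 v.2.1 v.2.2 l)) * MvPolynomial.X (Sum.inl (Sum.inl l)) :
        MvPolynomial ((Fin s ⊕ Fin q) ⊕ Fin k × Option (Fin 4)) K).totalDegree ≤ 1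
      refine MvPolynomial.totalDegree_finsetSum_le fun l _ => ?_
      exact tmul (tC _) (tX _) (by norm_num)
    · exact tX (K := K) (Sum.inr t : (Fin s ⊕ Fin q) ⊕ Fin k × Option (Fin 4))
  refine ⟨MvPolynomial.aeval f Q, ?_, fun w y => ?_⟩
  · rw [MvPolynomial.aeval_def, MvPolynomial.eval₂_eq]
    refine MvPolynomial.totalDegree_finsetSum_le fun t ht => ?_
    have h3 : algebraMap K (MvPolynomial ((Fin s ⊕ Fin q) ⊕ Fin k × Option (Fin 4)) K) (Q.coeff t) =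
      MvPolynomial.C (Q.coeff t) := rfl
    rw [h3]
    refine (MvPolynomial.totalDegree_mul _ _).trans ?_
    rw [MvPolynomial.totalDegree_C, zero_add]
    refine (MvPolynomial.totalDegree_finsetProd _ _).trans ?_
    refine le_trans (Finset.sum_le_sum fun i _ => ?_) ((MvPolynomial.le_totalDegree ht).trans hQ)
    refine (MvPolynomial.totalDegree_pow _ _).trans ?_
    exact (Nat.mul_le_mul_left _ (hf i)).trans (mul_one _).le
  · have h1 : (MvPolynomial.aeval (Sum.elim (Sum.elim a w) y) :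
        MvPolynomial ((Fin s ⊕ Fin q) ⊕ Fin k × Option (Fin 4)) K →ₐ[K] ℂ).comp
        (MvPolynomial.aeval f) = MvPolynomial.aeval (Sum.elim (con w c) y) := by
      refine MvPolynomial.algHom_ext fun i => ?_
      rw [AlgHom.comp_apply, MvPolynomial.aeval_X, MvPolynomial.aeval_X]
      rcases i with (o | v) | t
      · show MvPolynomial.aeval (Sum.elim (Sum.elim a w) y) (MvPolynomial.X (Sum.inl (Sum.inr o)) :
          MvPolynomial ((Fin s ⊕ Fin q) ⊕ Fin k × Option (Fin 4)) K) = w o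
        rw [MvPolynomial.aeval_X]
        rfl
      · show MvPolynomial.aeval (Sum.elim (Sum.elim a w) y) (∑ l, MvPolynomial.C (algebraMap ℚ K (rr v.1 v.2.1 v.2.2 l)) *
          MvPolynomial.X (Sum.inl (Sum.inl l)) : MvPolynomial ((Fin s ⊕ Fin q) ⊕ Fin k × Option (Fin 4)) K) = c v.1 v.2.1 v.2.2
        rw [map_sum, ← hrr v.1 v.2.1 v.2.2]
        refine Finset.sum_congr rfl fun l _ => ?_
        rw [map_mul, MvPolynomial.aeval_C, MvPolynomial.aeval_X, Algebra.smul_def]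
        rfl
      · show MvPolynomial.aeval (Sum.elim (Sum.elim a w) y) (MvPolynomial.X (Sum.inr t) :
          MvPolynomial ((Fin s ⊕ Fin q) ⊕ Fin k × Option (Fin 4)) K) = y t
        rw [MvPolynomial.aeval_X]
        rfl
    exact DFunLike.congr_fun h1 Q

/-- a bound for the transcendence degree -/
lemma trdeg_bd {s : ℕ} (a : Fin s → ℂ) : Algebra.trdeg ℚ (IntermediateField.adjoin ℚ (insert (2 * Real.pi * Complex.I : ℂ)
    (Set.range a))) ≤ ((s + 1 : ℕ) : Cardinal) := by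
  classical
  obtain ⟨S, hS⟩ : ∃ S : Finset ℂ, S = insert (2 * Real.pi * Complex.I : ℂ) (Finset.univ.image a) := ⟨_, rfl⟩
  have hc : S.card ≤ s + 1 := by
    rw [hS]
    refine (Finset.card_insert_le _ _).trans (Nat.succ_le_succ ?_)
    refine Finset.card_image_le.trans ?_
    simp
  refine le_trans ?_ (Nat.cast_le.2 hc)
  refine trdeg_le_of_closure _ ?_
  have h1 : ∀ x ∈ S, IsAlgebraic (Algebra.adjoin ℚ (S : Set ℂ)) x := fun x hx =>
    isAlgebraic_algebraMap (⟨x, Algebra.subset_adjoin hx⟩ : Algebra.adjoin ℚ (S : Set ℂ))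
  rintro x (rfl | ⟨i, rfl⟩)
  · exact mem_cl_of_alg (h1 _ (by rw [hS]; exact Finset.mem_insert_self _ _))
  · exact mem_cl_of_alg (h1 _ (by
      rw [hS]
      exact Finset.mem_insert_of_mem (Finset.mem_image_of_mem _ (Finset.mem_univ _))))

/-- **windows near ordinary points** -/
theorem winR {p q' : Polynomial ℤ} (hp : p.coeff 0 ≠ 0) (hpq : p.coeff 0 ≠ 1728 * q'.coeff 0) (hq : q'.coeff 0 ≠ 0)
    (hR : Polynomial.C (q'.coeff 0) * p ≠ Polynomial.C (p.coeff 0) * q') : ∃ G0 C0 : ℕ, 1 ≤ G0 ∧ ∀ G : ℕ, G0 ≤ G →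
    ∀ q k m d δ A : ℕ, ∃ E : ℕ, ∀ (H : ℕ) (ξ : ℂ), ((H : ℝ) + 2) ^ E ≤ ‖ξ‖ → Al.Ht m A ξ → ∀ w : Fin q → ℂ,
    ∃ S : Finset ℕ, S.card ≤ q + C0 ∧
    ∀ u : Fin k → ℕ, Function.Injective u → (∀ j, 1 ≤ u j ∧ u j ≤ H ∧ u j ∉ S) →
    ∀ (z : Fin k → UpperHalfPlane) (ℓ : Fin k → ℂ),
    (∀ j, jj (z j) = Polynomial.aeval (1 / (ξ - ((G * u j : ℕ) : ℂ))) p /
      Polynomial.aeval (1 / (ξ - ((G * u j : ℕ) : ℂ))) q') → (∀ j, Complex.exp (ℓ j) = ξ - ((G * u j : ℕ) : ℂ)) →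
    ∀ L : IntermediateField ℚ ℂ, FiniteDimensional ℚ L → finrank ℚ L ≤ d →
    ∀ P : MvPolynomial (Fin q ⊕ Fin k × Fin 4) L, P.totalDegree ≤ δ →
    MvPolynomial.aeval (Sum.elim w fun v : Fin k × Fin 4 => nu (z v.1) (ℓ v.1) v.2) P = 0 →
    ∀ y, MvPolynomial.aeval (Sum.elim w y) P = 0 := by
  classical
  obtain ⟨ψ, ⟨T₀, A₀, hG⟩, hV, W, hW, r, hr, hx⟩ := heart hp hpq hq hR
  obtain ⟨B, hB1, hB⟩ := incQ hr hx
  obtain ⟨G0, hG0, hWin⟩ := winT2s (nrh_of_gfs hG) hG.hsize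
  -- a basis of the space of the constants
  obtain ⟨s, a, ha⟩ : ∃ (s : ℕ) (a : Fin s → ℂ), ∀ x ∈ W, x ∈ Submodule.span ℚ (Set.range a) := by
    have b := Module.finBasis ℚ W
    refine ⟨_, fun l => (b l : ℂ), fun x hx => ?_⟩
    have h1 := b.sum_repr ⟨x, hx⟩
    have h2 : x = ∑ l, b.repr ⟨x, hx⟩ l • ((b l : W) : ℂ) := by
      have h3 := congrArg (Subtype.val) h1
      simp only [Submodule.coe_sum, Submodule.coe_smul] at h3
      exact h3.symm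
    rw [h2]
    exact Submodule.sum_mem _ fun l _ => Submodule.smul_mem _ _ (Submodule.subset_span ⟨l, rfl⟩)
  refine ⟨G0, s + 2, hG0, fun G hGG q k m d δ A => ?_⟩
  obtain ⟨E, hE⟩ := hWin G hGG s a q k m (d * m) (de q k δ) A
  refine ⟨E + G + B + 2, fun H ξ hξ hHt w => ?_⟩
  have hH2 : (2 : ℝ) ≤ (H : ℝ) + 2 := by linarith [(Nat.cast_nonneg H : (0 : ℝ) ≤ H)]
  have hH1 : (1 : ℝ) ≤ (H : ℝ) + 2 := by linarith
  have h2n : ∀ n : ℕ, (n : ℝ) ≤ ((H : ℝ) + 2) ^ n := fun n => by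
    refine le_trans ?_ (pow_le_pow_left₀ (by norm_num) hH2 n)
    exact_mod_cast (Nat.lt_two_pow_self (n := n)).le
  have hbig : (G : ℝ) * (H + 2) + B ≤ ‖ξ‖ := by
    refine le_trans ?_ ((pow_le_pow_right₀ hH1 (by omega : G + 1 + B + 1 ≤ E + G + B + 2)).trans hξ)
    have h3 : (1 : ℝ) ≤ ((H : ℝ) + 2) ^ (G + 1) := one_le_pow₀ hH1
    have h4 : (1 : ℝ) ≤ ((H : ℝ) + 2) ^ B := one_le_pow₀ hH1
    have h5 : (G : ℝ) * (H + 2) ≤ ((H : ℝ) + 2) ^ (G + 1) := by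
      rw [pow_succ]
      exact mul_le_mul_of_nonneg_right (h2n G) (by linarith)
    have h6 : (B : ℝ) ≤ ((H : ℝ) + 2) ^ B := h2n B
    calc (G : ℝ) * (H + 2) + B ≤ ((H : ℝ) + 2) ^ (G + 1) + ((H : ℝ) + 2) ^ B := add_le_add h5 h6
      _ ≤ ((H : ℝ) + 2) ^ (G + 1) * ((H : ℝ) + 2) ^ B * 2 := by nlinarith
      _ ≤ ((H : ℝ) + 2) ^ (G + 1) * ((H : ℝ) + 2) ^ B * ((H : ℝ) + 2) :=
          mul_le_mul_of_nonneg_left hH2 (by positivity)
      _ = _ := by rw [← pow_add, ← pow_succ]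
  obtain ⟨S, hS, hwin⟩ := hE H ξ ((pow_le_pow_right₀ hH1 (by omega)).trans hξ) hHt w
  refine ⟨S, ?_, ?_⟩
  · have h1 : (S.card : Cardinal) ≤ ((q + (s + 2) : ℕ) : Cardinal) := by
      refine hS.trans ?_
      have h2 : ((q + (s + 2) : ℕ) : Cardinal) = ((s + 1 : ℕ) : Cardinal) + q + 1 := by
        push_cast
        ring
      rw [h2]
      exact add_le_add (add_le_add (trdeg_bd a) le_rfl) le_rfl
    exact_mod_cast h1
  intro u hu hub z ℓ hz hexp L hLf hLd P hPd hP0 y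
  by_contra hy
  obtain ⟨halg, hdeg⟩ := ht_alg hHt
  have := hLf
  obtain ⟨K, hKf, hKd, hLK, hξK⟩ := fld L (fun _ : Fin 1 => ξ) (fun _ => halg) (fun _ => hdeg)
  have hξK := hξK 0
  have hαB : ∀ j, (B : ℝ) < ‖ξ - ((G * u j : ℕ) : ℂ)‖ := by
    intro j
    have h5 := norm_sub_norm_le ξ ((G * u j : ℕ) : ℂ)
    rw [Complex.norm_natCast] at h5
    have hGR : (1 : ℝ) ≤ G := by exact_mod_cast hG0.trans hGG
    have h6 : ((G * u j : ℕ) : ℝ) ≤ G * H := by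
      push_cast
      exact mul_le_mul_of_nonneg_left (by exact_mod_cast (hub j).2.1) (by linarith)
    nlinarith
  obtain ⟨c, Q, hcW, hQd, hmem, hQ0, hQ1⟩ := hB q k δ w (fun j => ξ - ((G * u j : ℕ) : ℂ)) hαB z ℓ hz L K hLK
    (fun j => sub_mem hξK (natCast_mem K _)) P hPd
  obtain ⟨y₁, hy₁, hQy⟩ := hQ1 ⟨y, hy⟩
  apply hQy
  obtain ⟨Q', hQ'd, hQ'⟩ := lin_sub a c (fun i x y => ha _ (hcW i x y)) Q hQd
  rw [← hQ']
  refine hwin u hu hub ℓ hexp (YJ k) (Pool.Agent.Y120.A.hirr k) hmem (fun y hy j => hV _ _ (hy j)) K hKf (by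
    refine hKd.trans ?_
    rw [pow_one]
    exact Nat.mul_le_mul_right _ hLd) Q' hQ'd ?_ y₁ hy₁
  rw [hQ']
  exact hQ0 hP0

end Pool.Agent.W5h27.ES
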